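import Pool.Agent.Lib.MP_cc7fb1_cn.Df

/-!
# N-side, row NB1
-/

set_option autoImplicit false
set_option linter.unusedSectionVars false

open Cardinal Set

namespace Pool.CN

open Pool.MP_3ade05_lc Pool.PC Pool.CF Pool.UL Pool.UT Pool.GE

variable {P : Type} [PartialOrder P]

/-- Fewer than `κ` dense open sets have a dense intersection. -/
theorem _root_.Pool.CF.DirClosed.inter {κ : Cardinal.{0}} (h : DirClosed κ P) {J : Type}
    (hJ : #J < κ) (A : J → Set P) (hA : ∀ j, ∀ p ∈ A j, ∀ q ≤ p, q ∈ A j) (p : P)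
    (hd : ∀ j, ∀ q ≤ p, ∃ r ≤ q, r ∈ A j) : ∃ q ≤ p, ∀ j, q ∈ A j := by
  classical
  -- well-order `J`
  let lt : J → J → Prop := WellOrderingRel
  have hwf : WellFounded lt := (inferInstance : IsWellOrder J WellOrderingRel).wf
  -- one step: a lower bound of the previous elements and of `p`, in `A j`
  have step : ∀ (j : J) (S : Set P), ∃ r : P, (∃ l ≤ p, ∀ a ∈ S, l ≤ a) → r ∈ A j ∧ r ≤ p ∧
      ∀ a ∈ S, r ≤ a := by
    intro j S
    by_cases hS : ∃ l ≤ p, ∀ a ∈ S, l ≤ a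
    · obtain ⟨l, hl, h1⟩ := hS
      obtain ⟨r, hr, h2⟩ := hd j l hl
      exact ⟨r, fun _ => ⟨h2, hr.trans hl, fun a ha => hr.trans (h1 a ha)⟩⟩
    · exact ⟨p, fun h' => absurd h' hS⟩
  choose nx hnx using step
  let f : J → P := hwf.fix fun j F => nx j {a | ∃ i, ∃ hi : lt i j, a = F i hi}
  have hf : ∀ j, f j = nx j {a | ∃ i, lt i j ∧ a = f i} := by
    intro j
    show hwf.fix _ j = _
    rw [WellFounded.fix_eq]
    congr 1
    ext a
    constructor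
    · rintro ⟨i, hi, rfl⟩
      exact ⟨i, hi, rfl⟩
    · rintro ⟨i, hi, rfl⟩
      exact ⟨i, hi, rfl⟩
  -- lower bounds of the initial parts
  have lb : ∀ S : Set J, (∀ i ∈ S, f i ≤ p) → (∀ i ∈ S, ∀ k ∈ S, f i ≤ f k ∨ f k ≤ f i) →
      ∃ l ≤ p, ∀ i ∈ S, l ≤ f i := by
    intro S h1 h2
    rcases S.eq_empty_or_nonempty with rfl | ⟨i0, hi0⟩
    · exact ⟨p, le_rfl, fun i hi => absurd hi (notMem_empty i)⟩
    · obtain ⟨l, hl⟩ := h (f '' S) ⟨f i0, i0, hi0, rfl⟩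
        ((Cardinal.mk_image_le.trans (Cardinal.mk_set_le S)).trans_lt hJ) (by
        rintro a ⟨i, hi, rfl⟩ b ⟨k, hk, rfl⟩
        rcases h2 i hi k hk with h3 | h3
        · exact ⟨f i, ⟨i, hi, rfl⟩, le_rfl, h3⟩
        · exact ⟨f k, ⟨k, hk, rfl⟩, h3, le_rfl⟩)
      exact ⟨l, (hl _ ⟨i0, hi0, rfl⟩).trans (h1 i0 hi0), fun i hi => hl _ ⟨i, hi, rfl⟩⟩
  have htri : ∀ i k : J, lt i k ∨ i = k ∨ lt k i := fun i k =>
    trichotomous_of (WellOrderingRel : J → J → Prop) i k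
  have key : ∀ j, f j ∈ A j ∧ f j ≤ p ∧ ∀ i, lt i j → f j ≤ f i := by
    intro j
    induction j using hwf.induction with
    | _ j ih =>
      obtain ⟨l, hl, h1⟩ := lb {i | lt i j} (fun i hi => (ih i hi).2.1) (fun i hi k hk => by
        rcases htri i k with h3 | h3 | h3
        · exact Or.inr ((ih k hk).2.2 i h3)
        · exact Or.inl (h3 ▸ le_rfl)
        · exact Or.inl ((ih i hi).2.2 k h3))
      have h2 := hnx j {a | ∃ i, lt i j ∧ a = f i} ⟨l, hl, by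
        rintro a ⟨i, hi, rfl⟩
        exact h1 i hi⟩
      rw [← hf j] at h2
      exact ⟨h2.1, h2.2.1, fun i hi => h2.2.2 _ ⟨i, hi, rfl⟩⟩
  obtain ⟨l, hl, h1⟩ := lb univ (fun i _ => (key i).2.1) (fun i _ k _ => by
    rcases htri i k with h3 | h3 | h3
    · exact Or.inr ((key k).2.2 i h3)
    · exact Or.inl (h3 ▸ le_rfl)
    · exact Or.inl ((key i).2.2 k h3))
  exact ⟨l, hl, fun j => hA j _ (key j).1 l (h1 j (mem_univ j))⟩

end Pool.CN
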