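import Pool.Agent.Lib.MP_cc7fb1_cn.NA1
import Pool.Agent.Lib.MP_cc7fb1_cn.NB1

/-!
# N-side, row NC1
-/

set_option autoImplicit false
set_option linter.unusedSectionVars false

open Cardinal Set

namespace Pool.CN

open Pool.MP_3ade05_lc Pool.PC Pool.CF Pool.UL Pool.UT Pool.GE

variable {P : Type} [PartialOrder P]

/-- Names for functions on a set of size `< κ` have a small set of values. -/
theorem NC1_ns {κ : Cardinal.{0}} (h : DirClosed κ P) {A B : Type} (hA : #A < κ) (hB : κ ≤ #B)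
    (p : P) (R : P → A → B → Prop) (hmono : ∀ q q' a b, q' ≤ q → R q a b → R q' a b)
    (huniq : ∀ q ≤ p, ∀ a b b', R q a b → R q a b' → b = b') :
    ∃ q ≤ p, ∃ b, ∀ q' ≤ q, ∀ a, ¬ R q' a b := by
  obtain ⟨q, hq, hqA⟩ := h.inter hA
    (fun a => {q | (∃ b, R q a b) ∨ ∀ r ≤ q, ∀ b, ¬ R r a b}) (by
      rintro a q hq q' hq'
      rcases hq with ⟨b, hb⟩ | hq
      · exact Or.inl ⟨b, hmono _ _ _ _ hq' hb⟩
      · exact Or.inr fun r hr => hq r (hr.trans hq')) p (by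
      intro a q _
      by_cases h1 : ∃ r ≤ q, ∃ b, R r a b
      · obtain ⟨r, hr, b, hb⟩ := h1
        exact ⟨r, hr, Or.inl ⟨b, hb⟩⟩
      · push Not at h1
        exact ⟨q, le_rfl, Or.inr h1⟩)
  have hlt : #{b | ∃ a, R q a b} < #B := by
    refine lt_of_le_of_lt ?_ (hA.trans_le hB)
    have hc : ∀ b : {b | ∃ a, R q a b}, ∃ a, R q a b.1 := fun b => b.2
    choose g hg using hc
    refine Cardinal.mk_le_of_injective (f := g) ?_
    intro b b' e
    have h1 := hg b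
    have h2 := hg b'
    rw [← e] at h2
    exact Subtype.ext (huniq q hq _ _ _ h1 h2)
  obtain ⟨b, hb⟩ : ∃ b, b ∉ {b | ∃ a, R q a b} := by
    by_contra hcon
    push Not at hcon
    have : {b | ∃ a, R q a b} = Set.univ := eq_univ_of_forall hcon
    rw [this, Cardinal.mk_univ] at hlt
    exact lt_irrefl _ hlt
  refine ⟨q, hq, b, fun q' hq' a hR => ?_⟩
  rcases hqA a with ⟨b', hb'⟩ | h2
  · have h3 := huniq q' (hq'.trans hq) a b b' hR (hmono _ _ _ _ hq' hb')
    subst h3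
    exact hb ⟨a, hb'⟩
  · exact h2 q' hq' b hR

variable {Λ Θ R : Type} [LinearOrder Λ] [WellFoundedLT Λ] [LinearOrder Θ]
    [WellFoundedLT Θ] [PartialOrder R] [OrderTop R] [D : VS P Λ Θ R]

include D

/-- `κ` is a cardinal of the model. -/
theorem Ev.card_kap : Ev (P := PP P) (fun U H => InfCard (MM U H) (kap P Λ Θ R U H)) := by
  refine ((Ev.base (P := PP P)).and ((Ev.no_surj (P := PP P)).and
    (Ev.seedN (P := PP P) (ordN (PP P) D.κ.ord)))).mono ?_
  rintro U H ⟨hB, hns, hκ⟩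
  have e : ty (KK P Λ Θ R) = D.κ.ord := ty_KK P Λ Θ R
  show InfCard (MM U H) (Name.val U H (ordN _ (ty (KK P Λ Θ R))))
  rw [e]
  refine ⟨mem_MM hκ, isOrdinal_val_ordN hB _, ?_, ?_⟩
  · rw [← val_ordN_omega hB]
    refine (val_ordN_subset_iff hB hB.omega hκ).2 ?_
    rw [← Cardinal.ord_aleph0]
    exact Cardinal.ord_le_ord.2 D.κ_unc.le
  · intro a ha f hf hfa
    obtain ⟨δ, hδ, hδU, rfl⟩ := (mem_val_ordN hB).1 ha
    obtain ⟨p₀, hp₀⟩ := hB.filt.ne
    refine hns δ _ hδU hκ ⟨p₀, hp₀, fun p _ R' hmono huniq => ?_⟩ f hf hfa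
    obtain ⟨q, hq, b, hb⟩ := NC1_ns D.dir (A := δ.ToType) (B := D.κ.ord.ToType)
      (by
        rw [Cardinal.mk_toType]
        exact Cardinal.lt_ord.1 hδ)
      (by rw [Cardinal.mk_toType, Cardinal.card_ord]) p.down
      (fun q a b => R' (ULift.up q) a b)
      (fun q q' a b h => hmono (ULift.up q) (ULift.up q') a b h)
      (fun q hq a b b' => huniq (ULift.up q) hq a b b')
    exact ⟨ULift.up q, hq, b, fun q' hq' a => hb q'.down hq' a⟩

end Pool.CN
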