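import Pool.Agent.Lib.MP_cc7fb1_cn.NA2

/-!
# N-side, row NA4
-/

set_option autoImplicit false
set_option linter.unusedSectionVars false

open Cardinal Set

namespace Pool.CN

open Pool.MP_3ade05_lc Pool.PC Pool.CF Pool.UL Pool.UT Pool.GE

variable {P : Type} [PartialOrder P]

/-- Being an element of the value of `nm A`, for a fixed element of `W`. -/
lemma NA4_mem {W : Type} [LinearOrder W] [WellFoundedLT W] {U : Set (Name (PP P))}
    {H : Set (PP P)} (hW : Wd W U H)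
    (hm : ∀ (A : W → Set P) (x : ZFSet.{0}),
      x ∈ Name.val U H (nm A) ↔ ∃ a : W, tN (P := PP P) a ∈ U ∧ (∃ q ∈ H, q.down ∈ A a) ∧
        x = Name.val U H (ordN _ (od a))) (A : W → Set P) {a : W}
    (ha : tN (P := PP P) a ∈ U) :
    Name.val U H (ordN _ (od a)) ∈ Name.val U H (nm A) ↔ ∃ q ∈ H, q.down ∈ A a := by
  rw [hm]
  constructor
  · rintro ⟨b, hb, hq, e⟩
    obtain rfl := hW.inj a b ha hb e
    exact hq
  · rintro hq
    exact ⟨a, ha, hq, rfl⟩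

/-- Inclusion is forced. -/
theorem Ev.incl (W : Type) [LinearOrder W] [WellFoundedLT W] :
    Ev (P := PP P) (fun U H => ∀ A A' : RA W P, tN (P := PP P) A ∈ U → tN (P := PP P) A' ∈ U →
      (Name.val U H (nm A.1) ⊆ Name.val U H (nm A'.1) ↔
        ∃ p ∈ H, ∀ a, ∀ q ≤ p.down, q ∈ A.1 a → q ∈ A'.1 a)) := by
  refine ((Ev.base (P := PP P)).and ((Ev.wd W).and ((Ev.mem_nm W).and
    ((Ev.pairT (P := PP P) (RA W P) (RA W P)).and
      (Ev.genT (P := PP P) (T := RA W P × RA W P) (T' := W) 0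
        (fun z _ q a => q.down ∈ z.1.1 a ∧ ∀ r ≤ q.down, r ∉ z.2.1 a)))))).mono ?_
  rintro U H ⟨hB, hW, hm, hpair, hg⟩ A A' hA hA'
  constructor
  · intro hsub
    rcases hg (A, A') (hpair A A' hA hA') Fin.elim0 (fun i => i.elim0) with
      ⟨q, hq, a, ha, h1, h2⟩ | ⟨p, hp, hn⟩
    · exfalso
      obtain ⟨q', hq', h3⟩ := (NA4_mem hW hm A'.1 ha).1
        (hsub ((NA4_mem hW hm A.1 ha).2 ⟨q, hq, h1⟩))
      obtain ⟨r, hr, hrq, hrq'⟩ := hB.filt.dir q hq q' hq'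
      exact h2 r.down hrq ((A'.2 a).1 _ h3 _ hrq')
    · refine ⟨p, hp, fun a q hq hqA => (A'.2 a).2 q fun q' hq' => ?_⟩
      by_contra hcon
      push Not at hcon
      exact hn ⟨q'⟩ (show q' ≤ p.down from hq'.trans hq) a
        ⟨(A.2 a).1 q hqA q' hq', fun r hr => hcon r hr⟩
  · rintro ⟨p, hp, h⟩ x hx
    obtain ⟨a, ha, ⟨q, hq, hqA⟩, rfl⟩ := (hm _ _).1 hx
    obtain ⟨r, hr, hrp, hrq⟩ := hB.filt.dir p hp q hq
    exact (hm _ _).2 ⟨a, ha, ⟨r, hr, h a r.down hrp ((A.2 a).1 _ hqA _ hrq)⟩, rfl⟩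

/-- Complements. -/
theorem Ev.raC_val (W : Type) [LinearOrder W] [WellFoundedLT W] :
    Ev (P := PP P) (fun U H => ∀ A : RA W P, tN (P := PP P) A ∈ U →
      tN (P := PP P) (raC A) ∈ U ∧ Name.val U H (nm (raC A).1) =
        Name.val U H (ordN _ (ty W)) \ Name.val U H (nm A.1)) := by
  refine ((Ev.base (P := PP P)).and ((Ev.wd W).and ((Ev.mem_nm W).and
    ((Ev.pairT (P := PP P) (RA W P) W).and
      ((Ev.genT (P := PP P) (T := RA W P × W) (T' := Unit) 0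
        (fun z _ q _ => q.down ∈ z.1.1 z.2)).and
        (Ev.opT (P := PP P) (fun A : RA W P => raC A))))))).mono ?_
  rintro U H ⟨hB, hW, hm, hpair, hg, hop⟩ A hA
  refine ⟨hop A hA, ?_⟩
  ext x
  rw [ZFSet.mem_sdiff]
  constructor
  · intro hx
    obtain ⟨a, ha, ⟨q, hq, hqA⟩, rfl⟩ := (hm _ _).1 hx
    refine ⟨(hW.mem _).2 ⟨a, ha, rfl⟩, fun h => ?_⟩
    obtain ⟨q', hq', h3⟩ := (NA4_mem hW hm A.1 ha).1 h
    obtain ⟨r, hr, hrq, hrq'⟩ := hB.filt.dir q hq q' hq'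
    exact hqA r.down hrq ((A.2 a).1 _ h3 _ hrq')
  · rintro ⟨hx, hn⟩
    obtain ⟨a, ha, rfl⟩ := (hW.mem _).1 hx
    rcases hg (A, a) (hpair A a hA ha) Fin.elim0 (fun i => i.elim0) with
      ⟨q, hq, _, _, h1⟩ | ⟨p, hp, hn'⟩
    · exact absurd ((NA4_mem hW hm A.1 ha).2 ⟨q, hq, h1⟩) hn
    · exact (NA4_mem hW hm (raC A).1 ha).2 ⟨p, hp, fun r hr hrA =>
        hn' ⟨r⟩ (show r ≤ p.down from hr) () hrA⟩

/-- Implications. -/
theorem Ev.raM_val (W : Type) [LinearOrder W] [WellFoundedLT W] :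
    Ev (P := PP P) (fun U H => ∀ A A' : RA W P, tN (P := PP P) A ∈ U → tN (P := PP P) A' ∈ U →
      tN (P := PP P) (raM A A') ∈ U ∧ Name.val U H (nm (raM A A').1) =
        ZFSet.sep (fun x => x ∈ Name.val U H (nm A.1) → x ∈ Name.val U H (nm A'.1))
          (Name.val U H (ordN _ (ty W)))) := by
  refine ((Ev.base (P := PP P)).and ((Ev.wd W).and ((Ev.mem_nm W).and
    (((Ev.pairT (P := PP P) (RA W P) (RA W P)).and
      (Ev.pairT (P := PP P) (RA W P × RA W P) W)).and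
      ((Ev.genT (P := PP P) (T := (RA W P × RA W P) × W) (T' := Unit) 0
        (fun z _ q _ => q.down ∈ z.1.1.1 z.2 ∧ ∀ r ≤ q.down, r ∉ z.1.2.1 z.2)).and
        (Ev.opT (P := PP P) (fun z : RA W P × RA W P => raM z.1 z.2))))))).mono ?_
  rintro U H ⟨hB, hW, hm, ⟨hpair, hpair2⟩, hg, hop⟩ A A' hA hA'
  refine ⟨hop (A, A') (hpair A A' hA hA'), ?_⟩
  ext x
  rw [ZFSet.mem_sep]
  constructor
  · intro hx
    obtain ⟨a, ha, ⟨q, hq, hqA⟩, rfl⟩ := (hm _ _).1 hx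
    refine ⟨(hW.mem _).2 ⟨a, ha, rfl⟩, fun h => ?_⟩
    obtain ⟨q', hq', h3⟩ := (NA4_mem hW hm A.1 ha).1 h
    obtain ⟨r, hr, hrq, hrq'⟩ := hB.filt.dir q hq q' hq'
    exact (NA4_mem hW hm A'.1 ha).2 ⟨r, hr, hqA r.down hrq ((A.2 a).1 _ h3 _ hrq')⟩
  · rintro ⟨hx, hn⟩
    obtain ⟨a, ha, rfl⟩ := (hW.mem _).1 hx
    rcases hg ((A, A'), a) (hpair2 (A, A') a (hpair A A' hA hA') ha) Fin.elim0
      (fun i => i.elim0) with ⟨q, hq, _, _, h1, h2⟩ | ⟨p, hp, hn'⟩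
    · exfalso
      obtain ⟨q', hq', h3⟩ := (NA4_mem hW hm A'.1 ha).1
        (hn ((NA4_mem hW hm A.1 ha).2 ⟨q, hq, h1⟩))
      obtain ⟨r, hr, hrq, hrq'⟩ := hB.filt.dir q hq q' hq'
      exact h2 r.down hrq ((A'.2 a).1 _ h3 _ hrq')
    · refine (NA4_mem hW hm (raM A A').1 ha).2 ⟨p, hp, fun q hq hqA =>
        (A'.2 a).2 q fun q' hq' => ?_⟩
      by_contra hcon
      push Not at hcon
      exact hn' ⟨q'⟩ (show q' ≤ p.down from hq'.trans hq) ()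
        ⟨(A.2 a).1 q hqA q' hq', fun r hr => hcon r hr⟩

end Pool.CN
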