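import Pool.Agent.Lib.MP_cc7fb1_cn.NA2

/-!
# N-side, row NA3
-/

set_option autoImplicit false
set_option linter.unusedSectionVars false

open Cardinal Set

namespace Pool.CN

open Pool.MP_3ade05_lc Pool.PC Pool.CF Pool.UL Pool.UT Pool.GE

variable {P : Type} [PartialOrder P]

/-- The nice name `rg W τ` of the part in `W` of the set named by `τ`. -/
theorem Ev.rg_spec (W : Type) [LinearOrder W] [WellFoundedLT W] :
    Ev (P := PP P) (fun U H => ∀ τ ∈ U, tN (P := PP P) (rg W τ) ∈ U ∧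
      (∀ a : W, tN (P := PP P) a ∈ U → (Name.val U H (ordN _ (od a)) ∈ Name.val U H τ ↔
        ∃ q ∈ H, q.down ∈ (rg W τ).1 a)) ∧
      (Name.val U H τ ⊆ Name.val U H (ordN _ (ty W)) →
        Name.val U H (nm (rg W τ).1) = Name.val U H τ)) := by
  refine (((Ev.base (P := PP P)).and (Ev.wd W)).and ((Ev.mem_nm W).and
    ((Ev.opG (P := PP P) (T := Unit) 1 (fun _ v => rg W (v 0))).and (Ev.seed ())))).mono ?_
  rintro U H ⟨⟨hB, hW⟩, hnm, hop, hunit⟩ τ hτ
  have h1 : tN (P := PP P) (rg W τ) ∈ U :=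
    hop () hunit ![τ] (by intro i; fin_cases i; exact hτ)
  have h2 : ∀ a : W, tN (P := PP P) a ∈ U → (Name.val U H (ordN _ (od a)) ∈ Name.val U H τ ↔
      ∃ q ∈ H, q.down ∈ (rg W τ).1 a) := by
    intro a ha
    exact Name.val_mem_iff hB.full.at' ((hW.iff a).2 ha) hτ
  refine ⟨h1, h2, fun hsub => ?_⟩
  ext x
  rw [hnm]
  constructor
  · rintro ⟨a, ha, hq, rfl⟩
    exact (h2 a ha).2 hq
  · intro hx
    obtain ⟨a, ha, rfl⟩ := (hW.mem x).1 (hsub hx)
    exact ⟨a, ha, (h2 a ha).1 hx, rfl⟩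

end Pool.CN
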