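import Pool.Agent.Lib.MP_cc7fb1_cn.NA2

/-!
# N-side, row NA6
-/

set_option autoImplicit false
set_option linter.unusedSectionVars false

open Cardinal Set

namespace Pool.CN

open Pool.MP_3ade05_lc Pool.PC Pool.CF Pool.UL Pool.UT Pool.GE

variable {P : Type} [PartialOrder P]

/-- Values of functions. -/
theorem Ev.rs_val (W : Type) [LinearOrder W] [WellFoundedLT W] :
    Ev (P := PP P) (fun U H => ∀ σ ∈ U, ∀ β : Ordinal.{0}, ordN (PP P) β ∈ U →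
      tN (P := PP P) (rs W σ β) ∈ U ∧
      ∀ y, ZFSet.pair (Name.val U H (ordN _ β)) y ∈ Name.val U H σ →
        (∀ y', ZFSet.pair (Name.val U H (ordN _ β)) y' ∈ Name.val U H σ → y' = y) →
        y ⊆ Name.val U H (ordN _ (ty W)) → Name.val U H (nm (rs W σ β).1) = y) := by
  refine ((Ev.base (P := PP P)).and ((Ev.wd W).and ((Ev.mem_nm W).and
    ((Ev.seed (P := PP P) ()).and
      ((Ev.opGO (P := PP P) (T := Unit) 1 (fun _ β v => rs W (v 0) β)).and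
        (Ev.genTN (P := PP P) (T := W) (T' := Unit) 2
          (fun a v q _ ρ => Name.fmem (oN (v 0) ρ) (v 1) q ∧
            Name.fmem (ordN _ (od a)) ρ q))))))).mono ?_
  rintro U H ⟨hB, hW, hm, hu, hop, hg⟩ σ hσ β hβ
  refine ⟨hop () hu β hβ ![σ] (by intro i; fin_cases i; exact hσ), ?_⟩
  intro y hy huniq hsub
  have hyM : y ∈ MM U H := by
    have h1 : ZFSet.pair (Name.val U H (ordN _ β)) y ∈ MM U H := MM_trans (mem_MM hσ) hy
    have h2 : ({Name.val U H (ordN _ β), y} : ZFSet.{0}) ∈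
        ZFSet.pair (Name.val U H (ordN _ β)) y := by
      unfold ZFSet.pair
      exact ZFSet.mem_pair.2 (Or.inr rfl)
    exact MM_trans (MM_trans h1 h2) (ZFSet.mem_pair.2 (Or.inr rfl))
  obtain ⟨ρ₀, _, hρ₀, rfl⟩ := hyM
  rw [← val_oN hB hβ hρ₀] at hy
  obtain ⟨p₀, hp₀, hf₀⟩ := (Name.val_mem_iff hB.full.at' (oN_mem hB hβ hρ₀) hσ).1 hy
  ext x
  rw [hm]
  constructor
  · rintro ⟨a, ha, ⟨q, hq, hqA⟩, rfl⟩
    have hao := (hW.iff a).2 ha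
    rcases hg a ha ![ordN _ β, σ] (by intro i; fin_cases i; exacts [hβ, hσ]) with
      ⟨q₁, hq₁, _, _, ρ, hρ, h1, h2⟩ | ⟨p, hp, hn⟩
    · have h3 : Name.val U H (oN (ordN _ β) ρ) ∈ Name.val U H σ :=
        (Name.val_mem_iff hB.full.at' (oN_mem hB hβ hρ) hσ).2 ⟨q₁, hq₁, h1⟩
      rw [val_oN hB hβ hρ] at h3
      rw [← huniq _ h3]
      exact (Name.val_mem_iff hB.full.at' hao hρ).2 ⟨q₁, hq₁, h2⟩
    · exfalso
      obtain ⟨r, hr, hrp, hrq⟩ := hB.filt.dir p hp q hq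
      obtain ⟨s, hs, ρ, h1, h2⟩ := hqA r.down hrq
      exact hn ⟨s⟩ (le_trans (show (⟨s⟩ : PP P) ≤ r from hs) hrp) () ρ ⟨h1, h2⟩
  · intro hx
    obtain ⟨a, ha, rfl⟩ := (hW.mem _).1 (hsub hx)
    have hao := (hW.iff a).2 ha
    obtain ⟨p₁, hp₁, hf₁⟩ := (Name.val_mem_iff hB.full.at' hao hρ₀).1 hx
    obtain ⟨r, hr, hr0, hr1⟩ := hB.filt.dir p₀ hp₀ p₁ hp₁
    exact ⟨a, ha, ⟨r, hr, fun q hq => ⟨q, le_rfl, ρ₀,
      Name.fmem_mono hf₀ (le_trans (show (⟨q⟩ : PP P) ≤ r from hq) hr0),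
      Name.fmem_mono hf₁ (le_trans (show (⟨q⟩ : PP P) ≤ r from hq) hr1)⟩⟩, rfl⟩

end Pool.CN
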