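import Pool.Agent.Lib.MP_cc7fb1_cn.NA5
import Pool.Agent.Lib.MP_cc7fb1_cn.NA6

/-!
# N-side, row NA7
-/

set_option autoImplicit false
set_option linter.unusedSectionVars false

open Cardinal Set

namespace Pool.CN

open Pool.MP_3ade05_lc Pool.PC Pool.CF Pool.UL Pool.UT Pool.GE

variable {P : Type} [PartialOrder P]

/-- If all values of a function are in the family `F`, this is forced. -/
theorem Ev.rs_force (W : Type) [LinearOrder W] [WellFoundedLT W] :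
    Ev (P := PP P) (fun U H => ∀ F : RA W P → Set P, tN (P := PP P) F ∈ U → Nice F →
      ∀ σ ∈ U, ∀ α : Ordinal.{0}, ordN (PP P) α ∈ U →
        FunOn (Name.val U H σ) (Name.val U H (ordN _ α)) →
        (∀ x y, ZFSet.pair x y ∈ Name.val U H σ → y ∈ Name.val U H (fN F)) →
          ∃ p ∈ H, ∀ β < α, p.down ∈ F (rs W σ β)) := by
  refine ((Ev.base (P := PP P)).and (((Ev.wd (P := P) W).and (Ev.mem_nm (P := P) W)).and
    (((Ev.mem_fN (P := P) W).and (Ev.rs_val (P := P) W)).and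
      (Ev.genTOO (P := PP P) (T := RA W P → Set P) 1
        (fun F α v q β => β < α ∧ ∀ r ≤ q.down, r ∉ F (rs W (v 0) β)))))).mono ?_
  rintro U H ⟨hB, ⟨hW, hnm⟩, ⟨hfN, hrs⟩, hg⟩ F hF hN σ hσ α hα hf hv
  rcases hg F hF α hα ![σ] (by intro i; fin_cases i; exact hσ) with
    ⟨q, hq, β, hβU, hβ, hn⟩ | ⟨p, hp, hn⟩
  · exfalso
    obtain ⟨-, hfN2, hfN3⟩ := hfN F hF hN
    have hx : Name.val U H (ordN (PP P) β) ∈ Name.val U H (ordN _ α) :=
      (mem_val_ordN hB).2 ⟨β, hβ, hβU, rfl⟩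
    obtain ⟨y, hy, hyu⟩ := hf.2 _ hx
    have hyF := hv _ _ hy
    obtain ⟨A, hA, hyA⟩ := hfN2 y hyF
    obtain ⟨h1, h2⟩ := hrs σ hσ β hβU
    have h3 := h2 y hy (fun y' hy' => hyu y' hy') (by
      intro z hz
      rw [hyA, hnm] at hz
      obtain ⟨a, ha, -, rfl⟩ := hz
      exact (hW.mem _).2 ⟨a, ha, rfl⟩)
    rw [← h3] at hyF
    obtain ⟨q', hq', hqF⟩ := (hfN3 _ h1).1 hyF
    obtain ⟨r, hr, hrq, hrq'⟩ := hB.filt.dir q hq q' hq'
    exact hn r.down hrq ((hN.reg _).1 _ hqF r.down hrq')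
  · refine ⟨p, hp, fun β hβ => ?_⟩
    refine (hN.reg _).2 _ fun q hq => ?_
    by_contra hne
    refine hn ⟨q⟩ hq β ⟨hβ, fun r hr hrF => hne ⟨r, hr, hrF⟩⟩

end Pool.CN
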