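import Pool.Agent.Lib.MP_cc7fb1_cn.NA4

/-!
# N-side, row NA5
-/

set_option autoImplicit false
set_option linter.unusedSectionVars false

open Cardinal Set

namespace Pool.CN

open Pool.MP_3ade05_lc Pool.PC Pool.CF Pool.UL Pool.UT Pool.GE

variable {P : Type} [PartialOrder P]

/-- Elements of the value of `fN F`. -/
theorem Ev.mem_fN (W : Type) [LinearOrder W] [WellFoundedLT W] :
    Ev (P := PP P) (fun U H => ∀ F : RA W P → Set P, tN (P := PP P) F ∈ U → Nice F →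
      fN F ∈ U ∧
      (∀ x ∈ Name.val U H (fN F), ∃ A : RA W P, tN (P := PP P) A ∈ U ∧
        x = Name.val U H (nm A.1)) ∧
      ∀ A : RA W P, tN (P := PP P) A ∈ U →
        (Name.val U H (nm A.1) ∈ Name.val U H (fN F) ↔ ∃ q ∈ H, q.down ∈ F A)) := by
  refine ((Ev.base (P := PP P)).and ((Ev.nm_iff W).and ((Ev.incl W).and
    (Ev.opN (P := PP P) (fun F : RA W P → Set P => fN F))))).mono ?_
  rintro U H ⟨hB, hnm, hincl, hop⟩ F hF hN
  refine ⟨hop F hF, fun x hx => ?_, fun A hA => ⟨fun h => ?_, fun h => ?_⟩⟩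
  · obtain ⟨A, hA, _, rfl⟩ := Name.mem_val.1 hx
    exact ⟨A, (hnm A).1 hA, rfl⟩
  · obtain ⟨A', hA', ⟨q, hq, s, hs, hqs⟩, e⟩ := Name.mem_val.1 h
    have e' : Name.val U H (nm A.1) = Name.val U H (nm A'.1) := e
    obtain ⟨p, hp, hpA⟩ := (hincl A' A ((hnm A').1 hA') hA).1 (by
      rw [e'])
    obtain ⟨r, hr, hrp, hrq⟩ := hB.filt.dir p hp q hq
    have h1 : r.down ∈ F A' := (hN.reg A').1 s hs _ (le_trans (show r.down ≤ q.down from hrq) hqs)
    exact ⟨r, hr, hN.up A' A r.down h1 fun a t ht => hpA a t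
      (le_trans ht (show r.down ≤ p.down from hrp))⟩
  · obtain ⟨q, hq, hqF⟩ := h
    exact Name.mem_val.2 ⟨A, (hnm A).2 hA, ⟨q, hq, q.down, hqF, le_rfl⟩, rfl⟩

end Pool.CN
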