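import Pool.Agent.Lib.MP_cc7fb1_cn.NA3
import Pool.Agent.Lib.MP_cc7fb1_cn.NA5

/-!
# N-side, row NA8
-/

set_option autoImplicit false
set_option linter.unusedSectionVars false

open Cardinal Set

namespace Pool.CN

open Pool.MP_3ade05_lc Pool.PC Pool.CF Pool.UL Pool.UT Pool.GE

variable {P : Type} [PartialOrder P]

/-- Basic properties of families. -/
theorem Ev.fN_up (W : Type) [LinearOrder W] [WellFoundedLT W] :
    Ev (P := PP P) (fun U H => ∀ F : RA W P → Set P, tN (P := PP P) F ∈ U → Nice F →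
      Name.val U H (fN F) ∈ MM U H ∧
      (∀ x ∈ Name.val U H (fN F), x ⊆ Name.val U H (ordN _ (ty W))) ∧
      (∀ x ∈ Name.val U H (fN F), ∀ y ∈ MM U H, y ⊆ Name.val U H (ordN _ (ty W)) → x ⊆ y →
        y ∈ Name.val U H (fN F)) ∧
      ((∅ : ZFSet.{0}) ∈ Name.val U H (fN F) ↔ ∃ q ∈ H, q.down ∈ F (ra0 W P))) := by
  refine ((Ev.base (P := PP P)).and (((Ev.wd (P := P) W).and (Ev.mem_nm (P := P) W)).and
    (((Ev.mem_fN (P := P) W).and (Ev.rg_spec (P := P) W)).and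
      ((Ev.incl (P := P) W).and (Ev.seed (P := PP P) (ra0 W P)))))).mono ?_
  rintro U H ⟨hB, ⟨hW, hnm⟩, ⟨hfN, hrg⟩, hincl, h0⟩ F hF hN
  obtain ⟨hfN1, hfN2, hfN3⟩ := hfN F hF hN
  have hsub : ∀ A : RA W P, Name.val U H (nm A.1) ⊆ Name.val U H (ordN _ (ty W)) := by
    intro A z hz
    rw [hnm] at hz
    obtain ⟨a, ha, -, rfl⟩ := hz
    exact (hW.mem _).2 ⟨a, ha, rfl⟩
  refine ⟨mem_MM hfN1, ?_, ?_, ?_⟩
  · intro x hx
    obtain ⟨A, -, rfl⟩ := hfN2 x hx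
    exact hsub A
  · intro x hx y hy hyW hxy
    obtain ⟨A, hA, rfl⟩ := hfN2 x hx
    obtain ⟨τ, -, hτ, rfl⟩ := hy
    obtain ⟨h1, -, h3⟩ := hrg τ hτ
    have h4 := h3 hyW
    rw [← h4] at hxy ⊢
    obtain ⟨q, hq, hqF⟩ := (hfN3 A hA).1 hx
    obtain ⟨p, hp, hpA⟩ := (hincl A _ hA h1).1 hxy
    obtain ⟨r, hr, hrp, hrq⟩ := hB.filt.dir p hp q hq
    refine (hfN3 _ h1).2 ⟨r, hr, hN.up A _ r.down ((hN.reg A).1 _ hqF r.down hrq) ?_⟩
    intro a t ht htA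
    exact hpA a t (le_trans ht (show r.down ≤ p.down from hrp)) htA
  · rw [← hfN3 _ h0]
    have he : Name.val U H (nm (ra0 W P).1) = ∅ := by
      ext z
      rw [hnm]
      constructor
      · rintro ⟨a, ha, ⟨q, hq, hqa⟩, rfl⟩
        exact absurd hqa (notMem_empty _)
      · intro hz
        exact absurd hz (ZFSet.notMem_empty _)
    rw [he]

end Pool.CN
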