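import Pool.Agent.Lib.MP_cc7fb1_cn.NA1
import Pool.Agent.Lib.MP_cc7fb1_cn.NB1

/-!
# N-side, row NB2
-/

set_option autoImplicit false
set_option linter.unusedSectionVars false

open Cardinal Set

namespace Pool.CN

open Pool.MP_3ade05_lc Pool.PC Pool.CF Pool.UL Pool.UT Pool.GE

variable {P : Type} [PartialOrder P]

private lemma NB2_card {κ : Cardinal.{0}} {α : Ordinal.{0}} (h : α < κ.ord) :
    #{j : κ.ord.ToType // od j < α} < κ := by
  have h1 : α < ty κ.ord.ToType := by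
    unfold ty
    rw [Ordinal.type_toType]
    exact h
  obtain ⟨a, ha⟩ := exists_od h1
  have h2 : #{j : κ.ord.ToType // od j < α} = #(Iio a) := by
    refine Cardinal.mk_congr (Equiv.subtypeEquivRight fun j => ?_)
    rw [← ha, od_lt_iff]
    exact Iff.rfl
  rw [h2, ← card_od, ha]
  exact Cardinal.lt_ord.1 h

/-- Short sequences of the model are given by sequences of the ground model. -/
theorem Ev.short (κ : Cardinal.{0}) (hκ : DirClosed κ P) (W : Type) [LinearOrder W]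
    [WellFoundedLT W] [Nonempty W] :
    Ev (P := PP P) (fun U H => ∀ σ ∈ U, ∀ α : Ordinal.{0}, ordN (PP P) α ∈ U → α < κ.ord →
      FunOn (Name.val U H σ) (Name.val U H (ordN _ α)) →
      (∀ x y, ZFSet.pair x y ∈ Name.val U H σ → y ∈ Name.val U H (ordN _ (ty W))) →
      ∃ g : κ.ord.ToType → W, tN (P := PP P) g ∈ U ∧ ∀ j : κ.ord.ToType,
        tN (P := PP P) j ∈ U → od j < α → tN (P := PP P) (g j) ∈ U ∧
          ZFSet.pair (Name.val U H (ordN _ (od j))) (Name.val U H (ordN _ (od (g j)))) ∈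
            Name.val U H σ) := by
  classical
  have hg1 := Ev.genTO (P := PP P) (T := Unit) (T' := κ.ord.ToType) 1
    (fun _ α v q j => od j < α ∧ ∀ r ≤ q, ∀ w : W,
      ¬ Name.fmem (oN (ordN (PP P) (od j)) (ordN (PP P) (od w))) (v 0) r)
  have hg2 := Ev.genTO (P := PP P) (T := Unit) (T' := κ.ord.ToType → W) 1
    (fun _ α v q g => ∀ j, od j < α →
      Name.fmem (oN (ordN (PP P) (od j)) (ordN (PP P) (od (g j)))) (v 0) q)
  have hev := Ev.opT (P := PP P) (T := (κ.ord.ToType → W) × κ.ord.ToType) (T' := W)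
    (fun z => z.1 z.2)
  refine (((Ev.base (P := PP P)).and ((Ev.wd (P := P) W).and (Ev.wd (P := P) κ.ord.ToType))).and
    ((hg1.and hg2).and (hev.and ((Ev.pairT (P := PP P) (κ.ord.ToType → W) κ.ord.ToType).and
      (Ev.seed (P := PP P) (T := Unit) ()))))).mono ?_
  rintro U H ⟨⟨hB, hW, hK⟩, ⟨h1, h2⟩, hev, hpair, hunit⟩
  intro σ hσ α hα hακ hfun hval
  have hσv : ∀ i, (![σ] : Fin 1 → Name (PP P)) i ∈ U := by
    intro i
    fin_cases i
    exact hσ
  rcases h2 () hunit α hα ![σ] hσv with ⟨q, hq, g, hg, hR⟩ | ⟨p', hp', hn'⟩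
  · refine ⟨g, hg, fun j hj hjα => ?_⟩
    have h3 : tN (P := PP P) (g j) ∈ U := hev (g, j) (hpair g j hg hj)
    refine ⟨h3, ?_⟩
    have h4 : ordN (PP P) (od j) ∈ U := (hK.iff j).2 hj
    have h5 : ordN (PP P) (od (g j)) ∈ U := (hW.iff (g j)).2 h3
    rw [← val_oN hB h4 h5]
    exact (Name.val_mem_iff hB.full.at' (oN_mem hB h4 h5) hσ).2 ⟨q, hq, hR j hjα⟩
  · exfalso
    rcases h1 () hunit α hα ![σ] hσv with ⟨q, hq, j, hj, hjα, hR⟩ | ⟨p, hp, hn⟩
    · have h4 : ordN (PP P) (od j) ∈ U := (hK.iff j).2 hj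
      have h5 : Name.val U H (ordN (PP P) (od j)) ∈ Name.val U H (ordN (PP P) α) :=
        (val_ordN_mem_iff hB h4 hα).2 hjα
      obtain ⟨y, hy, _⟩ := hfun.2 _ h5
      obtain ⟨a, ha, rfl⟩ := (hW.mem y).1 (hval _ _ hy)
      have h6 : ordN (PP P) (od a) ∈ U := (hW.iff a).2 ha
      rw [← val_oN hB h4 h6] at hy
      obtain ⟨s, hs, hf⟩ := (Name.val_mem_iff hB.full.at' (oN_mem hB h4 h6) hσ).1 hy
      obtain ⟨r, hr, hr1, hr2⟩ := hB.filt.dir s hs q hq
      exact hR r hr2 a (Name.fmem_mono hf hr1)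
    · obtain ⟨p₀, _, hp1, hp2⟩ := hB.filt.dir p hp p' hp'
      obtain ⟨q, hq, hqA⟩ := hκ.inter (J := {j : κ.ord.ToType // od j < α}) (NB2_card hακ)
        (fun j => {q : P | ∃ w : W,
          Name.fmem (oN (ordN (PP P) (od j.1)) (ordN (PP P) (od w))) σ ⟨q⟩})
        (by
          rintro j s ⟨w, hw⟩ t ht
          exact ⟨w, Name.fmem_mono (p := (⟨s⟩ : PP P)) (q := ⟨t⟩) hw ht⟩) p₀.down
        (by
          intro j s hs
          have h7 := hn ⟨s⟩ (le_trans (show (⟨s⟩ : PP P) ≤ p₀ from hs) hp1) j.1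
          rw [not_and] at h7
          have h8 := h7 j.2
          push Not at h8
          obtain ⟨r, hr, w, hw⟩ := h8
          exact ⟨r.down, hr, w, hw⟩)
      choose w hw using hqA
      refine hn' ⟨q⟩ (le_trans (show (⟨q⟩ : PP P) ≤ p₀ from hq) hp2)
        (fun j => if h : od j < α then w ⟨j, h⟩ else Classical.arbitrary W) ?_
      intro j hj
      show Name.fmem (oN (ordN (PP P) (od j)) (ordN (PP P) (od
        (if h : od j < α then w ⟨j, h⟩ else Classical.arbitrary W)))) σ ⟨q⟩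
      rw [dif_pos hj]
      exact hw ⟨j, hj⟩

end Pool.CN
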