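import Pool.Agent.Lib.MP_cc7fb1_cn.NA2
import Pool.Agent.Lib.MP_cc7fb1_cn.NB1

/-!
# N-side, row NB3
-/

set_option autoImplicit false
set_option linter.unusedSectionVars false

open Cardinal Set

namespace Pool.CN

open Pool.MP_3ade05_lc Pool.PC Pool.CF Pool.UL Pool.UT Pool.GE

variable {P : Type} [PartialOrder P]

private lemma NB3_card (κ : Cardinal.{0}) {α : Ordinal.{0}} (hα : α < κ.ord) :
    #{j : κ.ord.ToType // od j < α} < κ := by
  have h1 : ty κ.ord.ToType = κ.ord := by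
    unfold ty
    exact Ordinal.type_toType _
  obtain ⟨j₀, rfl⟩ := exists_od (W := κ.ord.ToType) (h1.symm ▸ hα)
  have h2 : #{j : κ.ord.ToType // od j < od j₀} = #(Iio j₀) :=
    Cardinal.mk_congr (Equiv.subtypeEquivRight fun j => od_lt_iff)
  rw [h2, ← card_od]
  exact Cardinal.lt_ord.1 hα

/-- Small intersections. -/
theorem Ev.inter_nm (κ : Cardinal.{0}) (hκ : DirClosed κ P) (W : Type) [LinearOrder W]
    [WellFoundedLT W] :
    Ev (P := PP P) (fun U H => ∀ A : κ.ord.ToType → RA W P, tN (P := PP P) A ∈ U →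
      ∀ α : Ordinal.{0}, ordN (PP P) α ∈ U → α < κ.ord →
        tN (P := PP P) (raI A {j | od j < α}) ∈ U ∧ ∀ a : W, tN (P := PP P) a ∈ U →
          ((∃ q ∈ H, q.down ∈ (raI A {j | od j < α}).1 a) ↔
            ∀ j : κ.ord.ToType, tN (P := PP P) j ∈ U → od j < α → ∃ q ∈ H, q.down ∈ (A j).1 a)) := by
  have e1 := Ev.opGO (P := PP P) (T := κ.ord.ToType → RA W P) (T' := RA W P) 0
    (fun A α _ => raI A {j | od j < α})
  have e2 := Ev.genTO (P := PP P) (T := (κ.ord.ToType → RA W P) × W) (T' := Unit) 0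
    (fun t α _ q _ => q.down ∈ (raI t.1 {j | od j < α}).1 t.2)
  have e3 := Ev.genTO (P := PP P) (T := (κ.ord.ToType → RA W P) × W) (T' := κ.ord.ToType) 0
    (fun t α _ q j => od j < α ∧ q.down ∈ perp ((t.1 j).1 t.2))
  refine ((e1.and (e2.and e3)).and ((Ev.pairT (P := PP P) (κ.ord.ToType → RA W P) W).and
    Ev.base)).mono ?_
  rintro U H ⟨⟨h1, h2, h3⟩, hpair, hB⟩ A hA α hα hακ
  refine ⟨h1 A hA α hα Fin.elim0 (fun i => i.elim0), fun a ha => ⟨?_, fun hall => ?_⟩⟩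
  · rintro ⟨q, hq, hqA⟩ j _ hj
    exact ⟨q, hq, hqA j hj⟩
  · have hAa := hpair A a hA ha
    rcases h2 (A, a) hAa α hα Fin.elim0 (fun i => i.elim0) with ⟨q, hq, _, _, hR⟩ | ⟨p, hp, hn⟩
    · exact ⟨q, hq, hR⟩
    rcases h3 (A, a) hAa α hα Fin.elim0 (fun i => i.elim0) with
      ⟨q, hq, j, hj, hjα, hR⟩ | ⟨p', hp', hn'⟩
    · obtain ⟨q', hq', hq'A⟩ := hall j hj hjα
      obtain ⟨r, _, hr1, hr2⟩ := hB.filt.dir q hq q' hq'
      exact absurd (((A j).2 a).1 q'.down hq'A r.down hr2) (hR r.down hr1)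
    · obtain ⟨r₀, _, hr1, hr2⟩ := hB.filt.dir p hp p' hp'
      obtain ⟨q, hq, hqA⟩ := hκ.inter (NB3_card κ hακ)
        (fun j : {j : κ.ord.ToType // od j < α} => (A j.1).1 a)
        (fun j p hp q hq => ((A j.1).2 a).1 p hp q hq) r₀.down (fun j q hq => by
          by_contra hcon
          refine hn' ⟨q⟩ (le_trans (show (⟨q⟩ : PP P) ≤ r₀ from hq) hr2) j.1 ⟨j.2, ?_⟩
          intro r hr hrA
          exact hcon ⟨r, hr, hrA⟩)
      exact absurd (fun j hj => hqA ⟨j, hj⟩)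
        (hn ⟨q⟩ (le_trans (show (⟨q⟩ : PP P) ≤ r₀ from hq) hr1) ())

end Pool.CN
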