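import Pool.Agent.Lib.MP_ad72f3_pc.ZFg
import Pool.Agent.Lib.MP_ad72f3_pc.Nm

/-!
# N-side, general tools: names coding elements of small types, genericity
-/

set_option autoImplicit false
set_option linter.unusedSectionVars false

open Set

namespace Pool.CN

open Pool.MP_3ade05_lc Pool.PC

variable {P : Type 1} [Preorder P]

/-- The name coding an element of a small type. -/
noncomputable def tN {T : Type} (t : T) : Name P :=
  ordN P (Ordinal.typein (α := T) WellOrderingRel t)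

lemma tN_injective {T : Type} : Function.Injective (tN (P := P) (T := T)) := by
  intro a b h
  exact (Ordinal.typein (α := T) WellOrderingRel).injective (ordN_injective h)

/-- Genericity with a small parameter, `n` names as parameters and a small answer. -/
lemma Ev.genT {T T' : Type} (n : ℕ) (R : T → (Fin n → Name P) → P → T' → Prop) :
    Ev (P := P) (fun U H => ∀ t, tN t ∈ U → ∀ v : Fin n → Name P, (∀ i, v i ∈ U) →
      (∃ q ∈ H, ∃ t' : T', tN t' ∈ U ∧ R t v q t') ∨
        (∃ p ∈ H, ∀ q ≤ p, ∀ t', ¬ R t v q t')) := by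
  refine (Ev.gen (n := n + 1) (fun v q ρ => ∃ (t : T) (t' : T'), v 0 = tN t ∧ ρ = tN t' ∧
    R t (fun i => v i.succ) q t')).mono fun U H h t ht v hv => ?_
  have hw : ∀ i, (Fin.cons (tN t) v : Fin (n + 1) → Name P) i ∈ U := by
    intro i
    refine Fin.cases ?_ (fun j => ?_) i
    · rw [Fin.cons_zero]
      exact ht
    · rw [Fin.cons_succ]
      exact hv j
  rcases h (Fin.cons (tN t) v : Fin (n + 1) → Name P) hw with
    ⟨q, hq, ρ, hρ, t₀, t', e1, rfl, hR⟩ | ⟨p, hp, hn⟩
  · rw [Fin.cons_zero] at e1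
    obtain rfl := tN_injective e1
    simp only [Fin.cons_succ] at hR
    exact Or.inl ⟨q, hq, t', hρ, hR⟩
  · refine Or.inr ⟨p, hp, fun q hq t' hR => hn q hq (tN t') ⟨t, t', ?_, rfl, ?_⟩⟩
    · rw [Fin.cons_zero]
    · simp only [Fin.cons_succ]
      exact hR

/-- Genericity with a small parameter, `n` names as parameters, a small answer and a name. -/
lemma Ev.genTN {T T' : Type} (n : ℕ) (R : T → (Fin n → Name P) → P → T' → Name P → Prop) :
    Ev (P := P) (fun U H => ∀ t, tN t ∈ U → ∀ v : Fin n → Name P, (∀ i, v i ∈ U) →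
      (∃ q ∈ H, ∃ t' : T', tN t' ∈ U ∧ ∃ ρ ∈ U, R t v q t' ρ) ∨
        (∃ p ∈ H, ∀ q ≤ p, ∀ t' ρ, ¬ R t v q t' ρ)) := by
  refine ((Ev.gen (n := n + 1) (fun v q σ => ∃ (t : T) (t' : T') (ρ : Name P), v 0 = tN t ∧
    σ = oN (tN t') ρ ∧ R t (fun i => v i.succ) q t' ρ)).and Ev.parts).mono
      fun U H hh t ht v hv => ?_
  obtain ⟨h, hparts⟩ := hh
  have hw : ∀ i, (Fin.cons (tN t) v : Fin (n + 1) → Name P) i ∈ U := by
    intro i
    refine Fin.cases ?_ (fun j => ?_) i
    · rw [Fin.cons_zero]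
      exact ht
    · rw [Fin.cons_succ]
      exact hv j
  rcases h (Fin.cons (tN t) v : Fin (n + 1) → Name P) hw with
    ⟨q, hq, σ, hσ, t₀, t', ρ, e1, rfl, hR⟩ | ⟨p, hp, hn⟩
  · rw [Fin.cons_zero] at e1
    obtain rfl := tN_injective e1
    simp only [Fin.cons_succ] at hR
    obtain ⟨h1, h2⟩ := hparts _ _ hσ
    exact Or.inl ⟨q, hq, t', h1, ρ, h2, hR⟩
  · refine Or.inr ⟨p, hp, fun q hq t' ρ hR => hn q hq (oN (tN t') ρ) ⟨t, t', ρ, ?_, rfl, ?_⟩⟩
    · rw [Fin.cons_zero]
    · simp only [Fin.cons_succ]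
      exact hR

/-- Genericity with a small parameter, an ordinal and `n` names as parameters, and a small
answer. -/
lemma Ev.genTO {T T' : Type} (n : ℕ)
    (R : T → Ordinal.{0} → (Fin n → Name P) → P → T' → Prop) :
    Ev (P := P) (fun U H => ∀ t, tN t ∈ U → ∀ α, ordN P α ∈ U → ∀ v : Fin n → Name P,
      (∀ i, v i ∈ U) → (∃ q ∈ H, ∃ t' : T', tN t' ∈ U ∧ R t α v q t') ∨
        (∃ p ∈ H, ∀ q ≤ p, ∀ t', ¬ R t α v q t')) := by
  refine (Ev.genT (T := T) (T' := T') (n + 1) (fun t v q t' => ∃ α, v 0 = ordN P α ∧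
    R t α (fun i => v i.succ) q t')).mono fun U H h t ht α hα v hv => ?_
  have hw : ∀ i, (Fin.cons (ordN P α) v : Fin (n + 1) → Name P) i ∈ U := by
    intro i
    refine Fin.cases ?_ (fun j => ?_) i
    · rw [Fin.cons_zero]
      exact hα
    · rw [Fin.cons_succ]
      exact hv j
  rcases h t ht (Fin.cons (ordN P α) v : Fin (n + 1) → Name P) hw with
    ⟨q, hq, t', ht', α', e, hR⟩ | ⟨p, hp, hn⟩
  · rw [Fin.cons_zero] at e
    obtain rfl := ordN_injective e
    simp only [Fin.cons_succ] at hR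
    exact Or.inl ⟨q, hq, t', ht', hR⟩
  · refine Or.inr ⟨p, hp, fun q hq t' hR => hn q hq t' ⟨α, ?_, ?_⟩⟩
    · rw [Fin.cons_zero]
    · simp only [Fin.cons_succ]
      exact hR

/-- Genericity with a small parameter, an ordinal and `n` names as parameters, and an ordinal as
the answer. -/
lemma Ev.genTOO {T : Type} (n : ℕ)
    (R : T → Ordinal.{0} → (Fin n → Name P) → P → Ordinal.{0} → Prop) :
    Ev (P := P) (fun U H => ∀ t, tN t ∈ U → ∀ α, ordN P α ∈ U → ∀ v : Fin n → Name P,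
      (∀ i, v i ∈ U) → (∃ q ∈ H, ∃ β, ordN P β ∈ U ∧ R t α v q β) ∨
        (∃ p ∈ H, ∀ q ≤ p, ∀ β, ¬ R t α v q β)) := by
  refine (Ev.gen (n := n + 2) (fun v q ρ => ∃ (t : T) (α β : Ordinal.{0}), v 0 = tN t ∧
    v 1 = ordN P α ∧ ρ = ordN P β ∧ R t α (fun i => v i.succ.succ) q β)).mono
      fun U H h t ht α hα v hv => ?_
  have hw : ∀ i, (Fin.cons (tN t) (Fin.cons (ordN P α) v : Fin (n + 1) → Name P) :
      Fin (n + 2) → Name P) i ∈ U := by
    intro i
    refine Fin.cases ?_ (fun j => ?_) i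
    · rw [Fin.cons_zero]
      exact ht
    · rw [Fin.cons_succ]
      refine Fin.cases ?_ (fun k => ?_) j
      · rw [Fin.cons_zero]
        exact hα
      · rw [Fin.cons_succ]
        exact hv k
  have e0 : (Fin.cons (tN t) (Fin.cons (ordN P α) v : Fin (n + 1) → Name P) :
      Fin (n + 2) → Name P) 1 = ordN P α := by
    rw [← Fin.succ_zero_eq_one, Fin.cons_succ, Fin.cons_zero]
  rcases h _ hw with ⟨q, hq, ρ, hρ, t₀, α', β, e1, e2, rfl, hR⟩ | ⟨p, hp, hn⟩
  · rw [Fin.cons_zero] at e1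
    rw [e0] at e2
    obtain rfl := tN_injective e1
    obtain rfl := ordN_injective e2
    simp only [Fin.cons_succ] at hR
    exact Or.inl ⟨q, hq, β, hρ, hR⟩
  · refine Or.inr ⟨p, hp, fun q hq β hR => hn q hq (ordN P β) ⟨t, α, β, ?_, e0, rfl, ?_⟩⟩
    · rw [Fin.cons_zero]
    · simp only [Fin.cons_succ]
      exact hR

/-- Closure under operations: small parameter, names, small value. -/
lemma Ev.opG {T T' : Type} (n : ℕ) (F : T → (Fin n → Name P) → T') :
    Ev (P := P) (fun U _ => ∀ t, tN t ∈ U → ∀ v : Fin n → Name P, (∀ i, v i ∈ U) →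
      tN (F t v) ∈ U) := by
  refine ((Ev.genT n (fun t v _ t' => t' = F t v)).and Ev.filt).mono
    fun U H hh t ht v hv => ?_
  rcases hh.1 t ht v hv with ⟨q, hq, t', ht', rfl⟩ | ⟨p, hp, hn⟩
  · exact ht'
  · exact absurd rfl (hn p le_rfl (F t v))

/-- Closure under operations: small parameter, ordinal, names, small value. -/
lemma Ev.opGO {T T' : Type} (n : ℕ) (F : T → Ordinal.{0} → (Fin n → Name P) → T') :
    Ev (P := P) (fun U _ => ∀ t, tN t ∈ U → ∀ α, ordN P α ∈ U → ∀ v : Fin n → Name P,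
      (∀ i, v i ∈ U) → tN (F t α v) ∈ U) := by
  refine ((Ev.genTO n (fun t α v _ t' => t' = F t α v)).and Ev.filt).mono
    fun U H hh t ht α hα v hv => ?_
  rcases hh.1 t ht α hα v hv with ⟨q, hq, t', ht', rfl⟩ | ⟨p, hp, hn⟩
  · exact ht'
  · exact absurd rfl (hn p le_rfl (F t α v))

/-- Closure under operations between small types. -/
lemma Ev.opT {T T' : Type} (F : T → T') :
    Ev (P := P) (fun U _ => ∀ t, tN t ∈ U → tN (F t) ∈ U) :=
  (Ev.opG (n := 0) (fun t _ => F t)).mono fun _ _ h t ht => h t ht Fin.elim0 (fun i => i.elim0)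

/-- Pairs of small objects. -/
lemma Ev.pairT (T T' : Type) :
    Ev (P := P) (fun U _ => ∀ (t : T) (t' : T'), tN t ∈ U → tN t' ∈ U → tN (t, t') ∈ U) := by
  classical
  refine (Ev.op (n := 2) (fun v => if h : ∃ z : T × T', v 0 = tN z.1 ∧ v 1 = tN z.2 then
    tN h.choose else v 0)).mono fun U H hU t t' ht ht' => ?_
  have h1 := hU ![tN t, tN t'] (by intro i; fin_cases i; exacts [ht, ht'])
  have h2 : ∃ z : T × T', (![tN t, tN t'] : Fin 2 → Name P) 0 = tN z.1 ∧
      (![tN t, tN t'] : Fin 2 → Name P) 1 = tN z.2 := ⟨(t, t'), rfl, rfl⟩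
  simp only [dif_pos h2] at h1
  have h3 : (t, t') = h2.choose :=
    Prod.ext (tN_injective h2.choose_spec.1) (tN_injective h2.choose_spec.2)
  rwa [← h3] at h1

/-- Closure under name valued operations. -/
lemma Ev.opN {T : Type} (F : T → Name P) :
    Ev (P := P) (fun U _ => ∀ t, tN t ∈ U → F t ∈ U) := by
  classical
  refine (Ev.op (n := 1) (fun v => if h : ∃ t : T, v 0 = tN t then F h.choose
    else v 0)).mono fun U H hU t ht => ?_
  have h1 := hU ![tN t] (by intro i; fin_cases i; exact ht)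
  have h2 : ∃ t' : T, (![tN t] : Fin 1 → Name P) 0 = tN t' := ⟨t, rfl⟩
  simp only [dif_pos h2] at h1
  have h3 : t = h2.choose := tN_injective h2.choose_spec
  rwa [← h3] at h1

/-- Closure under the inverse of an injective name valued operation. -/
lemma Ev.invN {T : Type} (F : T → Name P) (hF : Function.Injective F) :
    Ev (P := P) (fun U _ => ∀ t, F t ∈ U → tN t ∈ U) := by
  classical
  refine (Ev.op (n := 1) (fun v => if h : ∃ t : T, v 0 = F t then tN h.choose
    else v 0)).mono fun U H hU t ht => ?_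
  have h1 := hU ![F t] (by intro i; fin_cases i; exact ht)
  have h2 : ∃ t' : T, (![F t] : Fin 1 → Name P) 0 = F t' := ⟨t, rfl⟩
  simp only [dif_pos h2] at h1
  have h3 : t = h2.choose := hF h2.choose_spec
  rwa [← h3] at h1

/-- A fixed small object. -/
lemma Ev.seed {T : Type} (t : T) : Ev (P := P) (fun U _ => tN t ∈ U) :=
  (Ev.op (n := 0) (fun _ => tN t)).mono fun _ _ h => h Fin.elim0 (fun i => i.elim0)

/-- A fixed name. -/
lemma Ev.seedN (σ : Name P) : Ev (P := P) (fun U _ => σ ∈ U) :=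
  (Ev.op (n := 0) (fun _ => σ)).mono fun _ _ h => h Fin.elim0 (fun i => i.elim0)

lemma mem_MM {U : Set (Name P)} {H : Set P} {σ : Name P} (h : σ ∈ U) :
    Name.val U H σ ∈ MM U H := ⟨σ, mem_univ _, h, rfl⟩

end Pool.CN
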