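import Pool.Agent.Lib.MP_cc7fb1_cn.VS
import Pool.Agent.Lib.MP_cc7fb1_cn.Tl
import Pool.Agent.Lib.MP_cc7fb1_ge.GDef

/-!
# N-side: definitions of the names

`W` is a well-ordered type, `od a` the ordinal of the element `a` of `W`, `ty W` the order type.
A nice name of a subset of `W` is given by regular open sets `A a`, `a : W`.
-/

set_option autoImplicit false
set_option linter.unusedSectionVars false

open Cardinal Set

namespace Pool.CN

open Pool.MP_3ade05_lc Pool.PC Pool.CF

section ord

variable {W : Type} [LinearOrder W] [WellFoundedLT W]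

/-- The ordinal of an element of `W`. -/
noncomputable def od (a : W) : Ordinal.{0} := Ordinal.typein (α := W) (· < ·) a

variable (W) in
/-- The order type of `W`. -/
noncomputable def ty : Ordinal.{0} := Ordinal.type ((· < ·) : W → W → Prop)

lemma od_lt_iff {a b : W} : od a < od b ↔ a < b := by
  unfold od
  exact Ordinal.typein_lt_typein (r := ((· < ·) : W → W → Prop))

lemma od_injective : Function.Injective (od : W → Ordinal.{0}) := by
  intro a b h
  exact Ordinal.typein_injective ((· < ·) : W → W → Prop) h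

lemma od_le_iff {a b : W} : od a ≤ od b ↔ a ≤ b := by
  rw [← not_lt, od_lt_iff, not_lt]

lemma od_lt_ty (a : W) : od a < ty W := Ordinal.typein_lt_type _ a

lemma exists_od {α : Ordinal.{0}} (h : α < ty W) : ∃ a : W, od a = α :=
  Ordinal.typein_surj ((· < ·) : W → W → Prop) h

lemma card_od (a : W) : (od a).card = #(Iio a) :=
  (Ordinal.card_typein (r := ((· < ·) : W → W → Prop)) a).symm

lemma card_ty : (ty W).card = #W := by
  unfold ty
  rw [Ordinal.card_type]

lemma ty_eq (h : ∀ a : W, #(Iio a) < #W) : ty W = (#W).ord := by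
  apply le_antisymm
  · by_contra hlt
    rw [not_le] at hlt
    obtain ⟨a, ha⟩ := exists_od (W := W) hlt
    have h1 := card_od a
    rw [ha, card_ord] at h1
    exact (h a).ne h1.symm
  · rw [ord_le, card_ty]

end ord

/-- The forcing notion, lifted. -/
abbrev PP (P : Type) [PartialOrder P] : Type 1 := ULift.{1} P

instance (P : Type) [PartialOrder P] : Small.{0} (PP P) := inferInstanceAs (Small.{0} (ULift.{1} P))

section names

variable {P : Type} [PartialOrder P]

/-- The lower set generated by a set of conditions. -/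
def lw (A : Set P) : LowerSet (PP P) :=
  ⟨{q | ∃ r ∈ A, q.down ≤ r}, by
    rintro a b hab ⟨r, hr, h⟩
    exact ⟨r, hr, le_trans (show b.down ≤ a.down from hab) h⟩⟩

lemma mem_lw {A : Set P} {q : PP P} : q ∈ lw A ↔ ∃ r ∈ A, q.down ≤ r := Iff.rfl

/-- Nice names of subsets of `W`. -/
abbrev RA (W P : Type) [PartialOrder P] := {A : W → Set P // ∀ a, RegOpen (A a)}

/-- The empty set. -/
def ra0 (W P : Type) [PartialOrder P] : RA W P :=
  ⟨fun _ => ∅, fun _ => ⟨fun _ h => absurd h (notMem_empty _), fun p h => by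
    obtain ⟨r, _, hr⟩ := h p le_rfl
    exact absurd hr (notMem_empty _)⟩⟩

/-- Intersections. -/
def raI {W P J : Type} [PartialOrder P] (A : J → RA W P) (S : Set J) : RA W P :=
  ⟨fun a => {p | ∀ j ∈ S, p ∈ (A j).1 a}, fun a => ⟨fun _ h q hq j hj => ((A j).2 a).1 _ (h j hj) q hq,
    fun p h j hj => ((A j).2 a).2 p fun q hq => by
      obtain ⟨r, hr, h1⟩ := h q hq
      exact ⟨r, hr, h1 j hj⟩⟩⟩

/-- Complements. -/
def raC {W P : Type} [PartialOrder P] (A : RA W P) : RA W P :=
  ⟨fun a => perp (A.1 a), fun a => ⟨fun _ h q hq r hr => h r (hr.trans hq), fun p h r hr hA => by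
    obtain ⟨s, hs, h1⟩ := h r hr
    exact h1 s le_rfl (((A.2 a).1) r hA s hs)⟩⟩

/-- The regular open set of the conditions which force that `A` implies `A'`. -/
def imp {P : Type} [PartialOrder P] (A A' : Set P) : Set P := {q | ∀ r ≤ q, r ∈ A → r ∈ A'}

/-- Implication. -/
def raM {W P : Type} [PartialOrder P] (A A' : RA W P) : RA W P :=
  ⟨fun a => imp (A.1 a) (A'.1 a), fun a => ⟨fun _ h q hq r hr => h r (hr.trans hq),
    fun p h r hr hA => (A'.2 a).2 r fun s hs => by
      obtain ⟨t, ht, h1⟩ := h s (hs.trans hr)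
      exact ⟨t, ht, h1 t le_rfl ((A.2 a).1 r hA t (ht.trans hs))⟩⟩⟩

variable {W : Type} [LinearOrder W] [WellFoundedLT W]

/-- The name of the subset of `W` given by `A`. -/
noncomputable def nm (A : W → Set P) : Name (PP P) :=
  Name.mk W (fun a => ordN _ (od a)) (fun a => lw (A a))

/-- The nice name of the part of `τ` in `W`. -/
noncomputable def rg (W : Type) [LinearOrder W] [WellFoundedLT W] (τ : Name (PP P)) : RA W P :=
  ⟨fun a => {p | Name.fmem (ordN _ (od a)) τ ⟨p⟩}, fun a =>
    ⟨fun p h q hq => Name.fmem_mono (p := (⟨p⟩ : PP P)) (q := ⟨q⟩) h hq,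
      fun p h => Name.fmem_reg (fun q hq => by
        obtain ⟨r, hr, h1⟩ := h q.down hq
        exact ⟨⟨r⟩, hr, h1⟩)⟩⟩

/-- The nice name of the part in `W` of the value at `β` of the function named by `σ`. -/
noncomputable def rs (W : Type) [LinearOrder W] [WellFoundedLT W] (σ : Name (PP P))
    (β : Ordinal.{0}) : RA W P :=
  ⟨fun a => {p | ∀ q ≤ p, ∃ r ≤ q, ∃ ρ, Name.fmem (oN (ordN _ β) ρ) σ ⟨r⟩ ∧
      Name.fmem (ordN _ (od a)) ρ ⟨r⟩}, fun a =>
    ⟨fun _ h q hq r hr => h r (hr.trans hq), fun p h q hq => by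
      obtain ⟨r, hr, h1⟩ := h q hq
      obtain ⟨s, hs, h2⟩ := h1 r le_rfl
      exact ⟨s, hs.trans hr, h2⟩⟩⟩

/-- The name of the family of subsets of `W` given by `F`. -/
noncomputable def fN (F : RA W P → Set P) : Name (PP P) :=
  Name.mk (RA W P) (fun A => nm A.1) (fun A => lw (F A))

/-- `F` respects inclusion and has regular open values. -/
structure Nice (F : RA W P → Set P) : Prop where
  reg : ∀ A, RegOpen (F A)
  up : ∀ (A A' : RA W P) (p : P), p ∈ F A → (∀ a, ∀ q ≤ p, q ∈ A.1 a → q ∈ A'.1 a) → p ∈ F A'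

/-- Basic facts about the elements of `W` in the model. -/
structure Wd (W : Type) [LinearOrder W] [WellFoundedLT W] (U : Set (Name (PP P)))
    (H : Set (PP P)) : Prop where
  iff : ∀ a : W, ordN (PP P) (od a) ∈ U ↔ tN (P := PP P) a ∈ U
  ty_mem : ordN (PP P) (ty W) ∈ U
  mem : ∀ x, x ∈ Name.val U H (ordN _ (ty W)) ↔
    ∃ a : W, tN (P := PP P) a ∈ U ∧ x = Name.val U H (ordN _ (od a))
  inj : ∀ a b : W, tN (P := PP P) a ∈ U → tN (P := PP P) b ∈ U →
    Name.val U H (ordN _ (od a)) = Name.val U H (ordN _ (od b)) → a = b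
  lt : ∀ a b : W, tN (P := PP P) a ∈ U → tN (P := PP P) b ∈ U →
    (Name.val U H (ordN _ (od a)) ∈ Name.val U H (ordN _ (od b)) ↔ a < b)

end names

section setting

variable (P Λ Θ R : Type) [PartialOrder P] [LinearOrder Λ] [WellFoundedLT Λ] [LinearOrder Θ]
    [WellFoundedLT Θ] [PartialOrder R] [OrderTop R] [D : VS P Λ Θ R]

/-- The type of the ordinals below `κ`. -/
abbrev KK : Type := D.κ.ord.ToType

include D in
lemma ty_Λ : ty Λ = (#Λ).ord := ty_eq D.Λ_init

include D in
lemma ty_Θ : ty Θ = (#Θ).ord := ty_eq D.Θ_init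

lemma ty_KK : ty (KK P Λ Θ R) = D.κ.ord := by
  unfold ty
  exact Ordinal.type_toType _

/-- The filter `F` of the model, as a function. -/
def FF : RA Λ P → Set P := fun A => {b | D.E b ⊤ A.1}

/-- The nice name of `A_c`. -/
def acR (c : R) : RA Λ P := ⟨D.AC c, D.AC_reg c⟩

/-- The name of the dense family. -/
noncomputable def DN : Name (PP P) :=
  Name.mk Λ (fun a => oN (ordN _ (od a)) (nm (acR P Λ Θ R (D.enum a)).1)) (fun _ => ⊤)

section
variable (U : Set (Name (PP P))) (H : Set (PP P))

/-- The set `κ` of the model. -/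
noncomputable abbrev kap : ZFSet.{0} := Name.val U H (ordN _ (ty (KK P Λ Θ R)))

/-- The set `λ` of the model. -/
noncomputable abbrev lam : ZFSet.{0} := Name.val U H (ordN _ (ty Λ))

/-- The set `δ` of the model. -/
noncomputable abbrev del : ZFSet.{0} := Name.val U H (ordN _ (ty Θ))

/-- The filter `F` of the model. -/
noncomputable abbrev FZ : ZFSet.{0} := Name.val U H (fN (FF P Λ Θ R))

/-- The dense family of the model. -/
noncomputable abbrev DZ : ZFSet.{0} := Name.val U H (DN P Λ Θ R)

end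

end setting

end Pool.CN
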