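import Pool.Agent.Lib.MP_9fc97b_ut.Pat

/-!
# MP_cc7fb1: definitions used in the final statement

Everything is about a transitive model `V` of `ZFC`; `FunOn`, `InfCard`, `NextCard` are those of
`Pool/Agent/Lib/MP_ad72f3_pc/Pat.lean`, `UnifUF` that of `Pool/Agent/Lib/MP_9fc97b_ut/Pat.lean`.
-/

set_option autoImplicit false

open Set

namespace Pool.CF

open Pool.MP_3ade05_lc Pool.PC

/-- In `V`, the family `u` of subsets of `lam` is `k`-complete: for every sequence in `V` of
members of `u`, indexed by an element of `k`, the intersection belongs to `u`. -/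
def CompleteV (V : Set ZFSet.{0}) (k lam u : ZFSet.{0}) : Prop :=
  ∀ a ∈ k, ∀ C ∈ V, FunOn C a → (∀ x B, ZFSet.pair x B ∈ C → B ∈ u) →
    ZFSet.sep (fun z => ∀ x B, ZFSet.pair x B ∈ C → z ∈ B) lam ∈ u

/-- `V` satisfies `Gal(u, a, b)`, where `u` is an ultrafilter on `lam`: for every sequence in `V` of
members of `u` indexed by `b` there is an injective function `j` from `a` to `b` in `V` such that
the intersection of the members with index `j x`, `x ∈ a`, belongs to `u`. -/
def GalV (V : Set ZFSet.{0}) (lam u a b : ZFSet.{0}) : Prop :=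
  ∀ A ∈ V, FunOn A b → (∀ i B, ZFSet.pair i B ∈ A → B ∈ u) →
    ∃ j ∈ V, FunOn j a ∧ (∀ x i, ZFSet.pair x i ∈ j → i ∈ b) ∧
      (∀ x x' i, ZFSet.pair x i ∈ j → ZFSet.pair x' i ∈ j → x = x') ∧
      ZFSet.sep (fun z => ∀ x i B, ZFSet.pair x i ∈ j → ZFSet.pair i B ∈ A → z ∈ B) lam ∈ u

end Pool.CF
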