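import Pool.Agent.Lib.MP_cc7fb1_cn.FDef
import Pool.Agent.Lib.MP_cc7fb1_ge.GDef

/-!
# MP_cc7fb1: translation of the conclusion
-/

set_option autoImplicit false
set_option linter.unusedSectionVars false

open Set

namespace Pool.CN

open Pool.MP_3ade05_lc Pool.PC Pool.CF Pool.UL Pool.UT Pool.GE

/-- `l` is the next cardinal. -/
lemma nextCard_of {V : Set ZFSet.{0}} {k l : ZFSet.{0}} (hk : InfCard V k) (hl : InfCard V l)
    (hkl : k ∈ l) (hc : ∀ b ∈ l, Cov V k b) : NextCard V k l := by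
  refine ⟨hl, hkl, fun d hd hdc => ?_⟩
  rcases ZFSet.IsOrdinal.mem_trichotomous hk.ord hdc.ord with h | h | h
  · exfalso
    obtain ⟨f, hf, hfk, hr⟩ := hc d hd
    obtain ⟨y, hy, hn⟩ := hdc.card k h f hf hfk
    obtain ⟨x, hx, hxy⟩ := hr y hy
    exact hn x hx hxy
  · exact Or.inr h.symm
  · exact Or.inl h

/-- Completeness. -/
lemma completeV_of {V : Set ZFSet.{0}} {k l u : ZFSet.{0}} (hu : UFk V k l u) :
    CompleteV V k l u := by
  intro a ha C hC hf h
  have h1 := hu.comp a ha C hC hf (fun x hx => h x _ (FunOn.ap_mem hf hx))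
  have h2 : ZFSet.sep (fun z => ∀ x B, ZFSet.pair x B ∈ C → z ∈ B) l =
      ZFSet.sep (fun y => ∀ x ∈ a, y ∈ ap C x) l := by
    ext z
    rw [ZFSet.mem_sep, ZFSet.mem_sep]
    refine and_congr_right fun _ => ⟨fun h3 x hx => h3 x _ (FunOn.ap_mem hf hx), fun h3 x B hB => ?_⟩
    have hx := FunOn.dom hf hB
    rw [← (FunOn.ap_eq hf hx).1 hB]
    exact h3 x hx
  rw [h2]
  exact h1

/-- The Galvin property. -/
lemma galV_of {V : Set ZFSet.{0}} {l d u : ZFSet.{0}} (hg : GalE V l d u) : GalV V l u l d := by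
  intro A hA hf h
  obtain ⟨j, hj, hjf, hjd, hinj, hm⟩ := hg A hA hf (fun i hi => h i _ (FunOn.ap_mem hf hi))
  refine ⟨j, hj, hjf, fun x i hxi => ?_, fun x x' i hxi hxi' => ?_, ?_⟩
  · have hx := FunOn.dom hjf hxi
    rw [← (FunOn.ap_eq hjf hx).1 hxi]
    exact hjd x hx
  · have hx := FunOn.dom hjf hxi
    have hx' := FunOn.dom hjf hxi'
    exact hinj x hx x' hx' (((FunOn.ap_eq hjf hx).1 hxi).trans ((FunOn.ap_eq hjf hx').1 hxi').symm)
  · have h2 : ZFSet.sep (fun z => ∀ x i B, ZFSet.pair x i ∈ j → ZFSet.pair i B ∈ A → z ∈ B) l =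
        ZFSet.sep (fun y => ∀ x ∈ l, y ∈ ap A (ap j x)) l := by
      ext z
      rw [ZFSet.mem_sep, ZFSet.mem_sep]
      refine and_congr_right fun _ => ⟨fun h3 x hx => ?_, fun h3 x i B hxi hiB => ?_⟩
      · exact h3 x _ _ (FunOn.ap_mem hjf hx) (FunOn.ap_mem hf (hjd x hx))
      · have hx := FunOn.dom hjf hxi
        have hi := FunOn.dom hf hiB
        rw [← (FunOn.ap_eq hf hi).1 hiB, ← (FunOn.ap_eq hjf hx).1 hxi]
        exact h3 x hx
    rw [h2]
    exact hm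

end Pool.CN
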