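import Mathlib

/-!
# MP_cc7fb1: indestructible cardinals (definitions)

`P` is a partial order (a forcing notion, smaller conditions are stronger).
-/

set_option autoImplicit false

open Cardinal Set

namespace Pool.CF

section
variable {P : Type} [PartialOrder P]

/-- Regular open sets. -/
def RegOpen (A : Set P) : Prop :=
  (∀ p ∈ A, ∀ q ≤ p, q ∈ A) ∧ ∀ p, (∀ q ≤ p, ∃ r ≤ q, r ∈ A) → p ∈ A

/-- The conditions which are incompatible with all elements of `A`. -/
def perp (A : Set P) : Set P := {q | ∀ r ≤ q, r ∉ A}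

/-- Small directed sets have lower bounds. -/
def DirClosed (κ : Cardinal.{0}) (P : Type) [PartialOrder P] : Prop :=
  ∀ D : Set P, D.Nonempty → #D < κ → (∀ a ∈ D, ∀ b ∈ D, ∃ c ∈ D, c ≤ a ∧ c ≤ b) →
    ∃ p, ∀ a ∈ D, p ≤ a

/-- `F` is a Boolean valued `κ`-complete proper filter on `I`.  A `P`-name for a subset of `I` is
given by the regular open sets `A i` (the truth value of `i ∈ A`), and `F A` is the truth value of
`A ∈ F`. -/
structure FiltN (κ : Cardinal.{0}) (P : Type) [PartialOrder P] (I : Type)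
    (F : (I → Set P) → Set P) : Prop where
  reg : ∀ A, (∀ i, RegOpen (A i)) → RegOpen (F A)
  up : ∀ A A', (∀ i, RegOpen (A i)) → (∀ i, RegOpen (A' i)) → ∀ p ∈ F A,
    (∀ i, ∀ q ≤ p, q ∈ A i → q ∈ A' i) → p ∈ F A'
  complete : ∀ (J : Type) (A : J → I → Set P), #J < κ → (∀ j i, RegOpen (A j i)) → ∀ p,
    (∀ j, p ∈ F (A j)) → p ∈ F (fun i => {q | ∀ j, q ∈ A j i})
  proper : F (fun _ => ∅) = ∅

/-- Every Boolean valued `κ`-complete filter on `I` extends to a Boolean valued `κ`-complete
ultrafilter. -/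
def Extends (κ : Cardinal.{0}) (P : Type) [PartialOrder P] (I : Type) : Prop :=
  ∀ F, FiltN κ P I F → ∃ G, FiltN κ P I G ∧ (∀ A, (∀ i, RegOpen (A i)) → F A ⊆ G A) ∧
    ∀ A, (∀ i, RegOpen (A i)) → ∀ p, ∃ q ≤ p, q ∈ G A ∨ q ∈ G (fun i => perp (A i))

end

/-- The regular uncountable strong limit cardinal `κ` has the filter extension property, and this
is preserved by all `< κ`-directed closed forcings. -/
structure Indestructible (κ : Cardinal.{0}) : Prop where
  reg : κ.IsRegular
  unc : ℵ₀ < κ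
  sl : ∀ c < κ, 2 ^ c < κ
  ext : ∀ (P : Type) [PartialOrder P], DirClosed κ P → ∀ I : Type, Extends κ P I

end Pool.CF
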