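import Pool.Agent.Lib.MP_cc7fb1_cn.NA1

/-!
# N-side, row NC2
-/

set_option autoImplicit false
set_option linter.unusedSectionVars false

open Cardinal Set

namespace Pool.CN

open Pool.MP_3ade05_lc Pool.PC Pool.CF Pool.UL Pool.UT Pool.GE

variable {P : Type} [PartialOrder P]

variable {Λ Θ R : Type} [LinearOrder Λ] [WellFoundedLT Λ] [LinearOrder Θ]
    [WellFoundedLT Θ] [PartialOrder R] [OrderTop R] [D : VS P Λ Θ R]

include D

/-- `λ` is a cardinal of the model. -/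
theorem Ev.card_lam : Ev (P := PP P) (fun U H => InfCard (MM U H) (lam P Λ U H)) := by
  refine ((Ev.base (P := PP P)).and ((Ev.wd (P := P) Λ).and (Ev.no_surj (P := PP P)))).mono ?_
  rintro U H ⟨hB, hW, hns⟩
  have hinf : ℵ₀ ≤ #Λ := D.Λ_reg.aleph0_le
  have hω : Ordinal.omega0 ≤ ty Λ := by
    rw [ty_Λ P Λ Θ R, ← ord_aleph0]
    exact ord_le_ord.2 hinf
  refine ⟨mem_MM hW.ty_mem, isOrdinal_val_ordN hB _, ?_, ?_⟩
  · rw [← val_ordN_omega hB]
    exact (val_ordN_subset_iff hB hB.omega hW.ty_mem).2 hω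
  · intro a ha f hf hfa
    obtain ⟨j, hj, rfl⟩ := (hW.mem a).1 ha
    obtain ⟨p₀, hp₀⟩ := hB.filt.ne
    refine hns (od j) (ty Λ) ((hW.iff j).2 hj) hW.ty_mem ⟨p₀, hp₀, ?_⟩ f hf hfa
    intro p _ Rel hmono huniq
    have hI : #((od j).ToType) < #Λ := by
      rw [mk_toType, card_od]
      exact D.Λ_init j
    obtain ⟨q, hq, T, hT, hfus⟩ := D.fus ((od j).ToType)
      (fun i => {r | (∃ b, Rel ⟨r⟩ i b) ∨ ∀ r' ≤ r, ∀ b, ¬ Rel ⟨r'⟩ i b}) hI (by
        rintro i r (⟨b, hb⟩ | hr) r' hr'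
        · exact Or.inl ⟨b, hmono _ _ _ _ (show (⟨r'⟩ : PP P) ≤ ⟨r⟩ from hr') hb⟩
        · exact Or.inr fun r'' hr'' => hr r'' (hr''.trans hr')) (by
        intro i r
        by_cases h : ∃ r' ≤ r, ∃ b, Rel ⟨r'⟩ i b
        · obtain ⟨r', hr', b, hb⟩ := h
          exact ⟨r', hr', Or.inl ⟨b, hb⟩⟩
        · push Not at h
          exact ⟨r, le_rfl, Or.inr h⟩) p.down
    -- the possible values
    set Val : Set (ty Λ).ToType := {b | ∃ z : (od j).ToType × T, ∃ r ≤ p.down, r ≤ z.2.1 ∧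
      Rel ⟨r⟩ z.1 b ∧ ∃ b', Rel ⟨z.2.1⟩ z.1 b'} with hVal
    have hcard : #Val < #(ty Λ).ToType := by
      rw [mk_toType, card_ty]
      have h1 : #((od j).ToType × T) < #Λ := by
        rw [mk_prod, lift_id, lift_id]
        exact mul_lt_of_lt hinf hI hT
      refine lt_of_le_of_lt ?_ h1
      have h2 : ∀ b : Val, ∃ z : (od j).ToType × T, ∃ r ≤ p.down, r ≤ z.2.1 ∧
        Rel ⟨r⟩ z.1 b.1 ∧ ∃ b', Rel ⟨z.2.1⟩ z.1 b' := fun b => b.2
      choose z r hrp hrt hR b' hb' using h2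
      have h3 : ∀ b : Val, b.1 = b' b := by
        intro b
        exact huniq ⟨r b⟩ (hrp b) _ _ _ (hR b)
          (hmono _ _ _ _ (show (⟨r b⟩ : PP P) ≤ ⟨(z b).2.1⟩ from hrt b) (hb' b))
      refine mk_le_of_injective (f := z) ?_
      intro b c hbc
      apply Subtype.ext
      have h4 := hb' c
      rw [← hbc] at h4
      have h5 : Rel ⟨r b⟩ (z b).1 (b' c) :=
        hmono _ _ _ _ (show (⟨r b⟩ : PP P) ≤ ⟨(z b).2.1⟩ from hrt b) h4
      rw [h3 c]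
      exact huniq ⟨r b⟩ (hrp b) _ _ _ (hR b) h5
    have hne : ∃ b, b ∉ Val := by
      by_contra hcon
      push Not at hcon
      have h1 : Val = Set.univ := Set.eq_univ_of_forall hcon
      rw [h1, mk_univ] at hcard
      exact lt_irrefl _ hcard
    obtain ⟨b, hb⟩ := hne
    refine ⟨⟨q⟩, hq, b, fun q' hq' a hR => ?_⟩
    obtain ⟨t, ht, hta, r', hr', hr't⟩ := hfus a q'.down hq'
    have hR' : Rel ⟨r'⟩ a b := hmono _ _ _ _ (show (⟨r'⟩ : PP P) ≤ q' from hr') hR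
    rcases hta with ⟨b', hb'⟩ | hn
    · exact hb ⟨(a, ⟨t, ht⟩), r', (hr'.trans hq').trans hq, hr't, hR', b', hb'⟩
    · exact hn r' hr't b hR'

end Pool.CN
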