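import Pool.Agent.Lib.MP_cc7fb1_cn.NA1

/-!
# N-side, row NC3
-/

set_option autoImplicit false
set_option linter.unusedSectionVars false

open Cardinal Set

namespace Pool.CN

open Pool.MP_3ade05_lc Pool.PC Pool.CF Pool.UL Pool.UT Pool.GE

variable {P : Type} [PartialOrder P]

/-- The chain condition: names for functions on a small set have a small set of values. -/
theorem NC3_ns {θ : Cardinal.{0}} (hθ : θ.IsRegular)
    (cc : ∀ A : Set P, (∀ a ∈ A, ∀ b ∈ A, a ≠ b → ∀ r ≤ a, ¬ r ≤ b) → #A < θ)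
    {A B : Type} (hA : #A < θ) (hB : θ ≤ #B)
    (p : P) (R : P → A → B → Prop) (hmono : ∀ q q' a b, q' ≤ q → R q a b → R q' a b)
    (huniq : ∀ q ≤ p, ∀ a b b', R q a b → R q a b' → b = b') :
    ∃ b, ∀ q' ≤ p, ∀ a, ¬ R q' a b := by
  have h1 : ∀ a, #{b | ∃ q ≤ p, R q a b} < θ := by
    intro a
    have hc : ∀ b : {b | ∃ q ≤ p, R q a b}, ∃ q ≤ p, R q a b.1 := fun b => b.2
    choose g hg hgR using hc
    have hinj : Function.Injective g := by
      intro b b' e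
      have h2 := hgR b
      have h3 := hgR b'
      rw [← e] at h3
      exact Subtype.ext (huniq _ (hg b) _ _ _ h2 h3)
    have h4 : #(range g) < θ := by
      refine cc _ ?_
      rintro _ ⟨b, rfl⟩ _ ⟨b', rfl⟩ hne r hr hr'
      refine hne ?_
      have h5 := huniq r (hr.trans (hg b)) a b.1 b'.1 (hmono _ _ _ _ hr (hgR b))
        (hmono _ _ _ _ hr' (hgR b'))
      rw [Subtype.ext h5]
    rwa [Cardinal.mk_range_eq g hinj] at h4
  have h2 : #(⋃ a, {b | ∃ q ≤ p, R q a b}) < θ :=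
    (Cardinal.card_iUnion_lt_iff_forall_of_isRegular hθ hA).2 h1
  obtain ⟨b, hb⟩ : ∃ b, b ∉ ⋃ a, {b | ∃ q ≤ p, R q a b} := by
    by_contra hcon
    push Not at hcon
    have h3 : (⋃ a, {b | ∃ q ≤ p, R q a b}) = Set.univ := eq_univ_of_forall hcon
    rw [h3, Cardinal.mk_univ] at h2
    exact absurd (lt_of_lt_of_le h2 hB) (lt_irrefl _)
  refine ⟨b, fun q' hq' a hR => hb ?_⟩
  rw [mem_iUnion]
  exact ⟨a, q', hq', hR⟩

variable {Λ Θ R : Type} [LinearOrder Λ] [WellFoundedLT Λ] [LinearOrder Θ]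
    [WellFoundedLT Θ] [PartialOrder R] [OrderTop R] [D : VS P Λ Θ R]

include D

/-- `δ` is a cardinal of the model. -/
theorem Ev.card_del : Ev (P := PP P) (fun U H => InfCard (MM U H) (del P Θ U H)) := by
  refine ((Ev.base (P := PP P)).and ((Ev.no_surj (P := PP P)).and
    (Ev.seedN (P := PP P) (ordN (PP P) (#Θ).ord)))).mono ?_
  rintro U H ⟨hB, hns, hκ⟩
  have e : ty Θ = (#Θ).ord := ty_Θ P Λ Θ R
  show InfCard (MM U H) (Name.val U H (ordN _ (ty Θ)))
  rw [e]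
  refine ⟨mem_MM hκ, isOrdinal_val_ordN hB _, ?_, ?_⟩
  · rw [← val_ordN_omega hB]
    refine (val_ordN_subset_iff hB hB.omega hκ).2 ?_
    rw [← Cardinal.ord_aleph0]
    exact Cardinal.ord_le_ord.2 D.Θ_reg.aleph0_le
  · intro a ha f hf hfa
    obtain ⟨δ, hδ, hδU, rfl⟩ := (mem_val_ordN hB).1 ha
    obtain ⟨p₀, hp₀⟩ := hB.filt.ne
    refine hns δ _ hδU hκ ⟨p₀, hp₀, fun p _ R' hmono huniq => ?_⟩ f hf hfa
    obtain ⟨b, hb⟩ := NC3_ns D.Θ_reg D.cc (A := δ.ToType) (B := (#Θ).ord.ToType)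
      (by
        rw [Cardinal.mk_toType]
        exact Cardinal.lt_ord.1 hδ)
      (by rw [Cardinal.mk_toType, Cardinal.card_ord]) p.down
      (fun q a b => R' (ULift.up q) a b)
      (fun q q' a b h => hmono (ULift.up q) (ULift.up q') a b h)
      (fun q hq a b b' => huniq (ULift.up q) hq a b b')
    exact ⟨p, le_rfl, b, fun q' hq' a => hb q'.down hq' a⟩

end Pool.CN
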