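import Pool.Agent.Lib.MP_cc7fb1_cn.NA1

/-!
# N-side, row NC4
-/

set_option autoImplicit false
set_option linter.unusedSectionVars false

open Cardinal Set

namespace Pool.CN

open Pool.MP_3ade05_lc Pool.PC Pool.CF Pool.UL Pool.UT Pool.GE

variable {P : Type} [PartialOrder P]

variable {Λ Θ R : Type} [LinearOrder Λ] [WellFoundedLT Λ] [LinearOrder Θ]
    [WellFoundedLT Θ] [PartialOrder R] [OrderTop R] [D : VS P Λ Θ R]

/-- The relation of the collapses. -/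
def NC4R (D : VS P Λ Θ R) (α β : Ordinal.{0}) (q : PP P) (x y : Ordinal.{0}) : Prop :=
  ∃ (i : KK P Λ Θ R) (θ v : Λ), α = ty (KK P Λ Θ R) ∧ β = od θ ∧ x = od i ∧ y = od v ∧
    D.Rl θ q.down i v

/-- Density of the collapses at `θ`. -/
def NC4D (D : VS P Λ Θ R) (a : Λ) (q : PP P) (θ : Λ) : Prop :=
  a ≤ θ ∧ (∀ i, ∀ r ≤ q.down, ∃ r' ≤ r, ∃ v, D.Rl θ r' i v) ∧
    ∀ v < θ, ∀ r ≤ q.down, ∃ r' ≤ r, ∃ i, D.Rl θ r' i v

include D

/-- Elements of `λ` are covered by `κ`. -/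
theorem Ev.lam_cov : Ev (P := PP P) (fun U H => ∀ b ∈ lam P Λ U H,
    Cov (MM U H) (kap P Λ Θ R U H) b) := by
  have h1 := Ev.gen_surj (P := PP P) (NC4R D)
    (by
      rintro α β q q' x y hq ⟨i, θ, v, e1, e2, e3, e4, h⟩
      exact ⟨i, θ, v, e1, e2, e3, e4, D.Rl_mono θ _ _ i v hq h⟩)
    (by
      rintro α β q x y y' ⟨i, θ, v, e1, e2, e3, e4, h⟩ ⟨i', θ', v', e1', e2', e3', e4', h'⟩
      have h5 : θ = θ' := od_injective (e2.symm.trans e2')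
      have h6 : i = i' := od_injective (e3.symm.trans e3')
      subst h5 h6
      rw [e4, e4', D.Rl_uniq θ _ i v v' h h'])
    (by
      rintro α β q x y ⟨i, θ, v, e1, e2, e3, e4, h⟩
      refine ⟨?_, ?_⟩
      · rw [e1, e3]
        exact od_lt_ty i
      · rw [e2, e4]
        exact od_lt_iff.2 (D.Rl_lt θ _ i v h))
  have h2 := Ev.genT (P := PP P) (T := Λ) (T' := Λ) 0 (fun a _ q θ => NC4D D a q θ)
  refine (((Ev.base (P := PP P)).and ((Ev.wd (P := P) Λ).and (Ev.wd (P := P) (KK P Λ Θ R)))).and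
    (h1.and h2)).mono ?_
  rintro U H ⟨⟨hB, hΛ, hK⟩, hsurj, hgen⟩ b hb
  obtain ⟨a, ha, rfl⟩ := (hΛ.mem b).1 hb
  rcases hgen a ha Fin.elim0 (fun i => i.elim0) with ⟨q, hq, θ, hθ, h3, h4, h5⟩ | ⟨p, hp, hn⟩
  swap
  · exfalso
    obtain ⟨q, hq, θ, hθ, h3, h4⟩ := D.col a p.down
    exact hn ⟨q⟩ hq θ ⟨hθ, h3, h4⟩
  obtain ⟨f, hf, hff, hfs⟩ := hsurj (ty (KK P Λ Θ R)) (od θ) hK.ty_mem ((hΛ.iff θ).2 hθ)
    ⟨q, hq, by
      intro x hx r hr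
      obtain ⟨i, rfl⟩ := exists_od hx
      obtain ⟨r', hr', v, hv⟩ := h4 i r.down hr
      exact ⟨⟨r'⟩, hr', od v, i, θ, v, rfl, rfl, rfl, rfl, hv⟩, by
      intro y hy r hr
      obtain ⟨v, rfl⟩ := exists_od (hy.trans (od_lt_ty θ))
      obtain ⟨r', hr', i, hi⟩ := h5 v (od_lt_iff.1 hy) r.down hr
      exact ⟨⟨r'⟩, hr', od i, i, θ, v, rfl, rfl, rfl, rfl, hi⟩⟩
  refine ⟨f, hf, hff, fun y hy => hfs y ?_⟩
  exact (val_ordN_subset_iff hB ((hΛ.iff a).2 ha) ((hΛ.iff θ).2 hθ)).2 (od_le_iff.2 h3) hy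

end Pool.CN
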