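import Pool.Agent.Lib.MP_cc7fb1_cn.NA1

/-!
# N-side, row NC5
-/

set_option autoImplicit false
set_option linter.unusedSectionVars false

open Cardinal Set

namespace Pool.CN

open Pool.MP_3ade05_lc Pool.PC Pool.CF Pool.UL Pool.UT Pool.GE

variable {P : Type} [PartialOrder P]

variable {Λ Θ R : Type} [LinearOrder Λ] [WellFoundedLT Λ] [LinearOrder Θ]
    [WellFoundedLT Θ] [PartialOrder R] [OrderTop R] [D : VS P Λ Θ R]

private lemma NC5_nomax {T : Type} [LinearOrder T] (h : ∀ a : T, #(Iio a) < #T)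
    (hinf : ℵ₀ ≤ #T) (a : T) : ∃ b, a < b := by
  by_contra hcon
  push Not at hcon
  have h1 : (Set.univ : Set T) = insert a (Iio a) := by
    ext x
    constructor
    · intro _
      rcases eq_or_lt_of_le (hcon x) with h2 | h2
      · exact Or.inl h2
      · exact Or.inr h2
    · intro _
      exact Set.mem_univ x
  have h2 : #T ≤ #(Iio a) + 1 := by
    rw [← mk_univ, h1]
    exact mk_insert_le
  rcases lt_or_ge (#(Iio a)) ℵ₀ with h3 | h3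
  · exact absurd (h2.trans_lt (add_lt_aleph0 h3 one_lt_aleph0)) (not_lt.2 hinf)
  · rw [add_one_eq h3] at h2
    exact absurd h2 (not_le.2 (h a))

include D

/-- Elements of `δ` are covered by `λ`. -/
theorem Ev.del_cov : Ev (P := PP P) (fun U H => ∀ b ∈ del P Θ U H,
    Cov (MM U H) (lam P Λ U H) b) := by
  have hnm : ∀ a : Θ, ∃ b, a < b := NC5_nomax D.Θ_init D.Θ_reg.aleph0_le
  choose nx hnx using hnm
  have hg := Ev.gen_surj (P := PP P) (fun α β q x y => α = ty Λ ∧ ∃ be : Θ, β = od be ∧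
    ∃ (xi : Λ) (v : Θ), x = od xi ∧ y = od v ∧ D.Dc q.down be xi v)
    (by
      rintro α β q q' a b hq ⟨h1, be, h2, xi, v, h3, h4, h5⟩
      exact ⟨h1, be, h2, xi, v, h3, h4, D.Dc_mono _ _ _ _ _ hq h5⟩)
    (by
      rintro α β q a b b' ⟨h1, be, h2, xi, v, h3, h4, h5⟩ ⟨-, be', h2', xi', v', h3', h4', h5'⟩
      obtain rfl : be = be' := od_injective (h2.symm.trans h2')
      obtain rfl : xi = xi' := od_injective (h3.symm.trans h3')
      rw [h4, h4', D.Dc_uniq _ _ _ _ _ h5 h5'])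
    (by
      rintro α β q a b ⟨rfl, be, rfl, xi, v, rfl, rfl, h5⟩
      exact ⟨od_lt_ty xi, od_lt_iff.2 (D.Dc_lt _ _ _ _ h5)⟩)
  refine ((((Ev.base (P := PP P)).and (Ev.wd (P := P) Λ)).and (Ev.wd (P := P) Θ)).and
    ((Ev.opT (P := PP P) nx).and hg)).mono ?_
  rintro U H ⟨⟨⟨hB, hΛ⟩, hΘ⟩, hop, hsurj⟩ b hb
  obtain ⟨a, ha, rfl⟩ := (hΘ.mem b).1 hb
  have hnU : ordN (PP P) (od (nx a)) ∈ U := (hΘ.iff _).2 (hop a ha)
  obtain ⟨p, hp⟩ := hB.filt.ne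
  obtain ⟨f, hf, hfun, hon⟩ := hsurj (ty Λ) (od (nx a)) hΛ.ty_mem hnU ⟨p, hp, by
    intro x hx q _
    obtain ⟨xi, rfl⟩ := exists_od hx
    obtain ⟨r, hr, v, hv⟩ := D.Dc_tot q.down (nx a) ⟨a, hnx a⟩ xi
    exact ⟨⟨r⟩, hr, od v, rfl, nx a, rfl, xi, v, rfl, rfl, hv⟩, by
    intro y hy q _
    obtain ⟨v, rfl⟩ := exists_od (hy.trans (od_lt_ty (nx a)))
    obtain ⟨r, hr, xi, hxi⟩ := D.Dc_onto q.down (nx a) v (od_lt_iff.1 hy)
    exact ⟨⟨r⟩, hr, od xi, rfl, nx a, rfl, xi, v, rfl, rfl, hxi⟩⟩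
  refine ⟨f, hf, hfun, fun y hy => hon y ?_⟩
  obtain ⟨β, hβ, hβU, rfl⟩ := (mem_val_ordN hB).1 hy
  exact (mem_val_ordN hB).2 ⟨β, hβ.trans (od_lt_iff.2 (hnx a)), hβU, rfl⟩

end Pool.CN
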