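import Pool.Agent.Lib.MP_cc7fb1_cn.NB2

/-!
# N-side, row NC6
-/

set_option autoImplicit false
set_option linter.unusedSectionVars false

open Cardinal Set

namespace Pool.CN

open Pool.MP_3ade05_lc Pool.PC Pool.CF Pool.UL Pool.UT Pool.GE

private lemma NC6_bd {κ : Cardinal.{0}} (hκ : κ.IsRegular) (g : κ.ord.ToType → κ.ord.ToType)
    (a : κ.ord.ToType) : ∃ c, ∀ j < a, g j < c := by
  have hty : ty κ.ord.ToType = κ.ord := Ordinal.type_toType _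
  have h1 : #(Iio a) < κ := by
    rw [← card_od a, ← Cardinal.lt_ord]
    exact lt_of_lt_of_eq (od_lt_ty a) hty
  have h2 : (⨆ j : Iio a, (od (g j.1) + 1)) < κ.ord := by
    refine Ordinal.iSup_add_one_lt_of_lt_cof (by rwa [hκ.cof_ord]) ?_
    intro j
    exact lt_of_lt_of_eq (od_lt_ty _) hty
  obtain ⟨c, hc⟩ := exists_od (lt_of_lt_of_eq h2 hty.symm)
  refine ⟨c, fun j hj => ?_⟩
  rw [← od_lt_iff, hc]
  have h3 : od (g j) + 1 ≤ ⨆ j : Iio a, (od (g j.1) + 1) :=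
    le_ciSup (f := fun j : Iio a => od (g j.1) + 1) Ordinal.bddAbove_of_small ⟨j, hj⟩
  exact lt_of_lt_of_le (Order.lt_succ _) h3

variable {P : Type} [PartialOrder P]

variable {Λ Θ R : Type} [LinearOrder Λ] [WellFoundedLT Λ] [LinearOrder Θ]
    [WellFoundedLT Θ] [PartialOrder R] [OrderTop R] [D : VS P Λ Θ R]

include D

/-- `κ` is regular in the model. -/
theorem Ev.reg : Ev (P := PP P) (fun U H => ∀ a ∈ kap P Λ Θ R U H, ∀ f ∈ MM U H, FunOn f a →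
    (∀ x ∈ a, ap f x ∈ kap P Λ Θ R U H) →
      ∃ b ∈ kap P Λ Θ R U H, ∀ x ∈ a, ap f x ∈ b) := by
  haveI : Nonempty (KK P Λ Θ R) := by
    rw [Ordinal.nonempty_toType_iff]
    exact (Cardinal.ord_pos.2 D.κ_reg.pos).ne'
  have hb := fun z : (KK P Λ Θ R → KK P Λ Θ R) × KK P Λ Θ R => NC6_bd D.κ_reg z.1 z.2
  choose c hc using hb
  refine ((Ev.base (P := PP P)).and (((Ev.wd (P := P) (KK P Λ Θ R)).and
    (Ev.short (P := P) D.κ D.dir (KK P Λ Θ R))).and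
      ((Ev.pairT (P := PP P) (KK P Λ Θ R → KK P Λ Θ R) (KK P Λ Θ R)).and
        (Ev.opT (P := PP P) c)))).mono ?_
  rintro U H ⟨hB, ⟨hW, hs⟩, hp, ho⟩ a ha f ⟨σ, _, hσ, rfl⟩ hf hv
  obtain ⟨a0, ha0, rfl⟩ := (hW.mem _).1 ha
  have haU := (hW.iff a0).2 ha0
  have hlt : od a0 < D.κ.ord := by
    have h1 := od_lt_ty a0
    rwa [ty_KK] at h1
  obtain ⟨g, hg, hgj⟩ := hs σ hσ (od a0) haU hlt hf (by
    intro x y hxy
    have hx := FunOn.dom hf hxy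
    rw [← (FunOn.ap_eq hf hx).1 hxy]
    exact hv x hx)
  have hcU := ho _ (hp g a0 hg ha0)
  refine ⟨Name.val U H (ordN _ (od (c (g, a0)))), (hW.mem _).2 ⟨_, hcU, rfl⟩, ?_⟩
  intro x hx
  obtain ⟨β, hβ, hβU, rfl⟩ := (mem_val_ordN hB).1 hx
  obtain ⟨j, rfl⟩ := exists_od (W := KK P Λ Θ R) (hβ.trans (od_lt_ty a0))
  have hj := (hW.iff j).1 hβU
  obtain ⟨h1, h2⟩ := hgj j hj hβ
  rw [(FunOn.ap_eq hf hx).1 h2]
  exact (hW.lt _ _ h1 hcU).2 (hc (g, a0) j (od_lt_iff.1 hβ))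

end Pool.CN
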