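import Pool.Agent.Lib.MP_cc7fb1_cn.NA3
import Pool.Agent.Lib.MP_cc7fb1_cn.NB1

/-!
# N-side, row NC7
-/

set_option autoImplicit false
set_option linter.unusedSectionVars false

open Cardinal Set

namespace Pool.CN

open Pool.MP_3ade05_lc Pool.PC Pool.CF Pool.UL Pool.UT Pool.GE

variable {P : Type} [PartialOrder P]

variable {Λ Θ R : Type} [LinearOrder Λ] [WellFoundedLT Λ] [LinearOrder Θ]
    [WellFoundedLT Θ] [PartialOrder R] [OrderTop R] [D : VS P Λ Θ R]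

include D

private lemma NC7_card (j : KK P Λ Θ R) : #(Iio j) < D.κ := by
  rw [← card_od]
  have h := od_lt_ty j
  rw [ty_KK] at h
  exact lt_ord.1 h

private lemma NC7_enum (j : KK P Λ Θ R) : ∃ (b : KK P Λ Θ R) (e : KK P Λ Θ R → Set (KK P Λ Θ R)),
    ∀ S : Set (KK P Λ Θ R), S ⊆ Iio j → ∃ ξ, ξ < b ∧ e ξ = S := by
  classical
  have h1 : (2 : Cardinal.{0}) ^ #(Iio j) < D.κ := D.κ_sl _ (NC7_card j)
  have h2 : ((2 : Cardinal.{0}) ^ #(Iio j)).ord < ty (KK P Λ Θ R) := by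
    rw [ty_KK]
    exact ord_lt_ord.2 h1
  obtain ⟨b, hb⟩ := exists_od h2
  have h3 : #(Iio b) = #(Set (Iio j)) := by
    rw [← card_od, hb, card_ord, mk_set]
  obtain ⟨φ⟩ := Cardinal.eq.1 h3
  refine ⟨b, fun ξ => if h : ξ < b then Subtype.val '' (φ ⟨ξ, h⟩) else ∅, fun S hS => ?_⟩
  have hlt : (φ.symm (Subtype.val ⁻¹' S)).1 < b := (φ.symm (Subtype.val ⁻¹' S)).2
  refine ⟨(φ.symm (Subtype.val ⁻¹' S)).1, hlt, ?_⟩
  simp only [dif_pos hlt]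
  have h4 : φ ⟨(φ.symm (Subtype.val ⁻¹' S)).1, hlt⟩ = Subtype.val ⁻¹' S := by
    rw [show (⟨(φ.symm (Subtype.val ⁻¹' S)).1, hlt⟩ : Iio b) = φ.symm (Subtype.val ⁻¹' S) from rfl,
      Equiv.apply_symm_apply]
  rw [h4, Subtype.image_preimage_coe]
  exact inter_eq_right.2 hS

/-- the bound for the enumeration of the subsets of `Iio j` -/
private noncomputable def NC7_b (j : KK P Λ Θ R) : KK P Λ Θ R := (NC7_enum j).choose

/-- the enumeration of the subsets of `Iio j` -/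
private noncomputable def NC7_e (j : KK P Λ Θ R) : KK P Λ Θ R → Set (KK P Λ Θ R) :=
  (NC7_enum j).choose_spec.choose

private lemma NC7_spec (j : KK P Λ Θ R) (S : Set (KK P Λ Θ R)) (hS : S ⊆ Iio j) :
    ∃ ξ, ξ < NC7_b j ∧ NC7_e j ξ = S :=
  (NC7_enum j).choose_spec.choose_spec S hS

open Classical in
/-- the index of a subset of `Iio j` -/
private noncomputable def NC7_ix (z : KK P Λ Θ R × Set (KK P Λ Θ R)) : KK P Λ Θ R :=
  if h : ∃ ξ, ξ < NC7_b z.1 ∧ NC7_e z.1 ξ = z.2 then h.choose else z.1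

open Classical in
/-- the canonical nice name of a ground model set -/
private noncomputable def NC7_A (S : Set (KK P Λ Θ R)) : KK P Λ Θ R → Set P :=
  fun i => if i ∈ S then univ else ∅

private lemma NC7_mem_A {S : Set (KK P Λ Θ R)} {i : KK P Λ Θ R} {p : P} :
    p ∈ NC7_A S i ↔ i ∈ S := by
  unfold NC7_A
  split_ifs with h
  · exact ⟨fun _ => h, fun _ => mem_univ p⟩
  · exact ⟨fun h' => absurd h' (notMem_empty p), fun h' => absurd h' h⟩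

/-- the name of the value at `ξ` -/
private noncomputable def NC7_v (z : KK P Λ Θ R × KK P Λ Θ R) : Name (PP P) :=
  nm (NC7_A (NC7_e z.1 z.2))

/-- the name of the function -/
private noncomputable def NC7_F (j : KK P Λ Θ R) : Name (PP P) :=
  Z1.fam (fun ξ : Iio (NC7_b j) => oN (ordN (PP P) (od ξ.1)) (NC7_v (j, ξ.1)))

/-- `κ` is a strong limit in the model. -/
theorem Ev.SL : Ev (P := PP P) (fun U H => ∀ a ∈ kap P Λ Θ R U H, ∃ d ∈ kap P Λ Θ R U H,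
    PowLe (MM U H) a d) := by
  have hgen := Ev.genT (P := PP P) (T := KK P Λ Θ R) (T' := Set (KK P Λ Θ R)) 1
    (fun j v q S => S ⊆ Iio j ∧ ∀ i < j, (i ∈ S → q.down ∈ (rg (KK P Λ Θ R) (v 0)).1 i) ∧
      (i ∉ S → ∀ r ≤ q.down, r ∉ (rg (KK P Λ Θ R) (v 0)).1 i))
  refine (((((Ev.base (P := PP P)).and Ev.parts).and ((Ev.wd (P := P) (KK P Λ Θ R)).and
    (Ev.mem_nm (P := P) (KK P Λ Θ R)))).and
    ((Ev.rg_spec (P := P) (KK P Λ Θ R)).and hgen)).and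
    (((Ev.opN (P := PP P) (NC7_v (P := P) (Λ := Λ) (Θ := Θ) (R := R))).and
      (Ev.opN (P := PP P) (NC7_F (P := P) (Λ := Λ) (Θ := Θ) (R := R)))).and
      (((Ev.opT (P := PP P) (NC7_b (P := P) (Λ := Λ) (Θ := Θ) (R := R))).and
      (Ev.opT (P := PP P) (NC7_ix (P := P) (Λ := Λ) (Θ := Θ) (R := R)))).and
      ((Ev.pairT (P := PP P) (KK P Λ Θ R) (KK P Λ Θ R)).and
      (Ev.pairT (P := PP P) (KK P Λ Θ R) (Set (KK P Λ Θ R))))))).mono ?_
  rintro U H ⟨⟨⟨⟨hB, hparts⟩, hW, hnm⟩, hrg, hg⟩, ⟨hv, hF⟩, ⟨hb, hix⟩, hp1, hp2⟩ a ha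
  obtain ⟨j, hj, rfl⟩ := (hW.mem a).1 ha
  have hne : H.Nonempty := hB.filt.ne
  have hbj := hb j hj
  -- the pairs of the function
  have hpair : ∀ ξ : KK P Λ Θ R, tN (P := PP P) ξ ∈ U →
      oN (ordN (PP P) (od ξ)) (NC7_v (j, ξ)) ∈ U ∧
      Name.val U H (oN (ordN (PP P) (od ξ)) (NC7_v (j, ξ))) =
        ZFSet.pair (Name.val U H (ordN (PP P) (od ξ))) (Name.val U H (NC7_v (j, ξ))) := by
    intro ξ hξ
    have h1 : ordN (PP P) (od ξ) ∈ U := (hW.iff ξ).2 hξ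
    have h2 : NC7_v (j, ξ) ∈ U := hv _ (hp1 j ξ hj hξ)
    exact ⟨oN_mem hB h1 h2, val_oN hB h1 h2⟩
  have hmemF : ∀ z, z ∈ Name.val U H (NC7_F j) ↔ ∃ ξ : KK P Λ Θ R, ξ < NC7_b j ∧
      tN (P := PP P) ξ ∈ U ∧
      z = ZFSet.pair (Name.val U H (ordN (PP P) (od ξ))) (Name.val U H (NC7_v (j, ξ))) := by
    intro z
    unfold NC7_F
    rw [Z1.mem_fam hne]
    constructor
    · rintro ⟨ξ, h1, rfl⟩
      have h2 : tN (P := PP P) ξ.1 ∈ U := (hW.iff ξ.1).1 (hparts _ _ h1).1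
      exact ⟨ξ.1, ξ.2, h2, (hpair ξ.1 h2).2⟩
    · rintro ⟨ξ, h1, h2, rfl⟩
      exact ⟨⟨ξ, h1⟩, (hpair ξ h2).1, (hpair ξ h2).2.symm⟩
  refine ⟨Name.val U H (ordN _ (od (NC7_b j))), (hW.mem _).2 ⟨_, hbj, rfl⟩,
    Name.val U H (NC7_F j), mem_MM (hF j hj), ⟨?_, ?_⟩, ?_⟩
  · intro z hz
    obtain ⟨ξ, h1, h2, rfl⟩ := (hmemF z).1 hz
    exact ⟨_, (hW.lt ξ _ h2 hbj).2 h1, _, rfl⟩
  · intro x hx
    have hx' := hx
    rw [mem_val_ordN hB] at hx'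
    obtain ⟨β, hβ, hβU, rfl⟩ := hx'
    obtain ⟨ξ, rfl⟩ := exists_od (hβ.trans (od_lt_ty _))
    have hξ : tN (P := PP P) ξ ∈ U := (hW.iff ξ).1 hβU
    refine ⟨Name.val U H (NC7_v (j, ξ)), (hmemF _).2 ⟨ξ, od_lt_iff.1 hβ, hξ, rfl⟩, ?_⟩
    intro y hy
    obtain ⟨ξ', h1, h2, e⟩ := (hmemF _).1 hy
    obtain ⟨e1, e2⟩ := ZFSet.pair_injective e
    have e3 := hW.inj _ _ hξ h2 e1
    rw [e2, e3]
  · rintro y ⟨τ, -, hτ, rfl⟩ hy
    obtain ⟨hr1, hr2, hr3⟩ := hrg τ hτ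
    rcases hg j hj (fun _ => τ) (fun _ => hτ) with ⟨q, hq, S, hS, hSj, hdec⟩ | ⟨p, hp, hn⟩
    · have hex := NC7_spec j S hSj
      have hixS : tN (P := PP P) (NC7_ix (j, S)) ∈ U := hix _ (hp2 j S hj hS)
      have hs : NC7_ix (j, S) < NC7_b j ∧ NC7_e j (NC7_ix (j, S)) = S := by
        unfold NC7_ix
        rw [dif_pos hex]
        exact hex.choose_spec
      refine ⟨_, (hW.lt _ _ hixS hbj).2 hs.1, (hmemF _).2 ⟨_, hs.1, hixS, ?_⟩⟩
      congr 1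
      ext x
      unfold NC7_v
      rw [hs.2, hnm]
      constructor
      · intro hx
        obtain ⟨β, hβ, hβU, rfl⟩ := (mem_val_ordN hB).1 (hy hx)
        obtain ⟨i, rfl⟩ := exists_od (hβ.trans (od_lt_ty _))
        have hi : tN (P := PP P) i ∈ U := (hW.iff i).1 hβU
        refine ⟨i, hi, ⟨q, hq, NC7_mem_A.2 ?_⟩, rfl⟩
        by_contra hiS
        obtain ⟨q', hq', h1⟩ := (hr2 i hi).1 hx
        obtain ⟨r, -, hrq, hrq'⟩ := hB.filt.dir q hq q' hq'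
        exact (hdec i (od_lt_iff.1 hβ)).2 hiS r.down hrq
          (((rg (KK P Λ Θ R) τ).2 i).1 _ h1 _ hrq')
      · rintro ⟨i, hi, ⟨q', hq', hiS⟩, rfl⟩
        have h1 := NC7_mem_A.1 hiS
        exact (hr2 i hi).2 ⟨q, hq, (hdec i (hSj h1)).1 h1⟩
    · exfalso
      obtain ⟨q, hq, h⟩ := D.dir.inter (J := Iio j) (NC7_card j)
        (fun i => {q | q ∈ (rg (KK P Λ Θ R) τ).1 i.1 ∨ ∀ r ≤ q, r ∉ (rg (KK P Λ Θ R) τ).1 i.1})
        (by
          rintro i p (h | h) q hq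
          · exact Or.inl (((rg (KK P Λ Θ R) τ).2 i.1).1 _ h _ hq)
          · exact Or.inr fun r hr => h r (hr.trans hq))
        p.down
        (by
          intro i q _
          by_cases h : ∃ r ≤ q, r ∈ (rg (KK P Λ Θ R) τ).1 i.1
          · obtain ⟨r, hr, h⟩ := h
            exact ⟨r, hr, Or.inl h⟩
          · push Not at h
            exact ⟨q, le_rfl, Or.inr h⟩)
      refine hn ⟨q⟩ hq {i | i < j ∧ q ∈ (rg (KK P Λ Θ R) τ).1 i} ⟨fun i hi => hi.1, ?_⟩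
      intro i hi
      refine ⟨fun h' => h'.2, fun h' => ?_⟩
      rcases h ⟨i, hi⟩ with h1 | h1
      · exact absurd ⟨hi, h1⟩ h'
      · exact h1

end Pool.CN
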