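import Pool.Agent.Lib.MP_cc7fb1_cn.NA3
import Pool.Agent.Lib.MP_cc7fb1_cn.NA4

/-!
# N-side, row NC9
-/

set_option autoImplicit false
set_option linter.unusedSectionVars false

open Cardinal Set

namespace Pool.CN

open Pool.MP_3ade05_lc Pool.PC Pool.CF Pool.UL Pool.UT Pool.GE

variable {P : Type} [PartialOrder P]

variable {Λ Θ R : Type} [LinearOrder Λ] [WellFoundedLT Λ] [LinearOrder Θ]
    [WellFoundedLT Θ] [PartialOrder R] [OrderTop R] [D : VS P Λ Θ R]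

include D

/-- `2 ^ κ = λ` in the model. -/
theorem Ev.PK : Ev (P := PP P) (fun U H => PowLe (MM U H) (kap P Λ Θ R U H) (lam P Λ U H)) := by
  obtain ⟨B, hB1, hB2⟩ := D.pow
  let φ : Name (PP P) := Name.mk Λ (fun a => oN (ordN _ (od a)) (nm (P := P)
    (W := KK P Λ Θ R) (B a))) (fun _ => ⊤)
  refine (((Ev.base (P := PP P)).and (Ev.parts (P := PP P))).and ((Ev.wd (P := P) Λ).and
    ((Ev.mem_nm (P := P) (KK P Λ Θ R)).and ((Ev.rg_spec (P := P) (KK P Λ Θ R)).and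
    ((Ev.opN (P := PP P) (fun a : Λ => nm (P := P) (W := KK P Λ Θ R) (B a))).and
    ((Ev.seedN (P := PP P) φ).and
    ((Ev.genT (P := PP P) (T := RA (KK P Λ Θ R) P) (T' := Λ) 0
      (fun A _ q ζ => ∀ ξ, ∀ r ≤ q.down, (r ∈ A.1 ξ ↔ ∀ r' ≤ r, ∃ r'' ≤ r', r'' ∈ B ζ ξ))).and
    ((Ev.genT (P := PP P) (T := Λ × KK P Λ Θ R) (T' := Unit) 0
      (fun z _ q _ => q.down ∈ B z.1 z.2)).and
      (Ev.pairT (P := PP P) Λ (KK P Λ Θ R)))))))))).mono ?_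
  rintro U H ⟨⟨hBs, hparts⟩, hwd, hmem, hrg, hopB, hφ, hg1, hg2, hpair⟩
  obtain ⟨q₀, hq₀⟩ := hBs.filt.ne
  have hφmem : ∀ z, z ∈ Name.val U H φ ↔ ∃ a : Λ, tN (P := PP P) a ∈ U ∧
      z = ZFSet.pair (Name.val U H (ordN _ (od a))) (Name.val U H (nm (P := P)
        (W := KK P Λ Θ R) (B a))) := by
    intro z
    rw [Name.mem_val]
    constructor
    · rintro ⟨(a : Λ), ha, _, e⟩
      have ha' : oN (ordN _ (od a)) (nm (P := P) (W := KK P Λ Θ R) (B a)) ∈ U := ha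
      obtain ⟨h1, h2⟩ := hparts _ _ ha'
      refine ⟨a, (hwd.iff a).1 h1, ?_⟩
      rw [← val_oN hBs h1 h2]
      exact e
    · rintro ⟨a, ha, rfl⟩
      have h1 := (hwd.iff a).2 ha
      have h2 := hopB a ha
      exact ⟨a, oN_mem hBs h1 h2, ⟨q₀, hq₀, trivial⟩, (val_oN hBs h1 h2).symm⟩
  refine ⟨Name.val U H φ, mem_MM hφ, ⟨?_, ?_⟩, ?_⟩
  · intro z hz
    obtain ⟨a, ha, rfl⟩ := (hφmem z).1 hz
    exact ⟨_, (hwd.mem _).2 ⟨a, ha, rfl⟩, _, rfl⟩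
  · intro x hx
    obtain ⟨a, ha, rfl⟩ := (hwd.mem _).1 hx
    refine ⟨_, (hφmem _).2 ⟨a, ha, rfl⟩, ?_⟩
    intro y hy
    obtain ⟨b, hb, e⟩ := (hφmem _).1 hy
    obtain ⟨e1, e2⟩ := ZFSet.pair_injective e
    have hab := hwd.inj a b ha hb e1
    subst hab
    exact e2
  · intro y hy hyk
    obtain ⟨τ, -, hτ, rfl⟩ := hy
    obtain ⟨hA, -, hval⟩ := hrg τ hτ
    have hval' := hval hyk
    rcases hg1 (rg (KK P Λ Θ R) τ) hA Fin.elim0 (fun i => i.elim0) with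
      ⟨q, hq, ζ, hζ, hR⟩ | ⟨p, hp, hno⟩
    · refine ⟨Name.val U H (ordN _ (od ζ)), (hwd.mem _).2 ⟨ζ, hζ, rfl⟩,
        (hφmem _).2 ⟨ζ, hζ, ?_⟩⟩
      congr 1
      rw [← hval']
      ext x
      rw [hmem, hmem]
      constructor
      · rintro ⟨a, ha, ⟨q', hq', hqA⟩, rfl⟩
        refine ⟨a, ha, ?_, rfl⟩
        obtain ⟨s, hs, hs1, hs2⟩ := hBs.filt.dir q hq q' hq'
        have hsA : s.down ∈ (rg (KK P Λ Θ R) τ).1 a :=
          ((rg (KK P Λ Θ R) τ).2 a).1 _ hqA _ (show s.down ≤ q'.down from hs2)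
        have hdense := (hR a s.down (show s.down ≤ q.down from hs1)).1 hsA
        rcases hg2 (ζ, a) (hpair ζ a hζ ha) Fin.elim0 (fun i => i.elim0) with
          ⟨t, ht, _, _, hh⟩ | ⟨p', hp', hno'⟩
        · exact ⟨t, ht, hh⟩
        · exfalso
          obtain ⟨u, hu, hu1, hu2⟩ := hBs.filt.dir s hs p' hp'
          obtain ⟨v, hv1, hv2⟩ := hdense u.down (show u.down ≤ s.down from hu1)
          exact hno' ⟨v⟩ (le_trans (show (⟨v⟩ : PP P) ≤ u from hv1) hu2) () hv2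
      · rintro ⟨a, ha, ⟨q', hq', hqB⟩, rfl⟩
        refine ⟨a, ha, ?_, rfl⟩
        obtain ⟨s, hs, hs1, hs2⟩ := hBs.filt.dir q hq q' hq'
        refine ⟨s, hs, (hR a s.down (show s.down ≤ q.down from hs1)).2 ?_⟩
        intro r' hr'
        exact ⟨r', le_rfl, hB1 ζ a _ hqB r' (le_trans hr' (show s.down ≤ q'.down from hs2))⟩
    · exfalso
      obtain ⟨q, hq, ζ, hh⟩ := hB2 (rg (KK P Λ Θ R) τ).1 (rg (KK P Λ Θ R) τ).2 p.down
      exact hno ⟨q⟩ (show (⟨q⟩ : PP P) ≤ p from hq) ζ hh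

end Pool.CN
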