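import Pool.Agent.Lib.MP_cc7fb1_cn.ND0
import Pool.Agent.Lib.MP_cc7fb1_cn.NA8

/-!
# N-side, row ND1
-/

set_option autoImplicit false
set_option linter.unusedSectionVars false

open Cardinal Set

namespace Pool.CN

open Pool.MP_3ade05_lc Pool.PC Pool.CF Pool.UL Pool.UT Pool.GE

variable {P : Type} [PartialOrder P]

variable {Λ Θ R : Type} [LinearOrder Λ] [WellFoundedLT Λ] [LinearOrder Θ]
    [WellFoundedLT Θ] [PartialOrder R] [OrderTop R] [D : VS P Λ Θ R]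

include D

omit D [LinearOrder Λ] [WellFoundedLT Λ] in
/-- The intersection of two nice names. -/
private def ND1_int (z : RA Λ P × RA Λ P) : RA Λ P :=
  ⟨fun a => z.1.1 a ∩ z.2.1 a, fun a => ⟨fun _ h q hq => ⟨(z.1.2 a).1 _ h.1 q hq,
    (z.2.2 a).1 _ h.2 q hq⟩, fun p h => ⟨(z.1.2 a).2 p fun q hq => by
      obtain ⟨r, hr, h1⟩ := h q hq
      exact ⟨r, hr, h1.1⟩, (z.2.2 a).2 p fun q hq => by
      obtain ⟨r, hr, h1⟩ := h q hq
      exact ⟨r, hr, h1.2⟩⟩⟩⟩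

omit D [WellFoundedLT Λ] in
/-- The final segments. -/
private def ND1_seg (j : Λ) : RA Λ P :=
  ⟨fun a => {_q | j < a}, fun _ => ⟨fun _ h _ _ => h, fun p h => by
    obtain ⟨r, _, h1⟩ := h p le_rfl
    exact h1⟩⟩

private lemma ND1_succ (j : Λ) : ∃ k : Λ, ∀ a, k ≤ a ↔ j < a := by
  have hinf : ℵ₀ ≤ #Λ := D.Λ_reg.aleph0_le
  have h1 : ∃ a : Λ, j < a := by
    by_contra hcon
    push Not at hcon
    have h2 : (Set.univ : Set Λ) ⊆ insert j (Iio j) := by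
      intro a _
      rcases lt_or_eq_of_le (hcon a) with h | h
      · exact Or.inr h
      · exact Or.inl h
    have h3 : #Λ ≤ #(Iio j) + 1 := by
      rw [← mk_univ]
      exact (mk_le_mk_of_subset h2).trans mk_insert_le
    have h4 : #(Iio j) + 1 < #Λ :=
      add_lt_of_lt hinf (D.Λ_init j) (one_lt_aleph0.trans_le hinf)
    exact absurd h3 (not_le.2 h4)
  obtain ⟨k, hk, hmin⟩ := (wellFounded_lt (α := Λ)).has_min {a | j < a} h1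
  exact ⟨k, fun a => ⟨fun h => lt_of_lt_of_le hk h, fun h => not_lt.1 (hmin a h)⟩⟩

/-- Intersections, the empty set, final segments. -/
theorem Ev.FZ1 : Ev (P := PP P) (fun U H =>
    (∀ A ∈ FZ P Λ Θ R U H, ∀ B ∈ FZ P Λ Θ R U H, A ∩ B ∈ FZ P Λ Θ R U H) ∧
    (∅ : ZFSet.{0}) ∉ FZ P Λ Θ R U H ∧
    ∀ b ∈ lam P Λ U H, ZFSet.sep (fun y => b ∈ y) (lam P Λ U H) ∈ FZ P Λ Θ R U H) := by
  refine ((((Ev.base (P := PP P)).and (Ev.wd (P := P) Λ)).and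
    ((Ev.mem_fN (P := P) Λ).and (Ev.fN_up (P := P) Λ))).and
    (((Ev.seed (P := PP P) (FF P Λ Θ R)).and (Ev.mem_nm (P := P) Λ)).and
    (((Ev.opT (P := PP P) (ND1_int (P := P) (Λ := Λ))).and
      (Ev.pairT (P := PP P) (RA Λ P) (RA Λ P))).and
      (Ev.opT (P := PP P) (ND1_seg (P := P) (Λ := Λ)))))).mono ?_
  rintro U H ⟨⟨⟨hB, hW⟩, hfN, hup⟩, ⟨hFU, hnm⟩, ⟨hint, hpair⟩, hseg⟩
  obtain ⟨-, hel, hmem⟩ := hfN _ hFU FF_nice
  refine ⟨?_, ?_, ?_⟩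
  · intro A hA B hB'
    obtain ⟨A', hA', rfl⟩ := hel A hA
    obtain ⟨B', hB'', rfl⟩ := hel B hB'
    obtain ⟨q, hq, hqE⟩ := (hmem A' hA').1 hA
    obtain ⟨q', hq', hqE'⟩ := (hmem B' hB'').1 hB'
    obtain ⟨r, hr, hrq, hrq'⟩ := hB.filt.dir q hq q' hq'
    have hC := hint _ (hpair _ _ hA' hB'')
    have e : Name.val U H (nm A'.1) ∩ Name.val U H (nm B'.1) =
        Name.val U H (nm (ND1_int (A', B')).1) := by
      ext x
      rw [ZFSet.mem_inter, hnm, hnm, hnm]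
      constructor
      · rintro ⟨⟨a, ha, ⟨s, hs, hsA⟩, rfl⟩, b, hb, ⟨s', hs', hsB⟩, hab⟩
        obtain rfl := hW.inj a b ha hb hab
        obtain ⟨t, ht, hts, hts'⟩ := hB.filt.dir s hs s' hs'
        exact ⟨a, ha, ⟨t, ht, (A'.2 a).1 _ hsA _ hts, (B'.2 a).1 _ hsB _ hts'⟩, rfl⟩
      · rintro ⟨a, ha, ⟨s, hs, hsA, hsB⟩, rfl⟩
        exact ⟨⟨a, ha, ⟨s, hs, hsA⟩, rfl⟩, a, ha, ⟨s, hs, hsB⟩, rfl⟩
    rw [e]
    refine (hmem _ hC).2 ⟨r, hr, ?_⟩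
    exact D.E_inter _ _ _ _ A'.2 B'.2 (D.E_mono _ _ _ _ _ hrq le_rfl hqE)
      (D.E_mono _ _ _ _ _ hrq' le_rfl hqE')
  · intro h
    obtain ⟨q, -, hq⟩ := (hup _ hFU FF_nice).2.2.2.1 h
    exact D.E_bot _ _ hq
  · intro b hb
    obtain ⟨j, hj, rfl⟩ := (hW.mem b).1 hb
    have e : ZFSet.sep (fun y => Name.val U H (ordN _ (od j)) ∈ y) (lam P Λ U H) =
        Name.val U H (nm (ND1_seg (P := P) j).1) := by
      ext x
      rw [ZFSet.mem_sep, hnm]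
      constructor
      · rintro ⟨hx, hjx⟩
        obtain ⟨a, ha, rfl⟩ := (hW.mem x).1 hx
        obtain ⟨q, hq⟩ := hB.filt.ne
        exact ⟨a, ha, ⟨q, hq, (hW.lt j a hj ha).1 hjx⟩, rfl⟩
      · rintro ⟨a, ha, ⟨q, -, hq⟩, rfl⟩
        exact ⟨(hW.mem _).2 ⟨a, ha, rfl⟩, (hW.lt j a hj ha).2 hq⟩
    rw [e]
    obtain ⟨q, hq⟩ := hB.filt.ne
    refine (hmem _ (hseg j hj)).2 ⟨q, hq, ?_⟩
    obtain ⟨k, hk⟩ := ND1_succ (P := P) (Θ := Θ) (R := R) j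
    have h1 := D.E_seg q.down ⊤ k
    have h2 : (fun ξ : Λ => {_q : P | k ≤ ξ}) = (ND1_seg (P := P) j).1 := by
      funext ξ
      ext r
      exact hk ξ
    show D.E q.down ⊤ (ND1_seg (P := P) j).1
    rw [← h2]
    exact h1

end Pool.CN
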