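import Pool.Agent.Lib.MP_cc7fb1_cn.ND0
import Pool.Agent.Lib.MP_cc7fb1_cn.NA8

/-!
# N-side, row ND4
-/

set_option autoImplicit false
set_option linter.unusedSectionVars false

open Cardinal Set

namespace Pool.CN

open Pool.MP_3ade05_lc Pool.PC Pool.CF Pool.UL Pool.UT Pool.GE

variable {P : Type} [PartialOrder P]

variable {Λ Θ R : Type} [LinearOrder Λ] [WellFoundedLT Λ] [LinearOrder Θ]
    [WellFoundedLT Θ] [PartialOrder R] [OrderTop R] [D : VS P Λ Θ R]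

include D

/-- Inclusion modulo `F`. -/
theorem Ev.subM : Ev (P := PP P) (fun U H => ∀ A A' : RA Λ P, tN (P := PP P) A ∈ U →
    tN (P := PP P) A' ∈ U → (SubM (lam P Λ U H) (FZ P Λ Θ R U H) (Name.val U H (nm A.1))
      (Name.val U H (nm A'.1)) ↔ ∃ q ∈ H, D.E q.down ⊤ (raM A A').1)) := by
  refine ((Ev.raM_val (P := P) Λ).and ((Ev.mem_fN (P := P) Λ).and
    (Ev.seed (P := PP P) (FF P Λ Θ R)))).mono ?_
  rintro U H ⟨hM, hfN, hseed⟩ A A' hA hA'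
  obtain ⟨h1, h2⟩ := hM A A' hA hA'
  obtain ⟨-, -, h3⟩ := hfN _ hseed FF_nice
  unfold SubM
  rw [← h2]
  exact h3 _ h1

/-- Positive sets. -/
theorem Ev.pos : Ev (P := PP P) (fun U H => ∀ A : RA Λ P, tN (P := PP P) A ∈ U →
    (Pos (lam P Λ U H) (FZ P Λ Θ R U H) (Name.val U H (nm A.1)) ↔
      ¬ ∃ q ∈ H, D.E q.down ⊤ (raC A).1)) := by
  refine ((Ev.raC_val (P := P) Λ).and ((Ev.mem_fN (P := P) Λ).and
    (Ev.seed (P := PP P) (FF P Λ Θ R)))).mono ?_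
  rintro U H ⟨hC, hfN, hseed⟩ A hA
  obtain ⟨h1, h2⟩ := hC A hA
  obtain ⟨-, -, h3⟩ := hfN _ hseed FF_nice
  unfold Pos
  rw [← h2]
  exact not_congr (h3 _ h1)

end Pool.CN
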