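import Pool.Agent.Lib.MP_cc7fb1_cn.ND3
import Pool.Agent.Lib.MP_cc7fb1_cn.ND4
import Pool.Agent.Lib.MP_cc7fb1_cn.NA3

/-!
# N-side, row ND5
-/

set_option autoImplicit false
set_option linter.unusedSectionVars false

open Cardinal Set

namespace Pool.CN

open Pool.MP_3ade05_lc Pool.PC Pool.CF Pool.UL Pool.UT Pool.GE

variable {P : Type} [PartialOrder P]

variable {Λ Θ R : Type} [LinearOrder Λ] [WellFoundedLT Λ] [LinearOrder Θ]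
    [WellFoundedLT Θ] [PartialOrder R] [OrderTop R] [D : VS P Λ Θ R]

include D

/-- The dense family. -/
theorem Ev.df : Ev (P := PP P) (fun U H =>
    DF (MM U H) (lam P Λ U H) (FZ P Λ Θ R U H) (DZ P Λ Θ R U H)) := by
  refine (((Ev.wd (P := P) Λ).and (Ev.DZ1 (P := P) (Λ := Λ) (Θ := Θ) (R := R))).and
    (((Ev.subM (P := P) (Λ := Λ) (Θ := Θ) (R := R)).and
      (Ev.pos (P := P) (Λ := Λ) (Θ := Θ) (R := R))).and
    (((Ev.rg_spec (P := P) Λ).and (Ev.mem_nm (P := P) Λ)).and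
      (Ev.genT (P := PP P) (T := RA Λ P) (T' := Λ) 0
        (fun B _ q a => D.E q.down (D.enum a) B.1))))).mono ?_
  rintro U H ⟨⟨hW, hDm, hDf, hDv⟩, ⟨hsub, hpos⟩, ⟨hrg, hnm⟩, hgen⟩
  have hle : ∀ A : Λ → Set P, Name.val U H (nm A) ⊆ lam P Λ U H := by
    intro A x hx
    obtain ⟨a, ha, -, rfl⟩ := (hnm A x).1 hx
    exact (hW.mem _).2 ⟨a, ha, rfl⟩
  refine ⟨hDm, hDf, ?_, ?_, ?_⟩
  · intro a ha
    obtain ⟨j, hj, rfl⟩ := (hW.mem a).1 ha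
    rw [(hDv j hj).2]
    exact hle _
  · intro a ha
    obtain ⟨j, hj, rfl⟩ := (hW.mem a).1 ha
    rw [(hDv j hj).2]
    refine (hpos _ (hDv j hj).1).2 ?_
    rintro ⟨q, -, hq⟩
    exact not_E_perp _ _ hq
  · rintro A ⟨τ, -, hτ, rfl⟩ hAl hAp
    obtain ⟨h1, -, h2⟩ := hrg τ hτ
    have h3 := h2 hAl
    rw [← h3] at hAp ⊢
    have h4 := (hpos _ h1).1 hAp
    rcases hgen (rg Λ τ) h1 Fin.elim0 (fun i => i.elim0) with ⟨q, hq, a, ha, hE⟩ | ⟨p, hp, hn⟩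
    · refine ⟨_, (hW.mem _).2 ⟨a, ha, rfl⟩, ?_⟩
      rw [(hDv a ha).2]
      exact (hsub _ _ (hDv a ha).1 h1).2 ⟨q, hq, E_imp _ _ _ hE⟩
    · exfalso
      refine h4 ⟨p, hp, E_perp _ _ fun b' hb' c hE => ?_⟩
      obtain ⟨a, rfl⟩ := D.enum_surj c
      exact hn ⟨b'⟩ hb' a hE

end Pool.CN
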