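import Pool.Agent.Lib.MP_cc7fb1_cn.ND3
import Pool.Agent.Lib.MP_cc7fb1_cn.ND4
import Pool.Agent.Lib.MP_cc7fb1_cn.NB2

/-!
# N-side, row ND6
-/

set_option autoImplicit false
set_option linter.unusedSectionVars false

open Cardinal Set

namespace Pool.CN

open Pool.MP_3ade05_lc Pool.PC Pool.CF Pool.UL Pool.UT Pool.GE

variable {P : Type} [PartialOrder P]

variable {Λ Θ R : Type} [LinearOrder Λ] [WellFoundedLT Λ] [LinearOrder Θ]
    [WellFoundedLT Θ] [PartialOrder R] [OrderTop R] [D : VS P Λ Θ R]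

include D

/-- A descending sequence of length `< κ` of elements of `R` has a lower bound. -/
lemma ND6_lower (g : KK P Λ Θ R → Λ) (α : Ordinal.{0}) (hα : α < D.κ.ord)
    (h : ∀ j j' : KK P Λ Θ R, j' < j → od j < α → D.enum (g j) ≤ D.enum (g j')) :
    ∃ a : Λ, ∀ j : KK P Λ Θ R, od j < α → D.enum a ≤ D.enum (g j) := by
  by_cases hα0 : ∃ j : KK P Λ Θ R, od j < α
  swap
  · obtain ⟨a, _⟩ := D.enum_surj ⊤
    exact ⟨a, fun j hj => absurd ⟨j, hj⟩ hα0⟩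
  obtain ⟨k, hk⟩ := exists_od (W := KK P Λ Θ R) (α := α) (by rw [ty_KK]; exact hα)
  have hcard : #{j : KK P Λ Θ R | od j < α} < D.κ := by
    have h1 : {j : KK P Λ Θ R | od j < α} = Iio k := by
      ext j
      rw [Set.mem_ofPred_eq, ← hk, od_lt_iff]
      rfl
    rw [h1, ← card_od, hk]
    exact lt_ord.1 hα
  obtain ⟨c, hc⟩ := D.R_dir ((fun j => D.enum (g j)) '' {j : KK P Λ Θ R | od j < α})
    (by obtain ⟨j, hj⟩ := hα0; exact ⟨_, j, hj, rfl⟩) (mk_image_le.trans_lt hcard) (by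
      rintro _ ⟨j, hj, rfl⟩ _ ⟨j', hj', rfl⟩
      rcases lt_trichotomy j j' with h1 | h1 | h1
      · exact ⟨_, ⟨j', hj', rfl⟩, h j' j h1 hj', le_rfl⟩
      · subst h1
        exact ⟨_, ⟨j, hj, rfl⟩, le_rfl, le_rfl⟩
      · exact ⟨_, ⟨j, hj, rfl⟩, le_rfl, h j j' h1 hj⟩)
  obtain ⟨a, rfl⟩ := D.enum_surj c
  exact ⟨a, fun j hj => hc _ ⟨j, hj, rfl⟩⟩

/-- Descending sequences. -/
theorem Ev.descCl : Ev (P := PP P) (fun U H =>
    DescCl (MM U H) (kap P Λ Θ R U H) (lam P Λ U H) (FZ P Λ Θ R U H) (DZ P Λ Θ R U H)) := by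
  classical
  have hne : Nonempty Λ := by
    obtain ⟨a, _⟩ := D.enum_surj ⊤
    exact ⟨a⟩
  let F : (KK P Λ Θ R → Λ) → Ordinal.{0} → (Fin 0 → Name (PP P)) → Λ := fun g α _ =>
    if h : ∃ a : Λ, ∀ j : KK P Λ Θ R, od j < α → D.enum a ≤ D.enum (g j) then h.choose
    else hne.some
  have hgen := Ev.genTO (P := PP P) (T := KK P Λ Θ R → Λ) (T' := KK P Λ Θ R × KK P Λ Θ R) 0
    (fun g α _ _ z => z.2 < z.1 ∧ od z.1 < α ∧ ¬ D.enum (g z.1) ≤ D.enum (g z.2))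
  refine ((((Ev.base (P := PP P)).and ((Ev.wd (P := P) (KK P Λ Θ R)).and
    (Ev.wd (P := P) Λ))).and ((Ev.short (P := P) D.κ D.dir Λ).and
    ((Ev.DZ1 (P := P) (Λ := Λ) (Θ := Θ) (R := R)).and
    (Ev.subM (P := P) (Λ := Λ) (Θ := Θ) (R := R))))).and (hgen.and
    ((Ev.opGO (P := PP P) 0 F).and ((Ev.opT (P := PP P) (T := KK P Λ Θ R × KK P Λ Θ R)
      (T' := KK P Λ Θ R) Prod.fst).and (Ev.opT (P := PP P) (T := KK P Λ Θ R × KK P Λ Θ R)
      (T' := KK P Λ Θ R) Prod.snd))))).mono ?_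
  rintro U H ⟨⟨⟨hB, hwK, hwΛ⟩, hshort, ⟨-, -, hDZ⟩, hsubM⟩, hgen, hF, hfst, hsnd⟩
  intro i hi s hs hfun hval hdesc
  obtain ⟨k, hk, rfl⟩ := (hwK.mem i).1 hi
  obtain ⟨σ, _, hσ, rfl⟩ := hs
  have hkU : ordN (PP P) (od k) ∈ U := (hwK.iff k).2 hk
  have hkκ : od k < D.κ.ord := (od_lt_ty k).trans_eq (ty_KK P Λ Θ R)
  obtain ⟨g, hg, hg'⟩ := hshort σ hσ (od k) hkU hkκ hfun (fun x y hxy => by
    have hx := FunOn.dom hfun hxy
    rw [← (FunOn.ap_eq hfun hx).1 hxy]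
    exact hval x hx)
  -- the elements of `i`
  have hmem : ∀ x ∈ Name.val U H (ordN _ (od k)), ∃ j : KK P Λ Θ R, tN (P := PP P) j ∈ U ∧
      od j < od k ∧ x = Name.val U H (ordN _ (od j)) := by
    intro x hx
    obtain ⟨β, hβ, hβU, rfl⟩ := (mem_val_ordN hB).1 hx
    obtain ⟨j, rfl⟩ := exists_od (W := KK P Λ Θ R) (hβ.trans (od_lt_ty k))
    exact ⟨j, (hwK.iff j).1 hβU, hβ, rfl⟩
  have hmem' : ∀ j : KK P Λ Θ R, tN (P := PP P) j ∈ U → od j < od k →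
      Name.val U H (ordN _ (od j)) ∈ Name.val U H (ordN _ (od k)) := fun j hj hjk =>
    (val_ordN_mem_iff hB ((hwK.iff j).2 hj) hkU).2 hjk
  -- the values
  have hap : ∀ j : KK P Λ Θ R, tN (P := PP P) j ∈ U → od j < od k →
      ap (DZ P Λ Θ R U H) (ap (Name.val U H σ) (Name.val U H (ordN _ (od j)))) =
        Name.val U H (nm (acR P Λ Θ R (D.enum (g j))).1) := by
    intro j hj hjk
    obtain ⟨h1, h2⟩ := hg' j hj hjk
    rw [(FunOn.ap_eq hfun (hmem' j hj hjk)).1 h2]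
    exact (hDZ (g j) h1).2
  have hacU : ∀ a : Λ, tN (P := PP P) a ∈ U → tN (P := PP P) (acR P Λ Θ R (D.enum a)) ∈ U :=
    fun a ha => (hDZ a ha).1
  -- the sequence is descending in the ground model
  have hle : ∀ j j' : KK P Λ Θ R, j' < j → od j < od k → D.enum (g j) ≤ D.enum (g j') := by
    rcases hgen g hg (od k) hkU Fin.elim0 (fun i => i.elim0) with
      ⟨q, hq, z, hz, h1, h2, h3⟩ | ⟨p, hp, hn⟩
    · exfalso
      have hz1 : tN (P := PP P) z.1 ∈ U := hfst z hz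
      have hz2 : tN (P := PP P) z.2 ∈ U := hsnd z hz
      have h2' : od z.2 < od k := (od_lt_iff.2 h1).trans h2
      have h4 := hdesc _ (hmem' z.1 hz1 h2) _ ((hwK.lt z.2 z.1 hz2 hz1).2 h1)
      rw [hap z.1 hz1 h2, hap z.2 hz2 h2'] at h4
      obtain ⟨q', _, hq'⟩ := (hsubM _ _ (hacU _ (hg' z.1 hz1 h2).1)
        (hacU _ (hg' z.2 hz2 h2').1)).1 h4
      exact h3 (le_of_E _ _ _ hq')
    · intro j j' h1 h2
      by_contra h3
      exact hn p le_rfl (j, j') ⟨h1, h2, h3⟩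
  have hex := ND6_lower g (od k) hkκ hle
  have haU : tN (P := PP P) (F g (od k) Fin.elim0) ∈ U :=
    hF g hg (od k) hkU Fin.elim0 (fun i => i.elim0)
  have ha : ∀ j : KK P Λ Θ R, od j < od k → D.enum (F g (od k) Fin.elim0) ≤ D.enum (g j) := by
    have h1 : F g (od k) Fin.elim0 = hex.choose := by
      simp only [F]
      rw [dif_pos hex]
    rw [h1]
    exact hex.choose_spec
  set a : Λ := F g (od k) Fin.elim0 with haa
  refine ⟨Name.val U H (ordN _ (od a)), (hwΛ.mem _).2 ⟨a, haU, rfl⟩, ?_⟩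
  intro x hx
  obtain ⟨j, hj, hjk, rfl⟩ := hmem x hx
  rw [hap j hj hjk, (hDZ a haU).2]
  obtain ⟨q, hq⟩ := hB.filt.ne
  exact (hsubM _ _ (hacU a haU) (hacU _ (hg' j hj hjk).1)).2 ⟨q, hq, E_of_le _ _ _ (ha j hjk)⟩

end Pool.CN
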