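import Pool.Agent.Lib.MP_cc7fb1_cn.NE2
import Pool.Agent.Lib.MP_cc7fb1_cn.NA7
import Pool.Agent.Lib.MP_cc7fb1_cn.NA8

/-!
# N-side, row NE3
-/

set_option autoImplicit false
set_option linter.unusedSectionVars false

open Cardinal Set

namespace Pool.CN

open Pool.MP_3ade05_lc Pool.PC Pool.CF Pool.UL Pool.UT Pool.GE

variable {P : Type} [PartialOrder P]

variable {Λ Θ R : Type} [LinearOrder Λ] [WellFoundedLT Λ] [LinearOrder Θ]
    [WellFoundedLT Θ] [PartialOrder R] [OrderTop R] [D : VS P Λ Θ R]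

include D

open Classical in
/-- The chosen extension. -/
noncomputable def NE3_G (hκ : Indestructible D.κ) (p₀ : P) (v : Fin 1 → Name (PP P)) :
    RA Λ P → Set P :=
  if h : LF D.κ p₀ (gF (Λ := Λ) (v 0) p₀) then (exists_LU hκ D.dir p₀ _ h).choose else fun _ => ∅

lemma NE3_spec (hκ : Indestructible D.κ) (p₀ : P) (v : Fin 1 → Name (PP P))
    (h : LF D.κ p₀ (gF (Λ := Λ) (v 0) p₀)) :
    LF D.κ p₀ (NE3_G hκ p₀ v) ∧ (∀ A, gF (Λ := Λ) (v 0) p₀ A ⊆ NE3_G hκ p₀ v A) ∧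
      ∀ A, ∀ p ≤ p₀, ∃ q ≤ p, q ∈ NE3_G hκ p₀ v A ∨ q ∈ NE3_G hκ p₀ v (raC A) := by
  have h1 : NE3_G hκ p₀ v = (exists_LU hκ D.dir p₀ _ h).choose := by
    unfold NE3_G
    rw [dif_pos h]
  rw [h1]
  exact (exists_LU hκ D.dir p₀ _ h).choose_spec

/-- `κ`-complete filters of the model extend to `κ`-complete ultrafilters. -/
theorem Ev.ext (hκ : Indestructible D.κ) : Ev (P := PP P) (fun U H =>
    Pool.GE.Ext (MM U H) (kap P Λ Θ R U H) (lam P Λ U H)) := by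
  classical
  have hgen := Ev.genT (P := PP P) (T := (RA Λ P → Set P) × RA Λ P) (T' := Unit) 0
    (fun z _ q _ => q.down ∈ z.1 z.2 ∨ q.down ∈ z.1 (raC z.2))
  refine (((((Ev.base (P := PP P)).and ((Ev.wd (P := P) (KK P Λ Θ R)).and
    (Ev.wd (P := P) Λ))).and ((Ev.mem_nm (P := P) Λ).and ((Ev.rg_spec (P := P) Λ).and
    ((Ev.raC_val (P := P) Λ).and ((Ev.mem_fN (P := P) Λ).and (Ev.rs_val (P := P) Λ)))))).and
    ((Ev.rs_force (P := P) Λ).and ((Ev.fN_up (P := P) Λ).and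
    ((Ev.inter_nm (P := P) D.κ D.dir Λ).and (Ev.gF_LF (P := P) (Λ := Λ) (Θ := Θ) (R := R)))))).and
    (hgen.and ((Ev.pairT (P := PP P) (RA Λ P → Set P) (RA Λ P)).and
    ((Ev.opG (P := PP P) 1 (NE3_G (Λ := Λ) (Θ := Θ) (R := R) hκ)).and
    ((Ev.opG (P := PP P) (T := Unit) 1 (fun _ v => fun j : KK P Λ Θ R => rs Λ (v 0) (od j))).and
    (Ev.seed (P := PP P) ())))))).mono ?_
  rintro U H ⟨⟨⟨⟨hB, hwK, hwΛ⟩, hnm, hrg, hraC, hfN, hrs⟩, hforce, hup, hinter, hgF⟩, hgen, hpair,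
    hopG, hopR, hunit⟩
  intro G hG
  obtain ⟨γ, _, hγ, rfl⟩ := hG.mem
  obtain ⟨p₀, hp₀, hp₀H, hLF, hiff⟩ := hgF γ hγ hG
  have hv : ∀ i, (fun _ : Fin 1 => γ) i ∈ U := fun _ => hγ
  obtain ⟨hL, hsub, hultra⟩ := NE3_spec hκ p₀ (fun _ => γ) hLF
  set F : RA Λ P → Set P := NE3_G hκ p₀ (fun _ => γ) with hF
  have hFU : tN (P := PP P) F ∈ U := hopG p₀ hp₀ (fun _ => γ) hv
  obtain ⟨hfNU, hfN1, hfN2⟩ := hfN F hFU hL.toNice
  obtain ⟨hu1, hu2, hu3, hu4⟩ := hup F hFU hL.toNice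
  have hmono : ∀ A, ∀ p ∈ F A, ∀ q ≤ p, q ∈ F A := fun A => (hL.reg A).1
  refine ⟨Name.val U H (fN F), ⟨⟨hu1, hu2, hu3, ?_, ?_⟩, ?_⟩, ?_⟩
  · -- proper
    intro h
    obtain ⟨q, hq, h1⟩ := hu4.1 h
    obtain ⟨r, hr, h2, h3⟩ := hB.filt.dir q hq _ hp₀H
    exact hL.proper r.down h3 (hmono _ _ h1 _ h2)
  · -- complete
    intro a ha C hC hfun hval
    obtain ⟨k, hk, rfl⟩ := (hwK.mem a).1 ha
    obtain ⟨σ, _, hσ, rfl⟩ := hC
    have hkU : ordN (PP P) (od k) ∈ U := (hwK.iff k).2 hk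
    have hkκ : od k < D.κ.ord := (od_lt_ty k).trans_eq (ty_KK P Λ Θ R)
    obtain ⟨p, hp, hpF⟩ := hforce F hFU hL.toNice σ hσ (od k) hkU hfun (fun x y hxy => by
      have hx := FunOn.dom hfun hxy
      rw [← (FunOn.ap_eq hfun hx).1 hxy]
      exact hval x hx)
    obtain ⟨r, hr, h2, h3⟩ := hB.filt.dir p hp _ hp₀H
    set A : KK P Λ Θ R → RA Λ P := fun j => rs Λ σ (od j) with hA
    have hAU : tN (P := PP P) A ∈ U := hopR () hunit (fun _ => σ) (fun _ => hσ)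
    obtain ⟨hIU, hI⟩ := hinter A hAU (od k) hkU hkκ
    have hcard : #{j : KK P Λ Θ R | od j < od k} < D.κ := by
      have h1 : {j : KK P Λ Θ R | od j < od k} = Iio k := by
        ext j
        rw [Set.mem_ofPred_eq, od_lt_iff]
        rfl
      rw [h1, ← card_od]
      exact lt_ord.1 hkκ
    have hcomp := hL.comp {j : KK P Λ Θ R | od j < od k} (fun j => A j.1) hcard r.down h3
      (fun j => hmono _ _ (hpF (od j.1) j.2) _ h2)
    have heq : raI (fun j : {j : KK P Λ Θ R | od j < od k} => A j.1) univ =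
        raI A {j | od j < od k} := by
      apply Subtype.ext
      funext b
      ext q
      constructor
      · intro h j hj
        exact h ⟨j, hj⟩ (mem_univ _)
      · intro h j _
        exact h j.1 j.2
    rw [heq] at hcomp
    have hmem := (hfN2 _ hIU).2 ⟨r, hr, hcomp⟩
    have hsep : Name.val U H (nm (raI A {j | od j < od k}).1) =
        ZFSet.sep (fun y => ∀ x ∈ Name.val U H (ordN _ (od k)), y ∈ ap (Name.val U H σ) x)
          (lam P Λ U H) := by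
      -- the values of the sequence
      have hap : ∀ j : KK P Λ Θ R, tN (P := PP P) j ∈ U → od j < od k →
          Name.val U H (nm (A j).1) = ap (Name.val U H σ) (Name.val U H (ordN _ (od j))) := by
        intro j hj hjk
        have hjU := (hwK.iff j).2 hj
        have hx : Name.val U H (ordN _ (od j)) ∈ Name.val U H (ordN _ (od k)) :=
          (val_ordN_mem_iff hB hjU hkU).2 hjk
        refine (hrs σ hσ (od j) hjU).2 _ (FunOn.ap_mem hfun hx) (fun y' hy' => ?_) ?_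
        · exact ((FunOn.ap_eq hfun hx).1 hy').symm
        · exact hu2 _ (hval _ hx)
      ext y
      rw [hnm, ZFSet.mem_sep]
      constructor
      · rintro ⟨b, hb, hq, rfl⟩
        refine ⟨(hwΛ.mem _).2 ⟨b, hb, rfl⟩, ?_⟩
        intro x hx
        obtain ⟨β, hβ, hβU, rfl⟩ := (mem_val_ordN hB).1 hx
        obtain ⟨j, rfl⟩ := exists_od (W := KK P Λ Θ R) (hβ.trans (od_lt_ty k))
        have hj := (hwK.iff j).1 hβU
        rw [← hap j hj hβ, hnm]
        exact ⟨b, hb, (hI b hb).1 hq j hj hβ, rfl⟩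
      · rintro ⟨h4, h5⟩
        obtain ⟨b, hb, rfl⟩ := (hwΛ.mem _).1 h4
        refine ⟨b, hb, (hI b hb).2 ?_, rfl⟩
        intro j hj hjk
        have hx : Name.val U H (ordN _ (od j)) ∈ Name.val U H (ordN _ (od k)) :=
          (val_ordN_mem_iff hB ((hwK.iff j).2 hj) hkU).2 hjk
        have h6 := h5 _ hx
        rw [← hap j hj hjk, hnm] at h6
        obtain ⟨b', hb', h7, h8⟩ := h6
        obtain rfl := hwΛ.inj b b' hb hb' h8
        exact h7
    rw [← hsep]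
    exact hmem
  · -- ultra
    intro A hA hAl
    obtain ⟨τ, _, hτ, rfl⟩ := hA
    obtain ⟨h1, -, h2⟩ := hrg τ hτ
    have h2 := h2 hAl
    obtain ⟨h3, h4⟩ := hraC _ h1
    rcases hgen (F, rg Λ τ) (hpair _ _ hFU h1) Fin.elim0 (fun i => i.elim0) with
      ⟨q, hq, _, _, h5⟩ | ⟨p, hp, hn⟩
    · rcases h5 with h5 | h5
      · left
        rw [← h2]
        exact (hfN2 _ h1).2 ⟨q, hq, h5⟩
      · right
        rw [← h2, ← h4]
        exact (hfN2 _ h3).2 ⟨q, hq, h5⟩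
    · exfalso
      obtain ⟨r, hr, h5, h6⟩ := hB.filt.dir p hp _ hp₀H
      obtain ⟨q, hq, h7⟩ := hultra (rg Λ τ) r.down h6
      exact hn ⟨q⟩ (le_trans (show (⟨q⟩ : PP P) ≤ r from hq) h5) () h7
  · -- extension
    intro x hx
    obtain ⟨i, hi, _, hxe⟩ := Name.mem_val.1 hx
    have hxl := hG.sub x hx
    obtain ⟨h1, -, h2⟩ := hrg (γ.A i) hi
    rw [← hxe] at h2
    have h2 := h2 hxl
    rw [← h2] at hx
    obtain ⟨q, hq, h3⟩ := (hiff _ h1).1 hx
    rw [← h2]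
    exact (hfN2 _ h1).2 ⟨q, hq, hsub _ h3⟩

end Pool.CN
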