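import Pool.Agent.Lib.MP_cc7fb1_cn.NC1
import Pool.Agent.Lib.MP_cc7fb1_cn.NC2
import Pool.Agent.Lib.MP_cc7fb1_cn.NC3
import Pool.Agent.Lib.MP_cc7fb1_cn.NC4
import Pool.Agent.Lib.MP_cc7fb1_cn.NC5
import Pool.Agent.Lib.MP_cc7fb1_cn.NC6
import Pool.Agent.Lib.MP_cc7fb1_cn.NC7
import Pool.Agent.Lib.MP_cc7fb1_cn.NC8
import Pool.Agent.Lib.MP_cc7fb1_cn.NC9
import Pool.Agent.Lib.MP_cc7fb1_cn.ND1
import Pool.Agent.Lib.MP_cc7fb1_cn.ND2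
import Pool.Agent.Lib.MP_cc7fb1_cn.ND5
import Pool.Agent.Lib.MP_cc7fb1_cn.ND6
import Pool.Agent.Lib.MP_cc7fb1_cn.NE3
import Pool.Agent.Lib.MP_cc7fb1_ge.GMain

/-!
# N-side: the model
-/

set_option autoImplicit false
set_option linter.unusedSectionVars false

open Cardinal Set

namespace Pool.CN

open Pool.MP_3ade05_lc Pool.PC Pool.CF Pool.UL Pool.UT Pool.GE

variable {P : Type} [PartialOrder P]

variable {Λ Θ R : Type} [LinearOrder Λ] [WellFoundedLT Λ] [LinearOrder Θ]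
    [WellFoundedLT Θ] [PartialOrder R] [OrderTop R] [D : VS P Λ Θ R]

/-- The cardinals of the model. -/
theorem Ev.gs : Ev (P := PP P) (fun U H =>
    GS (MM U H) (kap P Λ Θ R U H) (lam P Λ U H) (del P Θ U H)) := by
  have e1 := ((Ev.zf (P := PP P)).and (Ev.choice (P := PP P))).and (Ev.base (P := PP P))
  have e2 := ((Ev.wd (P := P) (KK P Λ Θ R)).and ((Ev.wd (P := P) Λ).and (Ev.wd (P := P) Θ)))
  have e3 := (Ev.card_kap (P := P) (Λ := Λ) (Θ := Θ) (R := R)).and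
    ((Ev.card_lam (P := P) (Λ := Λ) (Θ := Θ) (R := R)).and
      (Ev.card_del (P := P) (Λ := Λ) (Θ := Θ) (R := R)))
  have e4 := (Ev.lam_cov (P := P) (Λ := Λ) (Θ := Θ) (R := R)).and
    (Ev.del_cov (P := P) (Λ := Λ) (Θ := Θ) (R := R))
  have e5 := (Ev.reg (P := P) (Λ := Λ) (Θ := Θ) (R := R)).and
    (Ev.SL (P := P) (Λ := Λ) (Θ := Θ) (R := R))
  have e6 := (Ev.sq (P := P) (Λ := Λ) (Θ := Θ) (R := R)).and
    (Ev.PK (P := P) (Λ := Λ) (Θ := Θ) (R := R))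
  refine (((e1.and e2).and (e3.and e4)).and (e5.and e6)).mono ?_
  rintro U H ⟨⟨⟨⟨⟨hzf, hch⟩, hB⟩, hK, hΛ, hΘ⟩, ⟨h1, h2, h3⟩, h4, h5⟩, ⟨h6, h7⟩, ⟨h8, h9⟩, h10⟩
  have hκΛ : ty (KK P Λ Θ R) < ty Λ := by
    rw [ty_KK, ty_Λ P Λ Θ R]
    exact ord_lt_ord.2 D.κ_lt
  have hΛΘ : ty Λ < ty Θ := by
    rw [ty_Λ P Λ Θ R, ty_Θ P Λ Θ R]
    exact ord_lt_ord.2 D.Λ_lt
  refine ⟨fun x hx y hy => MM_trans hx hy, ⟨hzf, hch⟩, h1, h2, h3, ?_,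
    (val_ordN_mem_iff hB hK.ty_mem hΛ.ty_mem).2 hκΛ,
    (val_ordN_mem_iff hB hΛ.ty_mem hΘ.ty_mem).2 hΛΘ, h4, h5, h6, h7, h8, h9, h10⟩
  rw [← val_ordN_omega hB]
  refine (val_ordN_mem_iff hB hB.omega hK.ty_mem).2 ?_
  rw [ty_KK, lt_ord, Ordinal.card_omega0]
  exact D.κ_unc

/-- The normal filter of the model. -/
theorem Ev.nf : Ev (P := PP P) (fun U H =>
    NF (MM U H) (lam P Λ U H) (FZ P Λ Θ R U H)) := by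
  refine (((Ev.FZ1 (P := P) (Λ := Λ) (Θ := Θ) (R := R)).and
    (Ev.FZ2 (P := P) (Λ := Λ) (Θ := Θ) (R := R))).and
    ((Ev.fN_up (P := P) Λ).and (Ev.seed (P := PP P) (FF P Λ Θ R)))).mono ?_
  rintro U H ⟨⟨⟨h1, h2, h3⟩, h4⟩, h5, h6⟩
  obtain ⟨h7, h8, h9, -⟩ := h5 _ h6 FF_nice
  exact ⟨h7, h8, fun A hA B hB hBl hAB => h9 A hA B hB hBl hAB, h1, h2, h3, h4⟩

/-- THE MODEL -/
theorem exists_model (hκ : Indestructible D.κ) :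
    ∃ V : Set ZFSet.{0}, V.Countable ∧ (∀ x ∈ V, ∀ y ∈ x, y ∈ V) ∧ ∃ k l d u : ZFSet.{0},
      GS V k l d ∧ UFk V k l u ∧ UnifUF V l u ∧ GalE V l d u := by
  obtain ⟨p₀⟩ := D.ne
  obtain ⟨U, H, hU, hH, -, ⟨⟨h1, h2⟩, h3, h4⟩, h5⟩ :=
    ((((Ev.gs (P := P) (Λ := Λ) (Θ := Θ) (R := R)).and
      (Ev.nf (P := P) (Λ := Λ) (Θ := Θ) (R := R))).and
      ((Ev.df (P := P) (Λ := Λ) (Θ := Θ) (R := R)).and
      (Ev.descCl (P := P) (Λ := Λ) (Θ := Θ) (R := R)))).and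
      (Ev.ext (P := P) (Λ := Λ) (Θ := Θ) (R := R) hκ)).exists_hull (⟨p₀⟩ : PP P)
  obtain ⟨u, h6, h7, -, h8⟩ := galvin_in_E h1 h2 h3 h4 h5
  exact ⟨MM U H, MM_countable hU, fun x hx y hy => MM_trans hx hy, _, _, _, u, h1, h6, h7, h8⟩

end Pool.CN
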