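import Pool.Agent.Lib.MP_cc7fb1_cn.Df

/-!
# N-side, row NA1
-/

set_option autoImplicit false
set_option linter.unusedSectionVars false

open Cardinal Set

namespace Pool.CN

open Pool.MP_3ade05_lc Pool.PC Pool.CF Pool.UL Pool.UT Pool.GE

variable {P : Type} [PartialOrder P]

/-- The elements of `W` in the model. -/
theorem Ev.wd (W : Type) [LinearOrder W] [WellFoundedLT W] :
    Ev (P := PP P) (fun U H => Wd W U H) := by
  have hinj : Function.Injective (fun a : W => ordN (PP P) (od a)) := fun a b h =>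
    od_injective (ordN_injective h)
  refine ((Ev.base (P := PP P)).and ((Ev.opN (P := PP P) (fun a : W => ordN (PP P) (od a))).and
    ((Ev.invN (P := PP P) (fun a : W => ordN (PP P) (od a)) hinj).and
      (Ev.seedN (P := PP P) (ordN (PP P) (ty W)))))).mono ?_
  rintro U H ⟨hB, h1, h2, h3⟩
  refine ⟨fun a => ⟨h2 a, h1 a⟩, h3, fun x => ?_, fun a b ha hb h => ?_, fun a b ha hb => ?_⟩
  · rw [mem_val_ordN hB]
    constructor
    · rintro ⟨β, hβ, hU, rfl⟩
      obtain ⟨a, rfl⟩ := exists_od hβ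
      exact ⟨a, h2 a hU, rfl⟩
    · rintro ⟨a, ha, rfl⟩
      exact ⟨od a, od_lt_ty a, h1 a ha, rfl⟩
  · exact od_injective ((val_ordN_inj hB (h1 a ha) (h1 b hb)).1 h)
  · rw [val_ordN_mem_iff hB (h1 a ha) (h1 b hb), od_lt_iff]

end Pool.CN
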