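import Pool.Agent.Lib.MP_cc7fb1_cn.NA1

/-!
# N-side, row NA2
-/

set_option autoImplicit false
set_option linter.unusedSectionVars false

open Cardinal Set

namespace Pool.CN

open Pool.MP_3ade05_lc Pool.PC Pool.CF Pool.UL Pool.UT Pool.GE

variable {P : Type} [PartialOrder P]

/-- Elements of the value of `nm A`. -/
theorem Ev.mem_nm (W : Type) [LinearOrder W] [WellFoundedLT W] :
    Ev (P := PP P) (fun U H => ∀ (A : W → Set P) (x : ZFSet.{0}),
      x ∈ Name.val U H (nm A) ↔ ∃ a : W, tN (P := PP P) a ∈ U ∧ (∃ q ∈ H, q.down ∈ A a) ∧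
        x = Name.val U H (ordN _ (od a))) := by
  refine ((Ev.wd W).and Ev.base).mono ?_
  rintro U H ⟨hW, hB⟩ A x
  rw [Name.mem_val]
  constructor
  · rintro ⟨a, ha, ⟨q, hq, r, hr, hqr⟩, hx⟩
    exact ⟨a, (hW.iff a).1 ha, ⟨⟨r⟩, hB.filt.up q hq ⟨r⟩ hqr, hr⟩, hx⟩
  · rintro ⟨a, ha, ⟨q, hq, hqA⟩, hx⟩
    exact ⟨a, (hW.iff a).2 ha, ⟨q, hq, q.down, hqA, le_rfl⟩, hx⟩

lemma NA2_lw_inj {A A' : Set P} (hA : RegOpen A) (hA' : RegOpen A') (h : lw A = lw A') :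
    A = A' := by
  have key : ∀ {B : Set P}, RegOpen B → ∀ q : P, q ∈ B ↔ (⟨q⟩ : PP P) ∈ lw B := by
    intro B hB q
    constructor
    · intro hq
      exact ⟨q, hq, le_rfl⟩
    · rintro ⟨r, hr, hqr⟩
      exact hB.1 r hr q hqr
  ext q
  rw [key hA, key hA', h]

lemma NA2_nm_inj (W : Type) [LinearOrder W] [WellFoundedLT W] :
    Function.Injective (fun A : RA W P => nm A.1) := by
  intro A A' h
  have h' : nm A.1 = nm A'.1 := h
  unfold nm at h'
  injection h' with h1 h2 h3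
  apply Subtype.ext
  funext a
  exact NA2_lw_inj (A.2 a) (A'.2 a) (congrFun h3 a)

theorem Ev.nm_iff (W : Type) [LinearOrder W] [WellFoundedLT W] :
    Ev (P := PP P) (fun U _ => ∀ A : RA W P, nm A.1 ∈ U ↔ tN (P := PP P) A ∈ U) := by
  refine ((Ev.opN (P := PP P) (fun A : RA W P => nm A.1)).and
    (Ev.invN (P := PP P) (fun A : RA W P => nm A.1) (NA2_nm_inj W))).mono ?_
  rintro U H ⟨h1, h2⟩ A
  exact ⟨h2 A, h1 A⟩

end Pool.CN
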