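import Pool.Agent.Lib.MP_cc7fb1_cn.Df

/-!
# N-side, row ND0
-/

set_option autoImplicit false
set_option linter.unusedSectionVars false

open Cardinal Set

namespace Pool.CN

open Pool.MP_3ade05_lc Pool.PC Pool.CF Pool.UL Pool.UT Pool.GE

variable {P : Type} [PartialOrder P]

variable {Λ Θ R : Type} [LinearOrder Λ] [WellFoundedLT Λ] [LinearOrder Θ]
    [WellFoundedLT Θ] [PartialOrder R] [OrderTop R] [D : VS P Λ Θ R]

include D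

theorem ND0_reg_of (A : RA Λ P) (b : P)
    (h : ∀ b' ≤ b, ∃ b'' ≤ b', D.E b'' (⊤ : R) A.1) : D.E b (⊤ : R) A.1 := by
  refine D.E_reg b ⊤ A.1 A.2 fun b' hb' c' hc' => ?_
  obtain ⟨b'', hb'', h1⟩ := h b' hb'
  exact ⟨b'', hb'', c', le_rfl, D.E_mono _ _ _ _ _ le_rfl hc' h1⟩

theorem FF_nice : Nice (FF P Λ Θ R) where
  reg A := ⟨fun p hp q hq => D.E_mono _ _ _ _ _ hq le_rfl hp, fun p h => ND0_reg_of A p h⟩
  up A A' p hp h := D.E_sub p ⊤ A.1 A'.1 A.2 A'.2 h hp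

theorem E_imp (b : P) (c : R) (A : RA Λ P) (h : D.E b c A.1) :
    D.E b ⊤ (raM (acR P Λ Θ R c) A).1 := by
  refine D.E_reg b ⊤ _ (raM (acR P Λ Θ R c) A).2 fun b' hb' c' _ => ?_
  by_cases hcc : ∃ d ≤ c', d ≤ c
  · obtain ⟨d, hd1, hd2⟩ := hcc
    refine ⟨b', le_rfl, d, hd1, ?_⟩
    refine D.E_sub b' d A.1 _ A.2 (raM (acR P Λ Θ R c) A).2 ?_ (D.E_mono _ _ _ _ _ hb' hd2 h)
    intro ξ q _ hq r hr _
    exact (A.2 ξ).1 q hq r hr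
  · refine ⟨b', le_rfl, c', le_rfl, ?_⟩
    refine D.E_sub b' c' (D.AC c') _ (D.AC_reg c') (raM (acR P Λ Θ R c) A).2 ?_ (D.E_AC b' c')
    intro ξ q _ hq r hr hr'
    have h1 : r ∈ D.AC c' ξ ∩ D.AC c ξ := ⟨(D.AC_reg c' ξ).1 q hq r hr, hr'⟩
    rw [D.AC_disj c' c (fun d hd hd' => hcc ⟨d, hd, hd'⟩) ξ] at h1
    exact absurd h1 (notMem_empty _)

theorem E_perp (b : P) (A : RA Λ P) (h : ∀ b' ≤ b, ∀ c : R, ¬ D.E b' c A.1) :
    D.E b ⊤ (raC A).1 := by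
  refine D.E_reg b ⊤ _ (raC A).2 fun b' hb' c' _ => ?_
  obtain ⟨b'', hb'', c'', hc'', h1⟩ := D.E_dec b' c' A.1 A.2
  rcases h1 with h1 | h1
  · exact absurd h1 (h b'' (hb''.trans hb') c'')
  · exact ⟨b'', hb'', c'', hc'', h1⟩

theorem not_E_perp (b : P) (c : R) : ¬ D.E b ⊤ (raC (acR P Λ Θ R c)).1 := by
  intro h
  have h1 := D.E_mono b ⊤ b c _ le_rfl le_top h
  have h2 := D.E_inter b c _ _ (raC (acR P Λ Θ R c)).2 (D.AC_reg c) h1 (D.E_AC b c)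
  have h3 : (fun ξ => (raC (acR P Λ Θ R c)).1 ξ ∩ D.AC c ξ) = fun _ => (∅ : Set P) := by
    funext ξ
    ext q
    constructor
    · rintro ⟨g1, g2⟩
      exact absurd g2 (g1 q le_rfl)
    · intro hq
      exact absurd hq (notMem_empty q)
  rw [h3] at h2
  exact D.E_bot b c h2

theorem le_of_E (b : P) (c c' : R) (h : D.E b ⊤ (raM (acR P Λ Θ R c) (acR P Λ Θ R c')).1) :
    c ≤ c' := by
  by_contra hcc
  obtain ⟨c'', h1, h2⟩ := D.R_sep c' c hcc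
  have h3 := D.E_mono b ⊤ b c'' _ le_rfl le_top h
  have h4 := D.E_inter b c'' _ _ (raM (acR P Λ Θ R c) (acR P Λ Θ R c')).2 (D.AC_reg c'') h3
    (D.E_AC b c'')
  have h5 : (fun ξ => (raM (acR P Λ Θ R c) (acR P Λ Θ R c')).1 ξ ∩ D.AC c'' ξ) =
      fun _ => (∅ : Set P) := by
    funext ξ
    ext q
    constructor
    · rintro ⟨g1, g2⟩
      have g3 : q ∈ D.AC c'' ξ ∩ D.AC c' ξ := ⟨g2, g1 q le_rfl (D.AC_mono c c'' h1 ξ g2)⟩
      rw [D.AC_disj c'' c' h2 ξ] at g3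
      exact absurd g3 (notMem_empty q)
    · intro hq
      exact absurd hq (notMem_empty q)
  rw [h5] at h4
  exact D.E_bot b c'' h4

theorem E_of_le (b : P) (c c' : R) (h : c ≤ c') :
    D.E b ⊤ (raM (acR P Λ Θ R c) (acR P Λ Θ R c')).1 := by
  refine D.E_sub b ⊤ (D.AC ⊤) _ (D.AC_reg ⊤) (raM (acR P Λ Θ R c) (acR P Λ Θ R c')).2 ?_
    (D.E_AC b ⊤)
  intro ξ q _ _ r _ hr
  exact D.AC_mono c' c h ξ hr

end Pool.CN
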