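import Pool.Agent.Lib.MP_cc7fb1_cn.ND0
import Pool.Agent.Lib.MP_cc7fb1_cn.NA7
import Pool.Agent.Lib.MP_cc7fb1_cn.NA8

/-!
# N-side, row ND2
-/

set_option autoImplicit false
set_option linter.unusedSectionVars false

open Cardinal Set

namespace Pool.CN

open Pool.MP_3ade05_lc Pool.PC Pool.CF Pool.UL Pool.UT Pool.GE

/-- The nice name of the diagonal intersection of the values of the function named by `σ`. -/
private noncomputable def ND2_dg {P : Type} [PartialOrder P] (W : Type) [LinearOrder W]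
    [WellFoundedLT W] (σ : Name (PP P)) : RA W P :=
  ⟨fun ξ => {q | ∀ ν < ξ, q ∈ (rs W σ (od ν)).1 ξ}, fun ξ =>
    ⟨fun p h q hq ν hν => ((rs W σ (od ν)).2 ξ).1 p (h ν hν) q hq,
      fun p h ν hν => ((rs W σ (od ν)).2 ξ).2 p fun q hq => by
        obtain ⟨r, hr, h1⟩ := h q hq
        exact ⟨r, hr, h1 ν hν⟩⟩⟩

variable {P : Type} [PartialOrder P]

variable {Λ Θ R : Type} [LinearOrder Λ] [WellFoundedLT Λ] [LinearOrder Θ]
    [WellFoundedLT Θ] [PartialOrder R] [OrderTop R] [D : VS P Λ Θ R]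

include D

/-- Diagonal intersections. -/
theorem Ev.FZ2 : Ev (P := PP P) (fun U H => ∀ C ∈ MM U H, FunOn C (lam P Λ U H) →
    (∀ x ∈ lam P Λ U H, ap C x ∈ FZ P Λ Θ R U H) →
      ZFSet.sep (fun y => ∀ x ∈ y, y ∈ ap C x) (lam P Λ U H) ∈ FZ P Λ Θ R U H) := by
  have e1 := ((Ev.zf (P := PP P)).and (Ev.choice (P := PP P))).and (Ev.base (P := PP P))
  have e2 := (Ev.wd (P := P) Λ).and (Ev.mem_nm (P := P) Λ)
  have e3 := ((Ev.mem_fN (P := P) Λ).and (Ev.fN_up (P := P) Λ)).and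
    ((Ev.rs_val (P := P) Λ).and (Ev.rs_force (P := P) Λ))
  have e4 := (Ev.seed (P := PP P) (FF P Λ Θ R)).and ((Ev.seed (P := PP P) ()).and
    (Ev.opG (P := PP P) (T := Unit) 1 (fun _ v => ND2_dg Λ (v 0))))
  refine ((e1.and e2).and (e3.and e4)).mono ?_
  rintro U H ⟨⟨⟨⟨hzf, hch⟩, hB⟩, hW, hnm⟩, ⟨⟨hfN, hup⟩, hrs, hfo⟩, hF, hunit, hdg⟩ C
    ⟨σ, _, hσ, rfl⟩ hC hv
  have hN : Nice (FF P Λ Θ R) := FF_nice
  obtain ⟨hup1, hup2, hup3, -⟩ := hup _ hF hN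
  obtain ⟨-, -, hfN3⟩ := hfN _ hF hN
  obtain ⟨p, hp, hpE⟩ := hfo _ hF hN σ hσ (ty Λ) hW.ty_mem hC (by
    intro x y hxy
    have hx := FunOn.dom hC hxy
    rw [← (FunOn.ap_eq hC hx).1 hxy]
    exact hv x hx)
  have hdgU : tN (P := PP P) (ND2_dg (P := P) Λ σ) ∈ U :=
    hdg () hunit ![σ] (by intro i; fin_cases i; exact hσ)
  have hdF : p.down ∈ FF P Λ Θ R (ND2_dg Λ σ) :=
    D.E_diag p.down ⊤ (fun ν => (rs Λ σ (od ν)).1) (fun ν ξ => (rs Λ σ (od ν)).2 ξ)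
      (fun ν => hpE (od ν) (od_lt_ty ν))
  have hmem : Name.val U H (nm (ND2_dg (P := P) Λ σ).1) ∈ FZ P Λ Θ R U H :=
    (hfN3 _ hdgU).2 ⟨p, hp, hdF⟩
  haveI : TC (MM U H) :=
    { trans := fun x hx y hy => MM_trans hx hy
      zf := hzf
      choice := hch }
  haveI : InE (MM U H) (Name.val U H σ) := ⟨mem_MM hσ⟩
  haveI : InE (MM U H) (lam P Λ U H) := ⟨mem_MM hW.ty_mem⟩
  have hsE : ZFSet.sep (fun y => ∀ x ∈ y, y ∈ ap (Name.val U H σ) x) (lam P Λ U H) ∈ MM U H :=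
    mem_of (E := MM U H)
      (ZFSet.sep (fun y => ∀ x ∈ y, y ∈ ap (Name.val U H σ) x) (lam P Λ U H))
  refine hup3 _ hmem _ hsE (fun z hz => (ZFSet.mem_sep.1 hz).1) ?_
  intro x hx
  rw [hnm] at hx
  obtain ⟨a, ha, ⟨q, hq, hqa⟩, rfl⟩ := hx
  have hxl : Name.val U H (ordN (PP P) (od a)) ∈ lam P Λ U H := (hW.mem _).2 ⟨a, ha, rfl⟩
  refine ZFSet.mem_sep.2 ⟨hxl, ?_⟩
  intro z hz
  obtain ⟨β, hβ, hβU, rfl⟩ := (mem_val_ordN hB).1 hz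
  obtain ⟨ν, rfl⟩ := exists_od (W := Λ) (hβ.trans (od_lt_ty a))
  have hν : tN (P := PP P) ν ∈ U := (hW.iff ν).1 hβU
  have hzl : Name.val U H (ordN (PP P) (od ν)) ∈ lam P Λ U H := (hW.mem _).2 ⟨ν, hν, rfl⟩
  obtain ⟨h1, h2⟩ := hrs σ hσ (od ν) hβU
  have h3 := h2 _ (FunOn.ap_mem hC hzl) (fun y' hy' => ((FunOn.ap_eq hC hzl).1 hy').symm)
    (hup2 _ (hv _ hzl))
  rw [← h3, hnm]
  exact ⟨a, ha, ⟨q, hq, hqa ν (od_lt_iff.1 hβ)⟩, rfl⟩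

end Pool.CN
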