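import Pool.Agent.Lib.MP_cc7fb1_cn.NA2

/-!
# N-side, row ND3
-/

set_option autoImplicit false
set_option linter.unusedSectionVars false

open Cardinal Set

namespace Pool.CN

open Pool.MP_3ade05_lc Pool.PC Pool.CF Pool.UL Pool.UT Pool.GE

variable {P : Type} [PartialOrder P]

variable {Λ Θ R : Type} [LinearOrder Λ] [WellFoundedLT Λ] [LinearOrder Θ]
    [WellFoundedLT Θ] [PartialOrder R] [OrderTop R] [D : VS P Λ Θ R]

include D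

/-- The values of the dense family. -/
theorem Ev.DZ1 : Ev (P := PP P) (fun U H => DZ P Λ Θ R U H ∈ MM U H ∧
    FunOn (DZ P Λ Θ R U H) (lam P Λ U H) ∧ ∀ a : Λ, tN (P := PP P) a ∈ U →
      tN (P := PP P) (acR P Λ Θ R (D.enum a)) ∈ U ∧
      ap (DZ P Λ Θ R U H) (Name.val U H (ordN _ (od a))) =
        Name.val U H (nm (acR P Λ Θ R (D.enum a)).1)) := by
  have h1 := Ev.seedN (P := PP P) (DN P Λ Θ R)
  have h2 := Ev.opT (P := PP P) (fun a : Λ => acR P Λ Θ R (D.enum a))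
  refine (((Ev.base (P := PP P)).and ((Ev.wd (P := P) Λ).and (Ev.nm_iff (P := P) Λ))).and
    ((Ev.parts (P := PP P)).and (h1.and h2))).mono ?_
  rintro U H ⟨⟨hB, hΛ, hnm⟩, hparts, hD, hop⟩
  have hac : ∀ a : Λ, tN (P := PP P) a ∈ U → tN (P := PP P) (acR P Λ Θ R (D.enum a)) ∈ U :=
    fun a ha => hop a ha
  have key : ∀ k : (DN P Λ Θ R).ι, ∃ a : Λ, (DN P Λ Θ R).A k =
      oN (ordN (PP P) (od a)) (nm (acR P Λ Θ R (D.enum a)).1) := fun k => ⟨k, rfl⟩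
  have hpair : ∀ x y : ZFSet.{0}, ZFSet.pair x y ∈ DZ P Λ Θ R U H ↔ ∃ a : Λ,
      tN (P := PP P) a ∈ U ∧ x = Name.val U H (ordN _ (od a)) ∧
        y = Name.val U H (nm (acR P Λ Θ R (D.enum a)).1) := by
    intro x y
    obtain ⟨q, hq⟩ := hB.filt.ne
    rw [Name.mem_val]
    constructor
    · rintro ⟨k, hkU, -, e⟩
      obtain ⟨a, ha⟩ := key k
      rw [ha] at hkU e
      obtain ⟨h3, h4⟩ := hparts _ _ hkU
      rw [val_oN hB h3 h4] at e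
      obtain ⟨e1, e2⟩ := ZFSet.pair_injective e
      exact ⟨a, (hΛ.iff a).1 h3, e1, e2⟩
    · rintro ⟨a, ha, rfl, rfl⟩
      have h3 := (hΛ.iff a).2 ha
      have h4 : nm (acR P Λ Θ R (D.enum a)).1 ∈ U := (hnm _).2 (hac a ha)
      refine ⟨a, oN_mem hB h3 h4, ⟨q, hq, trivial⟩, ?_⟩
      exact (val_oN hB h3 h4).symm
  have hF : FunOn (DZ P Λ Θ R U H) (lam P Λ U H) := by
    refine ⟨fun z hz => ?_, fun x hx => ?_⟩
    · obtain ⟨k, hkU, -, rfl⟩ := Name.mem_val.1 hz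
      obtain ⟨a, ha⟩ := key k
      rw [ha] at hkU ⊢
      obtain ⟨h3, h4⟩ := hparts _ _ hkU
      exact ⟨_, (hΛ.mem _).2 ⟨a, (hΛ.iff a).1 h3, rfl⟩, _, val_oN hB h3 h4⟩
    · obtain ⟨a, ha, rfl⟩ := (hΛ.mem x).1 hx
      refine ⟨_, (hpair _ _).2 ⟨a, ha, rfl, rfl⟩, fun y hy => ?_⟩
      obtain ⟨a', ha', e1, e2⟩ := (hpair _ _).1 hy
      rw [e2, hΛ.inj a a' ha ha' e1]
  refine ⟨mem_MM hD, hF, fun a ha => ⟨hac a ha, ?_⟩⟩
  exact (FunOn.ap_eq hF ((hΛ.mem _).2 ⟨a, ha, rfl⟩)).1 ((hpair _ _).2 ⟨a, ha, rfl, rfl⟩)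

end Pool.CN
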