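import Pool.Agent.Lib.MP_cc7fb1_cn.Df

/-!
# N-side, row NE1
-/

set_option autoImplicit false
set_option linter.unusedSectionVars false

open Cardinal Set

namespace Pool.CN

open Pool.MP_3ade05_lc Pool.PC Pool.CF Pool.UL Pool.UT Pool.GE

variable {P : Type} [PartialOrder P]

/-- `F` is a `κ`-complete proper filter below `p₀`. -/
structure LF {W : Type} (κ : Cardinal.{0}) (p₀ : P) (F : RA W P → Set P) : Prop
    extends Nice F where
  comp : ∀ (J : Type) (A : J → RA W P), #J < κ → ∀ p ≤ p₀, (∀ j, p ∈ F (A j)) →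
    p ∈ F (raI A univ)
  proper : ∀ p ≤ p₀, p ∉ F (ra0 W P)

section NE1

variable {W : Type}

/-- restriction to the conditions below `p₀` -/
private def NE1_rs (p₀ : P) (A : Set P) : Set {p : P // p ≤ p₀} := {x | x.1 ∈ A}

/-- extension of a set of conditions below `p₀` -/
private def NE1_ex (p₀ : P) (A : Set {p : P // p ≤ p₀}) : Set P :=
  {p | ∀ q ≤ p, ∀ h : q ≤ p₀, (⟨q, h⟩ : {p : P // p ≤ p₀}) ∈ A}

private lemma NE1_rs_reg (p₀ : P) {A : Set P} (hA : RegOpen A) : RegOpen (NE1_rs p₀ A) := by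
  refine ⟨fun x hx y hy => hA.1 x.1 hx y.1 hy, fun x h => hA.2 x.1 fun q hq => ?_⟩
  obtain ⟨z, hz, hzA⟩ := h ⟨q, hq.trans x.2⟩ hq
  exact ⟨z.1, hz, hzA⟩

private lemma NE1_ex_reg (p₀ : P) {A : Set {p : P // p ≤ p₀}} (hA : RegOpen A) :
    RegOpen (NE1_ex p₀ A) := by
  refine ⟨fun p hp q hq r hr h => hp r (hr.trans hq) h, fun p h q hq h0 => hA.2 _ ?_⟩
  intro y hy
  obtain ⟨r, hr, hrA⟩ := h y.1 (le_trans hy hq)
  exact ⟨⟨r, hr.trans y.2⟩, hr, hrA r le_rfl _⟩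

private lemma NE1_mem_ex (p₀ : P) {A : Set {p : P // p ≤ p₀}} (hA : RegOpen A)
    (x : {p : P // p ≤ p₀}) : x.1 ∈ NE1_ex p₀ A ↔ x ∈ A := by
  constructor
  · intro h
    exact h x.1 le_rfl x.2
  · intro h q hq h0
    exact hA.1 x h ⟨q, h0⟩ hq

private lemma NE1_dir {κ : Cardinal.{0}} (hP : DirClosed κ P) (p₀ : P) :
    DirClosed κ {p : P // p ≤ p₀} := by
  intro D hne hc hd
  obtain ⟨p, hp⟩ := hP (Subtype.val '' D) (hne.image _) (lt_of_le_of_lt mk_image_le hc) (by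
    rintro _ ⟨a, ha, rfl⟩ _ ⟨b, hb, rfl⟩
    obtain ⟨c, hc, h1, h2⟩ := hd a ha b hb
    exact ⟨c.1, ⟨c, hc, rfl⟩, h1, h2⟩)
  obtain ⟨a, ha⟩ := hne
  refine ⟨⟨p, (hp a.1 ⟨a, ha, rfl⟩).trans a.2⟩, fun b hb => hp b.1 ⟨b, hb, rfl⟩⟩

/-- extension of a family of regular open sets -/
private def NE1_exR (p₀ : P) (A : W → Set {p : P // p ≤ p₀}) (h : ∀ a, RegOpen (A a)) :
    RA W P := ⟨fun a => NE1_ex p₀ (A a), fun a => NE1_ex_reg p₀ (h a)⟩

open Classical in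
/-- the restricted filter -/
private noncomputable def NE1_F (p₀ : P) (F : RA W P → Set P)
    (A : W → Set {p : P // p ≤ p₀}) : Set {p : P // p ≤ p₀} :=
  if h : ∀ a, RegOpen (A a) then {x | x.1 ∈ F (NE1_exR p₀ A h)} else ∅

private lemma NE1_F_eq (p₀ : P) (F : RA W P → Set P) {A : W → Set {p : P // p ≤ p₀}}
    (h : ∀ a, RegOpen (A a)) : NE1_F p₀ F A = {x | x.1 ∈ F (NE1_exR p₀ A h)} := by
  unfold NE1_F
  rw [dif_pos h]

private lemma NE1_empty_reg {Q : Type} [PartialOrder Q] : RegOpen (∅ : Set Q) :=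
  ⟨fun _ h => absurd h (notMem_empty _), fun p h => by
    obtain ⟨r, _, hr⟩ := h p le_rfl
    exact absurd hr (notMem_empty _)⟩

private lemma NE1_filt {κ : Cardinal.{0}} (p₀ : P) (F : RA W P → Set P) (hF : LF κ p₀ F) :
    FiltN κ {p : P // p ≤ p₀} W (NE1_F p₀ F) where
  reg A h := by
    rw [NE1_F_eq p₀ F h]
    exact NE1_rs_reg p₀ (hF.reg _)
  up A A' h h' p hp hAA' := by
    rw [NE1_F_eq p₀ F h] at hp
    rw [NE1_F_eq p₀ F h']
    refine hF.up (NE1_exR p₀ A h) (NE1_exR p₀ A' h') p.1 hp ?_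
    intro a q hq hqA r hr h0
    exact hAA' a ⟨r, h0⟩ (hr.trans hq) (hqA r hr h0)
  complete J A hJ h p hp := by
    have h' : ∀ i, RegOpen {q : {p : P // p ≤ p₀} | ∀ j, q ∈ A j i} := by
      intro i
      refine ⟨fun x hx y hy j => (h j i).1 x (hx j) y hy, fun x hx j => (h j i).2 x ?_⟩
      intro y hy
      obtain ⟨z, hz, h1⟩ := hx y hy
      exact ⟨z, hz, h1 j⟩
    rw [NE1_F_eq p₀ F h']
    have h1 : p.1 ∈ F (raI (fun j => NE1_exR p₀ (A j) (h j)) univ) := by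
      refine hF.comp J _ hJ p.1 p.2 fun j => ?_
      have h2 := hp j
      rw [NE1_F_eq p₀ F (h j)] at h2
      exact h2
    refine hF.up _ (NE1_exR p₀ _ h') p.1 h1 ?_
    intro a q hq hqA r hr h0 j
    exact hqA j (mem_univ j) r hr h0
  proper := by
    have h : ∀ _a : W, RegOpen (∅ : Set {p : P // p ≤ p₀}) := fun _ => NE1_empty_reg
    rw [NE1_F_eq p₀ F h]
    refine eq_empty_of_forall_notMem fun x hx => ?_
    refine hF.proper x.1 x.2 (hF.up _ _ x.1 hx ?_)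
    intro a q hq hqA
    exact absurd (hqA q le_rfl (hq.trans x.2)) (notMem_empty _)

end NE1

/-- Extension below a condition. -/
theorem exists_LU {W : Type} {κ : Cardinal.{0}} (hκ : Indestructible κ) (hP : DirClosed κ P)
    (p₀ : P) (F : RA W P → Set P) (hF : LF κ p₀ F) :
    ∃ G : RA W P → Set P, LF κ p₀ G ∧ (∀ A, F A ⊆ G A) ∧
      ∀ A, ∀ p ≤ p₀, ∃ q ≤ p, q ∈ G A ∨ q ∈ G (raC A) := by
  obtain ⟨G, hG, hFG, hdec⟩ := hκ.ext _ (NE1_dir hP p₀) W _ (NE1_filt p₀ F hF)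
  have hrs : ∀ A : RA W P, ∀ a, RegOpen (NE1_rs p₀ (A.1 a)) := fun A a =>
    NE1_rs_reg p₀ (A.2 a)
  refine ⟨fun A => NE1_ex p₀ (G fun a => NE1_rs p₀ (A.1 a)), ⟨⟨fun A => ?_, ?_⟩, ?_, ?_⟩, ?_, ?_⟩
  · exact NE1_ex_reg p₀ (hG.reg _ (hrs A))
  · intro A A' p hp hAA' q hq h0
    refine hG.up _ _ (hrs A) (hrs A') ⟨q, h0⟩ (hp q hq h0) ?_
    intro i r hr hrA
    exact hAA' i r.1 (le_trans hr hq) hrA
  · intro J A hJ p _ hpA q hq h0
    have h1 := hG.complete J (fun j a => NE1_rs p₀ ((A j).1 a)) hJ (fun j i => hrs (A j) i)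
      ⟨q, h0⟩ (fun j => hpA j q hq h0)
    have h2 : (fun a => NE1_rs p₀ ((raI A univ).1 a)) =
        fun i => {q : {p : P // p ≤ p₀} | ∀ j, q ∈ NE1_rs p₀ ((A j).1 i)} := by
      funext a
      ext x
      constructor
      · intro hx j
        exact hx j (mem_univ j)
      · intro hx j _
        exact hx j
    rw [h2]
    exact h1
  · intro p hp hpG
    have h1 := hpG p le_rfl hp
    have h2 : (fun a => NE1_rs p₀ ((ra0 W P).1 a)) = fun _ => ∅ := by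
      funext a
      rfl
    rw [h2, hG.proper] at h1
    exact notMem_empty _ h1
  · intro A p hp q hq h0
    refine hFG _ (hrs A) ?_
    rw [NE1_F_eq p₀ F (hrs A)]
    refine hF.up A _ q ((hF.reg A).1 p hp q hq) ?_
    intro a r hr hrA s hs h1
    exact (A.2 a).1 r hrA s hs
  · intro A p hp
    obtain ⟨q, hq, h1⟩ := hdec _ (hrs A) ⟨p, hp⟩
    refine ⟨q.1, hq, ?_⟩
    rcases h1 with h1 | h1
    · exact Or.inl ((NE1_mem_ex p₀ (hG.reg _ (hrs A)) q).2 h1)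
    · right
      have h2 : (fun i => perp (NE1_rs p₀ (A.1 i))) = fun a => NE1_rs p₀ ((raC A).1 a) := by
        funext a
        ext x
        constructor
        · intro hx r hr hrA
          exact hx ⟨r, hr.trans x.2⟩ hr hrA
        · intro hx y hy hyA
          exact hx y.1 hy hyA
      rw [h2] at h1
      exact (NE1_mem_ex p₀ (hG.reg _ (hrs (raC A))) q).2 h1

end Pool.CN
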