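import Pool.Agent.Lib.MP_cc7fb1_cn.NE1
import Pool.Agent.Lib.MP_cc7fb1_cn.NA4
import Pool.Agent.Lib.MP_cc7fb1_cn.NA3
import Pool.Agent.Lib.MP_cc7fb1_cn.NB3

/-!
# N-side, row NE2
-/

set_option autoImplicit false
set_option linter.unusedSectionVars false

open Cardinal Set

namespace Pool.CN

open Pool.MP_3ade05_lc Pool.PC Pool.CF Pool.UL Pool.UT Pool.GE

variable {P : Type} [PartialOrder P]

variable {Λ Θ R : Type} [LinearOrder Λ] [WellFoundedLT Λ] [LinearOrder Θ]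
    [WellFoundedLT Θ] [PartialOrder R] [OrderTop R] [D : VS P Λ Θ R]

/-- The truth value of `A ∈ γ` below `p₀`. -/
def gF (γ : Name (PP P)) (p₀ : P) : RA Λ P → Set P :=
  fun A => {p | ∀ q ≤ p, q ≤ p₀ → Name.fmem (nm A.1) γ ⟨q⟩}

variable (Λ Θ R) in
/-- No extension of `p₀` is bad. -/
structure NE2_Good [D : VS P Λ Θ R] (γ : Name (PP P)) (p₀ : P) : Prop where
  a : ∀ q : PP P, q.down ≤ p₀ → ∀ A A' : RA Λ P, Name.fmem (nm A.1) γ q →
    (∀ a, ∀ r ≤ q.down, r ∈ A.1 a → r ∈ A'.1 a) → ∃ r ≤ q, Name.fmem (nm A'.1) γ r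
  b : ∀ q : PP P, q.down ≤ p₀ → ∀ (A : KK P Λ Θ R → RA Λ P) (k₀ : KK P Λ Θ R),
    (∀ k < k₀, Name.fmem (nm (A k).1) γ q) →
      ∃ r ≤ q, Name.fmem (nm (raI A {j | od j < od k₀}).1) γ r
  c : ∀ q : PP P, q.down ≤ p₀ → ¬ Name.fmem (nm (ra0 Λ P).1) γ q

/-- If no extension of `p₀` is bad, `γ` is a complete proper filter below `p₀`. -/
lemma NE2_LF {γ : Name (PP P)} {p₀ : P} (h : NE2_Good Λ Θ R γ p₀) :
    LF D.κ p₀ (gF (Λ := Λ) γ p₀) := by
  classical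
  refine ⟨⟨?_, ?_⟩, ?_, ?_⟩
  · intro A
    refine ⟨fun p hp q hq r hr hr₀ => hp r (hr.trans hq) hr₀, fun p hp q hq hq₀ => ?_⟩
    refine Name.fmem_reg fun q' hq' => ?_
    obtain ⟨r, hr, h1⟩ := hp q'.down (le_trans (show q'.down ≤ q from hq') hq)
    exact ⟨⟨r⟩, hr, h1 r le_rfl (hr.trans (le_trans (show q'.down ≤ q from hq') hq₀))⟩
  · intro A A' p hp hsub q hq hq₀
    refine Name.fmem_reg fun q' hq' => ?_
    have h1 : q'.down ≤ q := hq'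
    exact h.a q' (h1.trans hq₀) A A' (Name.fmem_mono (hp q hq hq₀) hq') fun a r hr hA =>
      hsub a r (hr.trans (h1.trans hq)) hA
  · intro J A hJ p hp₀ hA q hq hq₀
    have hα : (#J).ord < ty (KK P Λ Θ R) := by
      rw [ty_KK]
      exact ord_lt_ord.2 hJ
    obtain ⟨k₀, hk₀⟩ := exists_od (W := KK P Λ Θ R) hα
    have hc : #J = #(Iio k₀) := by
      rw [← card_od, hk₀, card_ord]
    obtain ⟨e⟩ := Cardinal.eq.1 hc
    let A' : KK P Λ Θ R → RA Λ P := fun k => if h : k < k₀ then A (e.symm ⟨k, h⟩) else ra0 Λ P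
    have hA' : ∀ j, A' (e j).1 = A j := by
      intro j
      have h1 : (e j).1 < k₀ := (e j).2
      simp only [A']
      rw [dif_pos h1]
      congr 1
      exact e.symm_apply_apply j
    have heq : raI A univ = raI A' {j | od j < od k₀} := by
      apply Subtype.ext
      funext b
      ext r
      constructor
      · intro h1 j hj
        have h2 : j < k₀ := od_lt_iff.1 hj
        have h3 := h1 (e.symm ⟨j, h2⟩) (mem_univ _)
        rw [← hA', e.apply_symm_apply] at h3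
        exact h3
      · intro h1 j _
        have h2 := h1 (e j).1 (od_lt_iff.2 (e j).2)
        rwa [hA'] at h2
    rw [heq]
    refine Name.fmem_reg fun q' hq' => ?_
    have h1 : q'.down ≤ q := hq'
    refine h.b q' (h1.trans hq₀) A' k₀ fun k hk => ?_
    have h2 := hA (e.symm ⟨k, hk⟩) q hq hq₀
    rw [← hA', e.apply_symm_apply] at h2
    exact Name.fmem_mono h2 hq'
  · intro p hp hF
    exact h.c ⟨p⟩ hp (hF p le_rfl hp)

/-- The name of the sequence of the first `z.2` values. -/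
noncomputable def NE2_s (z : (KK P Λ Θ R → RA Λ P) × KK P Λ Θ R) : Name (PP P) :=
  Name.mk (KK P Λ Θ R) (fun k => oN (ordN _ (od k)) (nm (z.1 k).1))
    (fun k => ⟨{_q | k < z.2}, fun _ _ _ h => h⟩)

/-- `κ`-complete filters of the model. -/
theorem Ev.gF_LF : Ev (P := PP P) (fun U H => ∀ γ ∈ U,
    KFil (MM U H) (kap P Λ Θ R U H) (lam P Λ U H) (Name.val U H γ) →
      ∃ p₀ : P, tN (P := PP P) p₀ ∈ U ∧ (⟨p₀⟩ : PP P) ∈ H ∧ LF D.κ p₀ (gF (Λ := Λ) γ p₀) ∧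
        ∀ A : RA Λ P, tN (P := PP P) A ∈ U → (Name.val U H (nm A.1) ∈ Name.val U H γ ↔
          ∃ q ∈ H, q.down ∈ gF (Λ := Λ) γ p₀ A)) := by
  classical
  have hga := Ev.genT (P := PP P) (T := Unit) (T' := RA Λ P × RA Λ P) 1
    (fun _ v q z => Name.fmem (nm z.1.1) (v 0) q ∧
      (∀ a, ∀ r ≤ q.down, r ∈ z.1.1 a → r ∈ z.2.1 a) ∧ ∀ r ≤ q, ¬ Name.fmem (nm z.2.1) (v 0) r)
  have hgb := Ev.genT (P := PP P) (T := Unit) (T' := (KK P Λ Θ R → RA Λ P) × KK P Λ Θ R) 1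
    (fun _ v q z => (∀ k < z.2, Name.fmem (nm (z.1 k).1) (v 0) q) ∧
      ∀ r ≤ q, ¬ Name.fmem (nm (raI z.1 {j | od j < od z.2}).1) (v 0) r)
  have hgc := Ev.genT (P := PP P) (T := Unit) (T' := Unit) 1
    (fun _ v q _ => Name.fmem (nm (ra0 Λ P).1) (v 0) q)
  have hgd := Ev.genT (P := PP P) (T := Unit) (T' := P) 1
    (fun _ v q p₀ => q.down = p₀ ∧ NE2_Good Λ Θ R (v 0) p₀)
  refine (((((Ev.base (P := PP P)).and (Ev.parts (P := PP P))).and
    ((Ev.wd (P := P) (KK P Λ Θ R)).and (Ev.wd (P := P) Λ))).and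
    ((Ev.mem_nm (P := P) Λ).and ((Ev.nm_iff (P := P) Λ).and ((Ev.incl (P := P) Λ).and
    (Ev.inter_nm (P := P) D.κ D.dir Λ))))).and
    (((hga.and hgb).and (hgc.and hgd)).and ((Ev.seed (P := PP P) ()).and
    ((Ev.seed (P := PP P) (ra0 Λ P)).and ((Ev.opN (P := PP P) (NE2_s (P := P) (Λ := Λ) (Θ := Θ)
    (R := R))).and (((Ev.opT (P := PP P) (T := RA Λ P × RA Λ P) (T' := RA Λ P) Prod.fst).and
    (Ev.opT (P := PP P) (T := RA Λ P × RA Λ P) (T' := RA Λ P) Prod.snd)).and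
    (((Ev.opT (P := PP P) (T := (KK P Λ Θ R → RA Λ P) × KK P Λ Θ R)
      (T' := KK P Λ Θ R → RA Λ P) Prod.fst).and
    (Ev.opT (P := PP P) (T := (KK P Λ Θ R → RA Λ P) × KK P Λ Θ R)
      (T' := KK P Λ Θ R) Prod.snd)).and
    ((Ev.opT (P := PP P) (T := (KK P Λ Θ R → RA Λ P) × KK P Λ Θ R) (T' := RA Λ P)
      (fun z => z.1 z.2)).and
    (Ev.pairT (P := PP P) (KK P Λ Θ R → RA Λ P) (KK P Λ Θ R)))))))))).mono ?_
  rintro U H ⟨⟨⟨⟨hB, hparts⟩, hwK, hwΛ⟩, hnm, hnmU, hincl, hinter⟩, ⟨⟨hga, hgb⟩, hgc, hgd⟩, hunit,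
    h0, hsN, ⟨hf1, hs1⟩, ⟨hf2, hs2⟩, happ, hpair⟩
  intro γ hγ hG
  have hv : ∀ i, (fun _ : Fin 1 => γ) i ∈ U := fun _ => hγ
  have hlam : ∀ A : RA Λ P, Name.val U H (nm A.1) ⊆ lam P Λ U H := by
    intro A x hx
    obtain ⟨a, ha, _, rfl⟩ := (hnm _ _).1 hx
    exact (hwΛ.mem _).2 ⟨a, ha, rfl⟩
  -- no bad extensions of the first kind
  obtain ⟨pa, hpa, hna⟩ : ∃ p ∈ H, ∀ q ≤ p, ∀ A A' : RA Λ P, Name.fmem (nm A.1) γ q →
      (∀ a, ∀ r ≤ q.down, r ∈ A.1 a → r ∈ A'.1 a) → ∃ r ≤ q, Name.fmem (nm A'.1) γ r := by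
    rcases hga () hunit (fun _ => γ) hv with ⟨q, hq, ⟨A, A'⟩, hz, h1, h2, h3⟩ | ⟨p, hp, hn⟩
    · exfalso
      have hA : tN (P := PP P) A ∈ U := hf1 _ hz
      have hA' : tN (P := PP P) A' ∈ U := hs1 _ hz
      have hAn := (hnmU A).2 hA
      have hAn' := (hnmU A').2 hA'
      have h4 := (Name.val_mem_iff hB.full.at' hAn hγ).2 ⟨q, hq, h1⟩
      have h5 := (hincl A A' hA hA').2 ⟨q, hq, h2⟩
      have h6 := hG.up _ h4 _ (mem_MM hAn') (hlam A') h5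
      obtain ⟨q', hq', h7⟩ := (Name.val_mem_iff hB.full.at' hAn' hγ).1 h6
      obtain ⟨r, hr, h8, h9⟩ := hB.filt.dir q hq q' hq'
      exact h3 r h8 (Name.fmem_mono h7 h9)
    · refine ⟨p, hp, fun q hq A A' h1 h2 => ?_⟩
      by_contra h3
      push Not at h3
      exact hn q hq (A, A') ⟨h1, h2, h3⟩
  -- no bad extensions of the second kind
  obtain ⟨pb, hpb, hnb⟩ : ∃ p ∈ H, ∀ q ≤ p, ∀ (A : KK P Λ Θ R → RA Λ P) (k₀ : KK P Λ Θ R),
      (∀ k < k₀, Name.fmem (nm (A k).1) γ q) →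
        ∃ r ≤ q, Name.fmem (nm (raI A {j | od j < od k₀}).1) γ r := by
    rcases hgb () hunit (fun _ => γ) hv with ⟨q, hq, ⟨A, k₀⟩, hz, h1, h2⟩ | ⟨p, hp, hn⟩
    · exfalso
      have hA : tN (P := PP P) A ∈ U := hf2 _ hz
      have hk₀ : tN (P := PP P) k₀ ∈ U := hs2 _ hz
      have hk₀U := (hwK.iff k₀).2 hk₀
      have hk₀κ : od k₀ < D.κ.ord := (od_lt_ty k₀).trans_eq (ty_KK P Λ Θ R)
      obtain ⟨hI, hI'⟩ := hinter A hA (od k₀) hk₀U hk₀κ
      have hIn := (hnmU _).2 hI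
      have hσ : NE2_s (P := P) (Λ := Λ) (Θ := Θ) (R := R) (A, k₀) ∈ U := hsN _ hz
      have hAk : ∀ k : KK P Λ Θ R, tN (P := PP P) k ∈ U → tN (P := PP P) (A k) ∈ U :=
        fun k hk => happ _ (hpair A k hA hk)
      have hmem : ∀ z, z ∈ Name.val U H (NE2_s (P := P) (Λ := Λ) (Θ := Θ) (R := R) (A, k₀)) ↔
          ∃ k : KK P Λ Θ R, k < k₀ ∧ tN (P := PP P) k ∈ U ∧
            z = ZFSet.pair (Name.val U H (ordN _ (od k))) (Name.val U H (nm (A k).1)) := by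
        intro z
        rw [Name.mem_val]
        constructor
        · rintro ⟨k, hk, ⟨q', _, hq'⟩, rfl⟩
          obtain ⟨h3, h4⟩ := hparts _ _ hk
          exact ⟨k, hq', (hwK.iff k).1 h3, val_oN hB h3 h4⟩
        · rintro ⟨k, hk, hkU, rfl⟩
          have h3 := (hwK.iff k).2 hkU
          have h4 := (hnmU _).2 (hAk k hkU)
          exact ⟨k, oN_mem hB h3 h4, ⟨q, hq, hk⟩, (val_oN hB h3 h4).symm⟩
      have hfun : FunOn (Name.val U H (NE2_s (P := P) (Λ := Λ) (Θ := Θ) (R := R) (A, k₀)))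
          (Name.val U H (ordN _ (od k₀))) := by
        constructor
        · intro z hz'
          obtain ⟨k, hk, hkU, rfl⟩ := (hmem z).1 hz'
          exact ⟨_, (val_ordN_mem_iff hB ((hwK.iff k).2 hkU) hk₀U).2 (od_lt_iff.2 hk), _, rfl⟩
        · intro x hx
          obtain ⟨β, hβ, hβU, rfl⟩ := (mem_val_ordN hB).1 hx
          obtain ⟨k, rfl⟩ := exists_od (W := KK P Λ Θ R) (hβ.trans (od_lt_ty k₀))
          have hkU := (hwK.iff k).1 hβU
          refine ⟨_, (hmem _).2 ⟨k, od_lt_iff.1 hβ, hkU, rfl⟩, fun y' hy' => ?_⟩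
          obtain ⟨k', _, hk'U, he⟩ := (hmem _).1 hy'
          obtain ⟨e1, e2⟩ := ZFSet.pair_injective he
          obtain rfl := hwK.inj k k' hkU hk'U e1
          exact e2
      have hap : ∀ k : KK P Λ Θ R, k < k₀ → tN (P := PP P) k ∈ U →
          ap (Name.val U H (NE2_s (P := P) (Λ := Λ) (Θ := Θ) (R := R) (A, k₀)))
            (Name.val U H (ordN _ (od k))) = Name.val U H (nm (A k).1) := fun k hk hkU =>
        (FunOn.ap_eq hfun ((val_ordN_mem_iff hB ((hwK.iff k).2 hkU) hk₀U).2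
          (od_lt_iff.2 hk))).1 ((hmem _).2 ⟨k, hk, hkU, rfl⟩)
      have h3 := hG.comp _ ((hwK.mem _).2 ⟨k₀, hk₀, rfl⟩) _ (mem_MM hσ) hfun (by
        intro x hx
        obtain ⟨β, hβ, hβU, rfl⟩ := (mem_val_ordN hB).1 hx
        obtain ⟨k, rfl⟩ := exists_od (W := KK P Λ Θ R) (hβ.trans (od_lt_ty k₀))
        have hkU := (hwK.iff k).1 hβU
        have hk := od_lt_iff.1 hβ
        rw [hap k hk hkU]
        exact (Name.val_mem_iff hB.full.at' ((hnmU _).2 (hAk k hkU)) hγ).2 ⟨q, hq, h1 k hk⟩)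
      have h4 : Name.val U H (nm (raI A {j | od j < od k₀}).1) =
          ZFSet.sep (fun y => ∀ x ∈ Name.val U H (ordN _ (od k₀)),
            y ∈ ap (Name.val U H (NE2_s (P := P) (Λ := Λ) (Θ := Θ) (R := R) (A, k₀))) x)
          (lam P Λ U H) := by
        ext y
        rw [hnm, ZFSet.mem_sep]
        constructor
        · rintro ⟨b, hb, hq', rfl⟩
          refine ⟨(hwΛ.mem _).2 ⟨b, hb, rfl⟩, ?_⟩
          intro x hx
          obtain ⟨β, hβ, hβU, rfl⟩ := (mem_val_ordN hB).1 hx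
          obtain ⟨k, rfl⟩ := exists_od (W := KK P Λ Θ R) (hβ.trans (od_lt_ty k₀))
          have hkU := (hwK.iff k).1 hβU
          rw [hap k (od_lt_iff.1 hβ) hkU, hnm]
          exact ⟨b, hb, (hI' b hb).1 hq' k hkU hβ, rfl⟩
        · rintro ⟨h5, h6⟩
          obtain ⟨b, hb, rfl⟩ := (hwΛ.mem _).1 h5
          refine ⟨b, hb, (hI' b hb).2 ?_, rfl⟩
          intro k hkU hk
          have h7 := h6 _ ((val_ordN_mem_iff hB ((hwK.iff k).2 hkU) hk₀U).2 hk)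
          rw [hap k (od_lt_iff.1 hk) hkU, hnm] at h7
          obtain ⟨b', hb', h8, h9⟩ := h7
          obtain rfl := hwΛ.inj b b' hb hb' h9
          exact h8
      rw [← h4] at h3
      obtain ⟨q', hq', h7⟩ := (Name.val_mem_iff hB.full.at' hIn hγ).1 h3
      obtain ⟨r, hr, h8, h9⟩ := hB.filt.dir q hq q' hq'
      exact h2 r h8 (Name.fmem_mono h7 h9)
    · refine ⟨p, hp, fun q hq A k₀ h1 => ?_⟩
      by_contra h3
      push Not at h3
      exact hn q hq (A, k₀) ⟨h1, h3⟩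
  -- no bad extensions of the third kind
  obtain ⟨pc, hpc, hnc⟩ : ∃ p ∈ H, ∀ q ≤ p, ¬ Name.fmem (nm (ra0 Λ P).1) γ q := by
    rcases hgc () hunit (fun _ => γ) hv with ⟨q, hq, _, _, h1⟩ | ⟨p, hp, hn⟩
    · exfalso
      have h2 := (Name.val_mem_iff hB.full.at' ((hnmU _).2 h0) hγ).2 ⟨q, hq, h1⟩
      have h3 : Name.val U H (nm (ra0 Λ P).1) = ∅ := by
        rw [ZFSet.eq_empty]
        intro y hy
        obtain ⟨a, _, ⟨q, _, hq⟩, _⟩ := (hnm _ _).1 hy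
        exact hq
      rw [h3] at h2
      exact hG.empty h2
    · exact ⟨p, hp, fun q hq => hn q hq ()⟩
  obtain ⟨r₀, hr₀, hra, hrb, hrc⟩ := hB.filt.dir3 hpa hpb hpc
  have hgood : ∀ r : PP P, r ≤ r₀ → NE2_Good Λ Θ R γ r.down := by
    intro r hr
    refine ⟨fun q hq A A' => hna q (le_trans (le_trans (show q ≤ r from hq) hr) hra) A A',
      fun q hq A k₀ => hnb q (le_trans (le_trans (show q ≤ r from hq) hr) hrb) A k₀,
      fun q hq => hnc q (le_trans (le_trans (show q ≤ r from hq) hr) hrc)⟩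
  obtain ⟨p₀, hp₀, hp₀H, hgd₀⟩ : ∃ p₀ : P, tN (P := PP P) p₀ ∈ U ∧ (⟨p₀⟩ : PP P) ∈ H ∧
      NE2_Good Λ Θ R γ p₀ := by
    rcases hgd () hunit (fun _ => γ) hv with ⟨q, hq, p₀, hp₀, rfl, h1⟩ | ⟨p, hp, hn⟩
    · exact ⟨q.down, hp₀, hq, h1⟩
    · exfalso
      obtain ⟨r, hr, h1, h2⟩ := hB.filt.dir p hp r₀ hr₀
      exact hn r h1 r.down ⟨rfl, hgood r h2⟩
  refine ⟨p₀, hp₀, hp₀H, NE2_LF hgd₀, fun A hA => ?_⟩
  rw [Name.val_mem_iff hB.full.at' ((hnmU A).2 hA) hγ]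
  constructor
  · rintro ⟨q, hq, h1⟩
    exact ⟨q, hq, fun r hr _ => Name.fmem_mono h1 (show (⟨r⟩ : PP P) ≤ q from hr)⟩
  · rintro ⟨q, hq, h1⟩
    obtain ⟨r, hr, h2, h3⟩ := hB.filt.dir q hq _ hp₀H
    exact ⟨r, hr, h1 r.down h2 h3⟩

end Pool.CN
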