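import Pool.Agent.Lib.MP_cc7fb1_cn.Fin
import Pool.Agent.Lib.MP_cc7fb1_cn.Mn

/-!
# MP_cc7fb1: the negative answer from the V-side
-/

set_option autoImplicit false
set_option linter.unusedSectionVars false

open Set

namespace Pool.CN

open Pool.MP_3ade05_lc Pool.PC Pool.CF Pool.UL Pool.UT Pool.GE

theorem negative_of_VS {P Λ Θ R : Type} [PartialOrder P] [LinearOrder Λ] [WellFoundedLT Λ]
    [LinearOrder Θ] [WellFoundedLT Θ] [PartialOrder R] [OrderTop R] (D : VS P Λ Θ R)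
    (hκ : Indestructible D.κ) :
    ∃ V : Set ZFSet.{0}, V.Countable ∧ (∀ x ∈ V, ∀ y ∈ x, y ∈ V) ∧ ZFCModel V ∧
      ∃ k k₁ k₂ u : ZFSet.{0}, InfCard V k ∧ ZFSet.omega ∈ k ∧ NextCard V k k₁ ∧
        NextCard V k₁ k₂ ∧ UnifUF V k₁ u ∧ CompleteV V k k₁ u ∧ GalV V k₁ u k₁ k₂ := by
  obtain ⟨V, h1, h2, k, l, d, u, h3, h4, h5, h6⟩ := exists_model (D := D) hκ
  exact ⟨V, h1, h2, h3.zfc, k, l, d, u, h3.kap_card, h3.om,
    nextCard_of h3.kap_card h3.lam_card h3.kap_lam h3.lam_cov,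
    nextCard_of h3.lam_card h3.del_card h3.lam_del h3.del_cov, h5, completeV_of h4, galV_of h6⟩

end Pool.CN
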