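import Pool.Agent.Lib.MP_cc7fb1_cn.IDef

/-!
# MP_cc7fb1: the V-side, abstractly

`P` is the forcing, `Λ` has order type `λ`, `Θ` has order type `δ`, `R` is the partial order of the
small subsets of `λ` ordered by end extension.
-/

set_option autoImplicit false

open Cardinal Set

namespace Pool.CF

/-- The V-side. -/
class VS (P Λ Θ R : Type) [PartialOrder P] [LinearOrder Λ] [WellFoundedLT Λ] [LinearOrder Θ]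
    [WellFoundedLT Θ] [PartialOrder R] [OrderTop R] where
  κ : Cardinal.{0}
  κ_reg : κ.IsRegular
  κ_unc : ℵ₀ < κ
  κ_sl : ∀ c < κ, 2 ^ c < κ
  κ_lt : κ < #Λ
  Λ_init : ∀ a : Λ, #(Iio a) < #Λ
  Λ_reg : (#Λ).IsRegular
  Λ_sl : ∀ c < #Λ, 2 ^ c < #Λ
  Λ_lt : #Λ < #Θ
  Θ_init : ∀ a : Θ, #(Iio a) < #Θ
  Θ_reg : (#Θ).IsRegular
  ne : Nonempty P
  dir : DirClosed κ P
  cc : ∀ A : Set P, (∀ a ∈ A, ∀ b ∈ A, a ≠ b → ∀ r ≤ a, ¬ r ≤ b) → #A < #Θ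
  /-- the condition decides the value at the coordinate and position -/
  Dc : P → Θ → Λ → Θ → Prop
  Dc_mono : ∀ p q be xi v, q ≤ p → Dc p be xi v → Dc q be xi v
  Dc_uniq : ∀ p be xi v v', Dc p be xi v → Dc p be xi v' → v = v'
  Dc_lt : ∀ p be xi v, Dc p be xi v → v < be
  Dc_tot : ∀ p be, (∃ v, v < be) → ∀ xi, ∃ q ≤ p, ∃ v, Dc q be xi v
  Dc_onto : ∀ p be v, v < be → ∃ q ≤ p, ∃ xi, Dc q be xi v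
  /-- fusion -/
  fus : ∀ (I : Type) (D : I → Set P), #I < #Λ → (∀ i, ∀ p ∈ D i, ∀ q ≤ p, q ∈ D i) →
    (∀ i p, ∃ q ≤ p, q ∈ D i) → ∀ p, ∃ q ≤ p, ∃ T : Set P, #T < #Λ ∧
      ∀ i, ∀ r ≤ q, ∃ t ∈ T, t ∈ D i ∧ ∃ r' ≤ r, r' ≤ t
  /-- `λ` many names for all subsets of `κ` -/
  pow : ∃ B : Λ → κ.ord.ToType → Set P, (∀ ζ ξ, ∀ p ∈ B ζ ξ, ∀ q ≤ p, q ∈ B ζ ξ) ∧
    ∀ A : κ.ord.ToType → Set P, (∀ ξ, RegOpen (A ξ)) → ∀ p, ∃ q ≤ p, ∃ ζ, ∀ ξ, ∀ r ≤ q,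
      (r ∈ A ξ ↔ ∀ r' ≤ r, ∃ r'' ≤ r', r'' ∈ B ζ ξ)
  /-- the collapse of `th < λ` to `κ` -/
  Rl : Λ → P → κ.ord.ToType → Λ → Prop
  Rl_mono : ∀ th p q i v, q ≤ p → Rl th p i v → Rl th q i v
  Rl_uniq : ∀ th p i v v', Rl th p i v → Rl th p i v' → v = v'
  Rl_lt : ∀ th p i v, Rl th p i v → v < th
  col : ∀ (a : Λ) p, ∃ q ≤ p, ∃ th ≥ a, (∀ i, ∀ r ≤ q, ∃ r' ≤ r, ∃ v, Rl th r' i v) ∧
    ∀ v < th, ∀ r ≤ q, ∃ r' ≤ r, ∃ i, Rl th r' i v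
  /-- the relation `E` -/
  E : P → R → (Λ → Set P) → Prop
  E_mono : ∀ b c b' c' A, b' ≤ b → c' ≤ c → E b c A → E b' c' A
  E_reg : ∀ b c A, (∀ ξ, RegOpen (A ξ)) →
    (∀ b' ≤ b, ∀ c' ≤ c, ∃ b'' ≤ b', ∃ c'' ≤ c', E b'' c'' A) → E b c A
  E_sub : ∀ b c A A', (∀ ξ, RegOpen (A ξ)) → (∀ ξ, RegOpen (A' ξ)) →
    (∀ ξ, ∀ b' ≤ b, b' ∈ A ξ → b' ∈ A' ξ) → E b c A → E b c A'
  E_inter : ∀ b c A A', (∀ ξ, RegOpen (A ξ)) → (∀ ξ, RegOpen (A' ξ)) →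
    E b c A → E b c A' → E b c (fun ξ => A ξ ∩ A' ξ)
  E_bot : ∀ b c, ¬ E b c (fun _ => ∅)
  E_dec : ∀ b c A, (∀ ξ, RegOpen (A ξ)) →
    ∃ b' ≤ b, ∃ c' ≤ c, E b' c' A ∨ E b' c' (fun ξ => perp (A ξ))
  E_diag : ∀ b c (A : Λ → Λ → Set P), (∀ ν ξ, RegOpen (A ν ξ)) → (∀ ν, E b c (A ν)) →
    E b c (fun ξ => {q | ∀ ν < ξ, q ∈ A ν ξ})
  E_seg : ∀ b c (η : Λ), E b c (fun ξ => {_q | η ≤ ξ})
  /-- the sets `A_c` -/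
  AC : R → Λ → Set P
  AC_reg : ∀ c ξ, RegOpen (AC c ξ)
  AC_mono : ∀ c c', c' ≤ c → ∀ ξ, AC c' ξ ⊆ AC c ξ
  AC_disj : ∀ c c' : R, (∀ d ≤ c, ¬ d ≤ c') → ∀ ξ, AC c ξ ∩ AC c' ξ = ∅
  E_AC : ∀ b c, E b c (AC c)
  R_dir : DirClosed κ R
  R_sep : ∀ c c' : R, ¬ c' ≤ c → ∃ c'' ≤ c', ∀ d ≤ c'', ¬ d ≤ c
  /-- an enumeration of `R` -/
  enum : Λ → R
  enum_surj : Function.Surjective enum

end Pool.CF
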